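import Mathlib

/-!
# Finite sets with the action of a finite group: Burnside's theorem on marks, classes under a normal
subgroup
-/

set_option autoImplicit false

set_option linter.unusedSectionVars false

open scoped Classical BigOperators

noncomputable section

namespace Pool.Agent.V7H17.NE

section marks

variable {Γ S T : Type} [Group Γ] [Finite Γ] [MulAction Γ S] [MulAction Γ T] [Finite S] [Finite T]

/-- the points of `A` fixed by `H` -/
def fixIn (A : Set S) (H : Subgroup Γ) : Set S := {s | s ∈ A ∧ ∀ g ∈ H, g • s = s}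

omit [Finite Γ] [Finite S] in
theorem fixIn_bot (A : Set S) : fixIn A (⊥ : Subgroup Γ) = A := by
  ext s
  refine ⟨fun h => h.1, fun h => ⟨h, fun g hg => ?_⟩⟩
  rw [Subgroup.mem_bot.1 hg, one_smul]

omit [Finite Γ] [Finite S] in
theorem smul_orb {s₀ s : S} {g : Γ} :
    g • s ∈ MulAction.orbit Γ s₀ ↔ s ∈ MulAction.orbit Γ s₀ := by
  constructor
  · rintro ⟨k, hk⟩
    refine ⟨g⁻¹ * k, ?_⟩
    have h1 : k • s₀ = g • s := hk
    show (g⁻¹ * k) • s₀ = s
    rw [mul_smul, h1, inv_smul_smul]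
  · rintro ⟨k, hk⟩
    refine ⟨g * k, ?_⟩
    have h1 : k • s₀ = s := hk
    show (g * k) • s₀ = g • s
    rw [mul_smul, h1]

omit [Finite Γ] [Finite S] [Finite T] in
/-- the equivariant map of the orbits of two points with the same stabiliser -/
theorem orbit_map (s₀ : S) (t₀ : T)
    (h : MulAction.stabilizer Γ s₀ = MulAction.stabilizer Γ t₀) :
    ∃ φ : S → T, ∀ g : Γ, φ (g • s₀) = g • t₀ := by
  have key : ∀ s : S, ∃ t : T, ∀ g : Γ, g • s₀ = s → t = g • t₀ := by
    intro s
    by_cases hs : ∃ g : Γ, g • s₀ = s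
    · obtain ⟨g, hg⟩ := hs
      refine ⟨g • t₀, fun g' hg' => ?_⟩
      have h1 : g'⁻¹ * g ∈ MulAction.stabilizer Γ s₀ := by
        rw [MulAction.mem_stabilizer_iff, mul_smul, hg, ← hg', inv_smul_smul]
      rw [h, MulAction.mem_stabilizer_iff, mul_smul] at h1
      rw [← smul_inv_smul g' (g • t₀), h1]
    · exact ⟨t₀, fun g hg => absurd ⟨g, hg⟩ hs⟩
  choose φ hφ using key
  exact ⟨φ, fun g => hφ _ g rfl⟩

omit [Finite Γ] [Finite S] [Finite T] in
/-- the numbers of fixed points of the orbits -/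
theorem fix_orbit (s₀ : S) (t₀ : T)
    (h : MulAction.stabilizer Γ s₀ = MulAction.stabilizer Γ t₀) (H : Subgroup Γ) :
    (fixIn (MulAction.orbit Γ s₀) H).ncard = (fixIn (MulAction.orbit Γ t₀) H).ncard := by
  obtain ⟨φ, hφ⟩ := orbit_map s₀ t₀ h
  obtain ⟨ψ, hψ⟩ := orbit_map t₀ s₀ h.symm
  refine Set.ncard_congr (fun s _ => φ s) ?_ ?_ ?_
  · rintro s ⟨⟨g, rfl⟩, h2⟩
    have e1 : (fun m : Γ => m • s₀) g = g • s₀ := rfl
    rw [e1] at h2 ⊢
    refine ⟨⟨g, (hφ g).symm⟩, fun k hk => ?_⟩
    have h3 := h2 k hk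
    rw [← mul_smul] at h3
    have h4 := hφ (k * g)
    rw [h3, hφ, mul_smul] at h4
    rw [hφ]
    exact h4.symm
  · rintro s s' ⟨⟨g, rfl⟩, -⟩ ⟨⟨g', rfl⟩, -⟩ hs
    have e1 : ∀ g : Γ, (fun m : Γ => m • s₀) g = g • s₀ := fun _ => rfl
    rw [e1, e1] at hs ⊢
    rw [hφ, hφ] at hs
    rw [← hψ, hs, hψ]
  · rintro t ⟨⟨g, rfl⟩, h2⟩
    have e1 : ∀ g : Γ, (fun m : Γ => m • t₀) g = g • t₀ := fun _ => rfl
    rw [e1] at h2 ⊢
    refine ⟨g • s₀, ⟨⟨g, rfl⟩, fun k hk => ?_⟩, hφ g⟩
    have h3 := h2 k hk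
    rw [← mul_smul] at h3
    have h4 := hψ (k * g)
    rw [h3, hψ, mul_smul] at h4
    exact h4.symm

omit [Finite Γ] in
theorem fix_diff (A : Set S) (hA : ∀ (g : Γ), ∀ s ∈ A, g • s ∈ A) (s₀ : S) (hs : s₀ ∈ A)
    (H : Subgroup Γ) : (fixIn (A \ MulAction.orbit Γ s₀) H).ncard +
      (fixIn (MulAction.orbit Γ s₀) H).ncard = (fixIn A H).ncard := by
  rw [← Set.ncard_union_eq _ (Set.toFinite _) (Set.toFinite _)]
  · congr 1
    ext s
    constructor
    · rintro (⟨h1, h2⟩ | ⟨h1, h2⟩)
      · exact ⟨h1.1, h2⟩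
      · obtain ⟨g, rfl⟩ := h1
        exact ⟨hA g s₀ hs, h2⟩
    · rintro ⟨h1, h2⟩
      by_cases h3 : s ∈ MulAction.orbit Γ s₀
      · exact Or.inr ⟨h3, h2⟩
      · exact Or.inl ⟨⟨h1, h3⟩, h2⟩
  · rw [Set.disjoint_left]
    rintro s ⟨h1, -⟩ ⟨h2, -⟩
    exact h1.2 h2

/-- Burnside's theorem for invariant subsets -/
theorem marks_aux [Nonempty T] (n : ℕ) : ∀ (A : Set S) (B : Set T), A.ncard = n →
    (∀ (g : Γ), ∀ s ∈ A, g • s ∈ A) → (∀ (g : Γ), ∀ t ∈ B, g • t ∈ B) →
    (∀ H : Subgroup Γ, (fixIn A H).ncard = (fixIn B H).ncard) →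
    ∃ f : S → T, Set.BijOn f A B ∧ ∀ (g : Γ), ∀ s ∈ A, f (g • s) = g • f s := by
  induction n using Nat.strong_induction_on with
  | _ n ih =>
    intro A B hn hA hB hm
    have hAB : A.ncard = B.ncard := by
      have h1 := hm ⊥
      rwa [fixIn_bot, fixIn_bot] at h1
    rcases A.eq_empty_or_nonempty with rfl | hne
    · rw [Set.ncard_empty] at hAB
      have hB0 : B = ∅ := (Set.ncard_eq_zero (Set.toFinite B)).1 hAB.symm
      exact ⟨fun _ => Classical.arbitrary T, by rw [hB0]; exact Set.bijOn_empty _,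
        fun g s hs => absurd hs (Set.notMem_empty s)⟩
    · have hBne : B.Nonempty := by
        rw [← Set.ncard_pos (Set.toFinite B), ← hAB, Set.ncard_pos (Set.toFinite A)]
        exact hne
      obtain ⟨s₀, hs₀, hs₁⟩ := Set.exists_max_image A
        (fun s => Nat.card (MulAction.stabilizer Γ s)) (Set.toFinite A) hne
      obtain ⟨t₀, ht₀, ht₁⟩ := Set.exists_max_image B
        (fun t => Nat.card (MulAction.stabilizer Γ t)) (Set.toFinite B) hBne
      -- a point of `B` fixed by the stabiliser of `s₀`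
      have hex : ∃ t ∈ B, MulAction.stabilizer Γ s₀ ≤ MulAction.stabilizer Γ t := by
        have h1 : (fixIn A (MulAction.stabilizer Γ s₀)).Nonempty := ⟨s₀, hs₀, fun g hg => hg⟩
        rw [← Set.ncard_pos (Set.toFinite _), hm, Set.ncard_pos (Set.toFinite _)] at h1
        obtain ⟨t, ht, ht'⟩ := h1
        exact ⟨t, ht, fun g hg => ht' g hg⟩
      have hex' : ∃ s ∈ A, MulAction.stabilizer Γ t₀ ≤ MulAction.stabilizer Γ s := by
        have h1 : (fixIn B (MulAction.stabilizer Γ t₀)).Nonempty := ⟨t₀, ht₀, fun g hg => hg⟩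
        rw [← Set.ncard_pos (Set.toFinite _), ← hm, Set.ncard_pos (Set.toFinite _)] at h1
        obtain ⟨t, ht, ht'⟩ := h1
        exact ⟨t, ht, fun g hg => ht' g hg⟩
      obtain ⟨t, ht, hle⟩ := hex
      obtain ⟨s, hs, hle'⟩ := hex'
      have h1 : Nat.card (MulAction.stabilizer Γ t) ≤ Nat.card (MulAction.stabilizer Γ s₀) :=
        (ht₁ t ht).trans ((Nat.card_le_card_of_injective _
          (Subgroup.inclusion_injective hle')).trans (hs₁ s hs))
      have hst : MulAction.stabilizer Γ s₀ = MulAction.stabilizer Γ t :=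
        Subgroup.eq_of_le_of_card_ge hle h1
      obtain ⟨φ, hφ⟩ := orbit_map s₀ t hst
      have hdA : ∀ (g : Γ), ∀ s ∈ A \ MulAction.orbit Γ s₀, g • s ∈ A \ MulAction.orbit Γ s₀ := by
        rintro g s ⟨h2, h3⟩
        exact ⟨hA g s h2, fun h4 => h3 ((smul_orb).1 h4)⟩
      have hdB : ∀ (g : Γ), ∀ s ∈ B \ MulAction.orbit Γ t, g • s ∈ B \ MulAction.orbit Γ t := by
        rintro g s ⟨h2, h3⟩
        exact ⟨hB g s h2, fun h4 => h3 ((smul_orb).1 h4)⟩
      have hlt : (A \ MulAction.orbit Γ s₀).ncard < n := by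
        rw [← hn]
        refine Set.ncard_lt_ncard ⟨Set.sdiff_subset, fun h2 => ?_⟩ (Set.toFinite _)
        exact (h2 hs₀).2 (MulAction.mem_orbit_self s₀)
      obtain ⟨f, hf, hfe⟩ := ih _ hlt (A \ MulAction.orbit Γ s₀) (B \ MulAction.orbit Γ t) rfl
        hdA hdB (by
          intro H
          have e1 := fix_diff A hA s₀ hs₀ H
          have e2 := fix_diff B hB t ht H
          have e3 := fix_orbit s₀ t hst H
          have e4 := hm H
          omega)
      -- the map
      have hφo : ∀ s ∈ MulAction.orbit Γ s₀, φ s ∈ MulAction.orbit Γ t := by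
        rintro s ⟨g, rfl⟩
        exact ⟨g, (hφ g).symm⟩
      refine ⟨fun s => if s ∈ MulAction.orbit Γ s₀ then φ s else f s, ⟨?_, ?_, ?_⟩, ?_⟩
      · intro s hs
        show (if s ∈ MulAction.orbit Γ s₀ then φ s else f s) ∈ B
        split_ifs with h2
        · obtain ⟨g, hg⟩ := hφo s h2
          rw [← hg]
          exact hB g t ht
        · exact (hf.1 ⟨hs, h2⟩).1
      · intro s hs s' hs' hss
        change (if s ∈ MulAction.orbit Γ s₀ then φ s else f s) =
          (if s' ∈ MulAction.orbit Γ s₀ then φ s' else f s') at hss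
        split_ifs at hss with h2 h3 h3
        · obtain ⟨ψ, hψ⟩ := orbit_map t s₀ hst.symm
          obtain ⟨g, rfl⟩ := h2
          obtain ⟨g', rfl⟩ := h3
          have e1 : ∀ g : Γ, (fun m : Γ => m • s₀) g = g • s₀ := fun _ => rfl
          rw [e1, e1] at hss ⊢
          rw [hφ, hφ] at hss
          rw [← hψ, hss, hψ]
        · have h4 := (hf.1 ⟨hs', h3⟩).2
          rw [← hss] at h4
          exact absurd (hφo s h2) h4
        · have h4 := (hf.1 ⟨hs, h2⟩).2
          rw [hss] at h4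
          exact absurd (hφo s' h3) h4
        · exact hf.2.1 ⟨hs, h2⟩ ⟨hs', h3⟩ hss
      · intro b hb
        by_cases h2 : b ∈ MulAction.orbit Γ t
        · obtain ⟨g, rfl⟩ := h2
          refine ⟨g • s₀, hA g s₀ hs₀, ?_⟩
          show (if g • s₀ ∈ MulAction.orbit Γ s₀ then φ (g • s₀) else f (g • s₀)) = _
          rw [if_pos (MulAction.mem_orbit s₀ g), hφ]
        · obtain ⟨a, ha, hab⟩ := hf.2.2 ⟨hb, h2⟩
          refine ⟨a, ha.1, ?_⟩
          show (if a ∈ MulAction.orbit Γ s₀ then φ a else f a) = _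
          rw [if_neg ha.2, hab]
      · intro g s hs
        show (if g • s ∈ MulAction.orbit Γ s₀ then φ (g • s) else f (g • s)) =
          g • (if s ∈ MulAction.orbit Γ s₀ then φ s else f s)
        by_cases h2 : s ∈ MulAction.orbit Γ s₀
        · rw [if_pos ((smul_orb).2 h2), if_pos h2]
          obtain ⟨g', rfl⟩ := h2
          show φ (g • g' • s₀) = g • φ (g' • s₀)
          rw [← mul_smul, hφ, hφ, mul_smul]
        · rw [if_neg (fun h3 => h2 ((smul_orb).1 h3)), if_neg h2]
          exact hfe g s ⟨hs, h2⟩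

/-- **Burnside's theorem on marks.** -/
theorem marks (h : ∀ H : Subgroup Γ, Nat.card {s : S // ∀ g ∈ H, g • s = s} =
    Nat.card {t : T // ∀ g ∈ H, g • t = t}) :
    ∃ e : S ≃ T, ∀ (g : Γ) (s : S), e (g • s) = g • e s := by
  have hm : ∀ H : Subgroup Γ, (fixIn (Set.univ : Set S) H).ncard =
      (fixIn (Set.univ : Set T) H).ncard := by
    intro H
    have e1 : ∀ (U : Type) [MulAction Γ U], Nat.card {s : U // ∀ g ∈ H, g • s = s} =
        (fixIn (Set.univ : Set U) H).ncard := by
      intro U _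
      rw [← Nat.card_coe_set_eq]
      refine Nat.card_congr (Equiv.subtypeEquivRight fun s => ?_)
      simp [fixIn]
    rw [← e1, ← e1]
    exact h H
  by_cases hT : Nonempty T
  · obtain ⟨f, hf, hfe⟩ := marks_aux (Γ := Γ) _ (Set.univ : Set S) (Set.univ : Set T) rfl
      (fun _ _ _ => trivial) (fun _ _ _ => trivial) hm
    refine ⟨Equiv.ofBijective f (Set.bijOn_univ.1 hf), fun g s => hfe g s trivial⟩
  · have hTe : IsEmpty T := not_nonempty_iff.1 hT
    have h1 := hm ⊥
    rw [fixIn_bot, fixIn_bot, Set.ncard_univ, Set.ncard_univ, Nat.card_of_isEmpty (α := T)] at h1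
    have hSe : IsEmpty S := by
      rcases Nat.card_eq_zero.1 h1 with h2 | h2
      · exact h2
      · exact absurd (inferInstance : Finite S) (not_finite_iff_infinite.2 h2)
    exact ⟨Equiv.equivOfIsEmpty S T, fun g s => (hSe.false s).elim⟩

end marks

section cl

variable {Γ : Type} [Group Γ] (G : Subgroup Γ) (W : Type) [MulAction Γ W]

/-- two points are equivalent if they are in the same `G`-orbit -/
def clSetoid : Setoid W where
  r w w' := ∃ g ∈ G, g • w = w'
  iseqv :=
    { refl := fun w => ⟨1, G.one_mem, one_smul _ _⟩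
      symm := by
        rintro w w' ⟨g, hg, rfl⟩
        exact ⟨g⁻¹, G.inv_mem hg, inv_smul_smul _ _⟩
      trans := by
        rintro w w' w'' ⟨g, hg, rfl⟩ ⟨h, hh, rfl⟩
        exact ⟨h * g, G.mul_mem hh hg, mul_smul _ _ _⟩ }

/-- the set of the `G`-orbits on `W` -/
def Cl : Type := Quotient (clSetoid G W)

/-- the `G`-orbit of a point -/
def Cl.mk {W : Type} [MulAction Γ W] (w : W) : Cl G W := Quotient.mk (clSetoid G W) w

theorem mk_eq {w w' : W} : (Cl.mk G w = Cl.mk G w') ↔ ∃ g ∈ G, g • w = w' :=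
  Quotient.eq (r := clSetoid G W)

/-- for a normal subgroup `G` of `Γ` the group `Γ` acts on the set of the `G`-orbits -/
instance instCl [G.Normal] : MulAction Γ (Cl G W) where
  smul g := Quotient.map (fun w => g • w) (by
    rintro w w' ⟨h, hh, rfl⟩
    refine ⟨g * h * g⁻¹, (inferInstance : G.Normal).conj_mem h hh g, ?_⟩
    show (g * h * g⁻¹) • g • w = g • h • w
    rw [← mul_smul, ← mul_smul]
    congr 1
    group)
  one_smul := by
    rintro ⟨w⟩
    exact congrArg (Quotient.mk (clSetoid G W)) (one_smul Γ w)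
  mul_smul := by
    rintro g h ⟨w⟩
    exact congrArg (Quotient.mk (clSetoid G W)) (mul_smul g h w)

theorem smul_mk [G.Normal] (g : Γ) (w : W) : g • (Cl.mk G w) = Cl.mk G (g • w) := rfl

theorem mk_surj (C : Cl G W) : ∃ w, Cl.mk G w = C := Quotient.exists_rep C

instance [Finite W] : Finite (Cl G W) := Quotient.finite _

/-- `G` acts trivially on the set of its orbits -/
theorem smul_cl [G.Normal] (g : Γ) (hg : g ∈ G) (C : Cl G W) : g • C = C := by
  obtain ⟨w, rfl⟩ := mk_surj G W C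
  rw [smul_mk]
  exact ((mk_eq G W).2 ⟨g, hg, rfl⟩).symm

theorem inv_iff [G.Normal] (w : W) :
    (∀ g : Γ, g • (Cl.mk G w) = Cl.mk G w) ↔ G ⊔ MulAction.stabilizer Γ w = ⊤ := by
  constructor
  · intro h
    rw [eq_top_iff]
    intro g _
    have h1 := h g
    rw [smul_mk] at h1
    obtain ⟨k, hk, hkw⟩ := (mk_eq G W).1 h1.symm
    have h2 : g = k * (k⁻¹ * g) := by group
    rw [h2]
    refine Subgroup.mul_mem_sup hk ?_
    rw [MulAction.mem_stabilizer_iff, mul_smul, ← hkw, inv_smul_smul]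
  · intro h g
    have h1 : g ∈ ((G ⊔ MulAction.stabilizer Γ w : Subgroup Γ) : Set Γ) := by
      rw [h]; exact Subgroup.mem_top _
    rw [Subgroup.normal_mul, Set.mem_mul] at h1
    obtain ⟨a, ha, b, hb, rfl⟩ := h1
    rw [mul_smul, smul_mk, MulAction.mem_stabilizer_iff.1 hb]
    exact smul_cl G W a ha _

/-- the number of the invariant classes as a weighted sum over the points -/
theorem card_fixed [Finite Γ] [Finite W] [G.Normal] :
    Nat.card Γ * Nat.card {C : Cl G W // ∀ g : Γ, g • C = C} =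
      ∑ᶠ w : W, if G ⊔ MulAction.stabilizer Γ w = ⊤ then
        Nat.card (MulAction.stabilizer Γ w) else 0 := by
  have : Fintype W := Fintype.ofFinite W
  have : Fintype (Cl G W) := Fintype.ofFinite _
  have : Fintype Γ := Fintype.ofFinite Γ
  rw [finsum_eq_sum_of_fintype]
  rw [← Finset.sum_fiberwise Finset.univ (fun w : W => Cl.mk G w)]
  have h1 : ∀ C : Cl G W, (∑ w ∈ Finset.univ.filter (fun w : W => Cl.mk G w = C),
      if G ⊔ MulAction.stabilizer Γ w = ⊤ then Nat.card (MulAction.stabilizer Γ w) else 0) =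
      if ∀ g : Γ, g • C = C then Nat.card Γ else 0 := by
    intro C
    have h2 : ∀ w ∈ Finset.univ.filter (fun w : W => Cl.mk G w = C),
        (if G ⊔ MulAction.stabilizer Γ w = ⊤ then Nat.card (MulAction.stabilizer Γ w) else 0) =
        if ∀ g : Γ, g • C = C then Nat.card (MulAction.stabilizer Γ w) else 0 := by
      intro w hw
      have h3 : Cl.mk G w = C := (Finset.mem_filter.1 hw).2
      have h4 := inv_iff G W w
      rw [h3] at h4
      by_cases h5 : G ⊔ MulAction.stabilizer Γ w = ⊤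
      · rw [if_pos h5, if_pos (h4.2 h5)]
      · rw [if_neg h5, if_neg fun h6 => h5 (h4.1 h6)]
    rw [Finset.sum_congr rfl h2]
    split_ifs with h5
    · obtain ⟨w₀, hw₀⟩ := mk_surj G W C
      have h6 : Finset.univ.filter (fun w : W => Cl.mk G w = C) =
          (MulAction.orbit Γ w₀).toFinset := by
        ext w
        rw [Finset.mem_filter, Set.mem_toFinset]
        constructor
        · rintro ⟨-, hw⟩
          rw [← hw₀] at hw
          obtain ⟨g, -, hg⟩ := (mk_eq G W).1 hw.symm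
          exact ⟨g, hg⟩
        · rintro ⟨g, rfl⟩
          refine ⟨Finset.mem_univ _, ?_⟩
          have h7 := h5 g
          rw [← hw₀, smul_mk] at h7
          exact h7.trans hw₀
      have h8 : ∀ w ∈ Finset.univ.filter (fun w : W => Cl.mk G w = C),
          Nat.card (MulAction.stabilizer Γ w) = Nat.card (MulAction.stabilizer Γ w₀) := by
        intro w hw
        rw [h6, Set.mem_toFinset] at hw
        have h9 := MulAction.card_orbit_mul_card_stabilizer_eq_card_group Γ w
        have h10 := MulAction.card_orbit_mul_card_stabilizer_eq_card_group Γ w₀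
        have h11 : MulAction.orbit Γ w = MulAction.orbit Γ w₀ := MulAction.orbit_eq_iff.2 hw
        rw [Nat.card_eq_fintype_card, Nat.card_eq_fintype_card]
        have h12 : Fintype.card (MulAction.orbit Γ w) = Fintype.card (MulAction.orbit Γ w₀) := by
          rw [← Nat.card_eq_fintype_card, ← Nat.card_eq_fintype_card, h11]
        rw [h12] at h9
        have h13 : 0 < Fintype.card (MulAction.orbit Γ w₀) :=
          Fintype.card_pos_iff.2 ⟨⟨w₀, MulAction.mem_orbit_self w₀⟩⟩
        exact Nat.eq_of_mul_eq_mul_left h13 (h9.trans h10.symm)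
      rw [Finset.sum_congr rfl h8, Finset.sum_const, smul_eq_mul, h6, Set.toFinset_card,
        Nat.card_eq_fintype_card, MulAction.card_orbit_mul_card_stabilizer_eq_card_group,
        Nat.card_eq_fintype_card]
    · rw [Finset.sum_const_zero]
  rw [Finset.sum_congr rfl fun C _ => h1 C, ← Finset.sum_filter, Finset.sum_const, smul_eq_mul,
    Nat.card_eq_fintype_card (α := {C : Cl G W // ∀ g : Γ, g • C = C}), Fintype.card_subtype,
    mul_comm]

end cl

end Pool.Agent.V7H17.NE
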