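import Pool.Agent.V7H17.NE.Wts
import Pool.Agent.Y63.NV.Final

/-!
# The right-hand side of Navarro's equality as a number of invariant classes of weights
-/

set_option autoImplicit false
set_option linter.unusedSectionVars false

open scoped Classical

noncomputable section

namespace Pool.Agent.V7H17.NE

open Pool.Agent.N85.WM
open Pool.Agent.Y63.NV
open Pool.Agent.Y63.AWC (IsIrreducibleCharacter pSubgroupSetoid normalizer_map irr_comp)
open Pool.Agent.Y286.NV
open Pool.Agent.Helper884.IC (IsIrrChar irr_finite)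

section count

variable {F Γ : Type} [Field F] [Group Γ] [Finite Γ] (G : Subgroup Γ) [G.Normal]

/-- the functional of a weight of `G` -/
def wtG (red : integralClosure ℤ ℂ →+* F) (N : Subgroup G) (χ : N → ℂ) : ZG F G →ₗ[F] F where
  toFun z := centralValue red χ (fun x => z.1 (x : G))
  map_add' a b := by
    unfold centralValue
    rw [← finsum_add_distrib (Set.toFinite _) (Set.toFinite _)]
    refine finsum_congr fun C => ?_
    rw [← add_mul]
    rfl
  map_smul' c a := by
    unfold centralValue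
    rw [RingHom.id_apply, smul_finsum' c (Set.toFinite _)]
    refine finsum_congr fun C => ?_
    rw [smul_eq_mul, ← mul_assoc]
    rfl

/-- the block of an invariant weight is invariant -/
theorem inv_wcv {p : ℕ} (red : integralClosure ℤ ℂ →+* F) {w : Pr G} (hw : IsW p w.1 w.2)
    (h : InvW G w.1 w.2) : IsInvBlock G (fun f : G → F => wcv red w.1 w.2 f) := by
  intro g f f' hf hff
  have h1 : f = fun x => f' (cj G g x) := by
    funext x
    exact (hff x (cj G g x) rfl).symm
  have hf' : IsClassFun f' := by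
    intro k x
    have h2 : ∀ u : G, f' u = f ((cj G g).symm u) := by
      intro u
      rw [h1]
      show f' u = f' (cj G g ((cj G g).symm u))
      rw [(cj G g).apply_symm_apply]
    rw [h2, h2, map_mul, map_mul, map_inv, hf]
  have h2 : g ∈ ((G ⊔ MulAction.stabilizer Γ w : Subgroup Γ) : Set Γ) := by
    rw [(invW_iff G hw).1 h]; exact Subgroup.mem_top _
  rw [Subgroup.normal_mul, Set.mem_mul] at h2
  obtain ⟨a, ha, s, hs, rfl⟩ := h2
  have h3 : f = fun x => f' (cj G s x) := by
    rw [h1]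
    funext x
    rw [cj_mul]
    show f' (cj G a (cj G s x)) = f' (cj G s x)
    have h4 : cj G a (cj G s x) = (⟨a, ha⟩ : G) * cj G s x * (⟨a, ha⟩ : G)⁻¹ := rfl
    rw [h4, hf']
  have h5 := wcv_map (cj G s) red hw f' hf'
  have h6 : mapW (cj G s) w = w := MulAction.mem_stabilizer_iff.1 hs
  rw [h6] at h5
  show wcv red w.1 w.2 f' = wcv red w.1 w.2 f
  rw [h5, h3]

/-- the right-hand side of Navarro's equality, without the condition on defect groups -/
def rhs (p : ℕ) (red : integralClosure ℤ ℂ →+* F) (B : (G → F) → F) : ℕ :=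
  ∑ᶠ c : Quotient (pSubgroupSetoid p Γ),
    if G ⊔ c.out.1 = ⊤ then numDz p red G c.out.1 B else 0

theorem sum_WT (p : ℕ) (red : integralClosure ℤ ℂ →+* F) (B : (G → F) → F)
    [hI : Fact (IsInvBlock G B)] :
    (∑ᶠ Q : Subgroup G, Nat.card (nrm G Q) *
      Nat.card {χ : G → ℂ // IsBW G p red B (Q, χ) ∧ InvW G Q χ}) =
    ∑ᶠ w : WT G p red B, if G ⊔ MulAction.stabilizer Γ w = ⊤ then
        Nat.card (MulAction.stabilizer Γ w) else 0 := by
  have : Fintype (WT G p red B) := Fintype.ofFinite _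
  have : Fintype (Subgroup G) := Fintype.ofFinite _
  rw [finsum_eq_sum_of_fintype, finsum_eq_sum_of_fintype,
    ← Finset.sum_fiberwise Finset.univ (fun w : WT G p red B => w.1.1)]
  refine Finset.sum_congr rfl fun Q _ => ?_
  have hst : ∀ w : WT G p red B, MulAction.stabilizer Γ w = MulAction.stabilizer Γ w.1 := by
    intro w
    ext g
    rw [MulAction.mem_stabilizer_iff, MulAction.mem_stabilizer_iff]
    exact ⟨fun h => congrArg Subtype.val h, fun h => Subtype.ext h⟩
  have h1 : ∀ w ∈ Finset.univ.filter (fun w : WT G p red B => w.1.1 = Q),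
      (if G ⊔ MulAction.stabilizer Γ w = ⊤ then Nat.card (MulAction.stabilizer Γ w) else 0) =
      if InvW G w.1.1 w.1.2 then Nat.card (nrm G Q) else 0 := by
    intro w hw
    have h2 : w.1.1 = Q := (Finset.mem_filter.1 hw).2
    rw [hst]
    by_cases h3 : InvW G w.1.1 w.1.2
    · rw [if_pos ((invW_iff G w.2.1).1 h3), if_pos h3, stab_eq G h3, h2]
    · rw [if_neg (fun h => h3 ((invW_iff G w.2.1).2 h)), if_neg h3]
  rw [Finset.sum_congr rfl h1, ← Finset.sum_filter, Finset.sum_const, smul_eq_mul, mul_comm]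
  congr 1
  rw [Finset.filter_filter, ← Fintype.card_subtype, ← Nat.card_eq_fintype_card]
  refine Nat.card_congr
    { toFun := fun χ => ⟨⟨(Q, χ.1), χ.2.1⟩, rfl, χ.2.2⟩
      invFun := fun w => ⟨w.1.1.2, ?_⟩
      left_inv := fun χ => rfl
      right_inv := ?_ }
  · obtain ⟨⟨⟨Q', χ⟩, hw⟩, h2, h3⟩ := w
    change Q' = Q at h2
    subst h2
    exact ⟨hw, h3⟩
  · rintro ⟨⟨⟨Q', χ⟩, hw⟩, h2, h3⟩
    change Q' = Q at h2
    subst h2
    rfl

/-- **The right-hand side of Navarro's equality is the number of the `Γ`-invariant `G`-classes of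
weights of `B`.** -/
theorem countA (p : ℕ) [Fact p.Prime] [IsAlgClosed F] [CharP F p]
    (red : integralClosure ℤ ℂ →+* F) (hG : IsPGroup p (Γ ⧸ G)) (B : (G → F) → F)
    (hB : IsBlock B) [hI : Fact (IsInvBlock G B)] :
    rhs G p red B = Nat.card {C : Cl G (WT G p red B) // ∀ g : Γ, g • C = C} := by
  have : Fintype Γ := Fintype.ofFinite Γ
  have hInf : Infinite F := inferInstance
  have hfinχ : ∀ Q : Subgroup Γ, Finite {χ : Subgroup.normalizer (Q : Set Γ) → ℂ //
      IsIrreducibleCharacter χ} := by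
    intro Q
    have : Fintype (Subgroup.normalizer (Q : Set Γ)) := Fintype.ofFinite _
    exact (irr_finite (G := Subgroup.normalizer (Q : Set Γ))).to_subtype
  have hfinχ' : ∀ Q : Subgroup G, Finite {χ : Subgroup.normalizer (Q : Set G) → ℂ //
      IsIrreducibleCharacter χ} := by
    intro Q
    have : Fintype (Subgroup.normalizer (Q : Set G)) := Fintype.ofFinite _
    exact (irr_finite (G := Subgroup.normalizer (Q : Set G))).to_subtype
  let I : Type :=
    (Σ Q : Subgroup Γ, {χ : Subgroup.normalizer (Q : Set Γ) → ℂ // IsIrreducibleCharacter χ}) ⊕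
    (Σ Q : Subgroup G, {χ : Subgroup.normalizer (Q : Set G) → ℂ // IsIrreducibleCharacter χ})
  let μ : I → (ZG F G →ₗ[F] F) := fun i =>
    Sum.elim (fun q => wtF G red _ q.2.1) (fun q => wtG G red _ q.2.1) i
  obtain ⟨z, hz⟩ := exists_sep μ (blkF hB)
  set c : F := blkF hB z with hc
  -- the left side
  set f : Subgroup Γ → ℕ := fun Q => if G ⊔ Q = ⊤ then numDz p red G Q B else 0 with hf
  have hfc : ∀ (g : Γ) (Q : Subgroup Γ), f (Q.map (MulAut.conj g).toMonoidHom) = f Q := by
    intro g Q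
    simp only [hf]
    rw [numDz_conj, propext (sup_conj G g Q)]
  have hNw : ∀ Q : Subgroup Γ, Nw p red (Q.subgroupOf (⊤ ⊓ Subgroup.normalizer (Q : Set Γ)))
      (fun x => z.1 x) c = numDz p red G Q B := by
    intro Q
    rw [top_inf_eq]
    unfold Nw numDz
    refine Nat.card_congr (Equiv.subtypeEquivRight fun χ => ?_)
    constructor
    · rintro ⟨hw, hv⟩
      refine ⟨hw, fun z' hz' => ?_⟩
      have h5 : wtF G red _ χ = blkF hB := hz (Sum.inl ⟨Q, χ, hw.irr⟩) hv
      exact LinearMap.congr_fun h5 (⟨z', hz'⟩ : ZG F G)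
    · rintro ⟨hw, hv⟩
      exact ⟨hw, hv z.1 z.2⟩
  have hW : Wsum p red G ⊤ z.1 c = (Nat.card Γ : ℤ) * (rhs G p red B : ℤ) := by
    unfold rhs
    change _ = (Nat.card Γ : ℤ) *
      ((∑ᶠ c : Quotient (pSubgroupSetoid p Γ), f c.out.1 : ℕ) : ℤ)
    rw [← Nat.cast_mul, orbit_weights p f hfc]
    have : Fintype {Q : Subgroup Γ // IsPGroup p Q} := Fintype.ofFinite _
    have : Fintype (Subgroup Γ) := Fintype.ofFinite _
    unfold Wsum
    rw [finsum_eq_sum_of_fintype, finsum_eq_sum_of_fintype, Nat.cast_sum]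
    have h5 : ∀ Q : Subgroup Γ, (if IsPGroup p Q ∧ Q ≤ (⊤ : Subgroup Γ) ∧ G ⊔ Q = ⊤ then
        (Nat.card ↥((⊤ : Subgroup Γ) ⊓ Subgroup.normalizer (Q : Set Γ)) : ℤ) *
        Nw p red (Q.subgroupOf (⊤ ⊓ Subgroup.normalizer (Q : Set Γ))) (fun x => z.1 x) c else 0)
        = if IsPGroup p Q then ((Nat.card (Subgroup.normalizer (Q : Set Γ)) * f Q : ℕ) : ℤ)
          else 0 := by
      intro Q
      rw [hNw]
      have e2 : Nat.card ↥((⊤ : Subgroup Γ) ⊓ Subgroup.normalizer (Q : Set Γ)) =
          Nat.card (Subgroup.normalizer (Q : Set Γ)) := by rw [top_inf_eq]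
      rw [e2]
      by_cases hQ : IsPGroup p Q
      · by_cases hGQ : G ⊔ Q = ⊤
        · rw [if_pos ⟨hQ, le_top, hGQ⟩, if_pos hQ]
          simp only [hf]
          rw [if_pos hGQ, Nat.cast_mul]
        · rw [if_neg (fun h => hGQ h.2.2), if_pos hQ]
          simp only [hf]
          rw [if_neg hGQ, mul_zero, Nat.cast_zero]
      · rw [if_neg (fun h => hQ h.1), if_neg hQ]
    rw [Finset.sum_congr rfl fun Q _ => h5 Q, ← Finset.sum_filter]
    exact Finset.sum_subtype (p := fun Q : Subgroup Γ => IsPGroup p Q)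
      (Finset.univ.filter fun Q : Subgroup Γ => IsPGroup p Q) (by simp)
      (fun Q => ((Nat.card (Subgroup.normalizer (Q : Set Γ)) * f Q : ℕ) : ℤ))
  -- the right side
  rw [covP red G z.1 c z.2 hG] at hW
  have hloc : ∀ Q : Subgroup G, Nat.card {χ : G → ℂ // IsW p Q χ ∧
      wcv red Q χ (fun x : G => z.1 x) = c ∧ InvW G Q χ} =
      Nat.card {χ : G → ℂ // IsBW G p red B (Q, χ) ∧ InvW G Q χ} := by
    intro Q
    refine Nat.card_congr (Equiv.subtypeEquivRight fun χ => ?_)
    constructor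
    · rintro ⟨h1, h2, h3⟩
      refine ⟨⟨h1, ?_⟩, h3⟩
      have h5 : wtG G red _ (fun x : Subgroup.normalizer (Q : Set G) => χ x) = blkF hB :=
        hz (Sum.inr ⟨Q, fun x => χ x, h1.wt.irr⟩) h2
      have h6 : IsBlock (fun f : G → F => wcv red Q χ f) :=
        wblk' p F red G Q (fun x => χ x) h1.pg h1.wt
      have h7 := inv_wcv G red (w := (Q, χ)) h1 h3
      exact Pool.Agent.Y405.NV.rinj p F Γ G hG (fun f : G → F => wcv red Q χ f) B h6 hB h7 hI.out
        (fun z' hz' => LinearMap.congr_fun h5 (⟨z', hz'⟩ : ZG F G))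
    · rintro ⟨⟨h1, h2⟩, h3⟩
      exact ⟨h1, h2 _ (res_classFun z.2 G), h3⟩
  rw [finsum_congr fun Q => by rw [hloc Q], sum_WT, ← card_fixed] at hW
  have hpos : (Nat.card Γ : ℤ) ≠ 0 := by exact_mod_cast Nat.card_pos.ne'
  rw [Nat.cast_mul] at hW
  have h6 := mul_left_cancel₀ hpos hW
  exact_mod_cast h6.symm

end count

end Pool.Agent.V7H17.NE
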