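import Pool.Agent.V7H17.NE.Sto

/-!
# The numbers of stable orbits: reduction to elementary abelian quotients of order at most `p ^ 2`
-/

set_option autoImplicit false
set_option linter.unusedSectionVars false

open scoped Classical BigOperators

noncomputable section

namespace Pool.Agent.V7H17.NE

attribute [local instance] Pool.Agent.Y487.NV.fsubL

section count

variable {p : ℕ} [hpf : Fact p.Prime]

/-- linear forms -/
theorem dual_count (V : Type) [AddCommGroup V] [Module (ZMod p) V] [Finite V] (l : V)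
    (hl : l ≠ 0) : Nat.card V ≤ p * Nat.card {φ : Module.Dual (ZMod p) V // φ l = 1} := by
  have e : V ≃ₗ[ZMod p] Module.Dual (ZMod p) V := (Module.finBasis (ZMod p) V).toDualEquiv
  have hb : Nat.card V = Nat.card (Module.Dual (ZMod p) V) := Nat.card_congr e.toEquiv
  have hfin : Finite (Module.Dual (ZMod p) V) := Finite.of_equiv V e.toEquiv
  obtain ⟨φ₀, h0⟩ : ∃ φ₀ : Module.Dual (ZMod p) V, φ₀ l = 1 := by
    have h1 : ¬ ∀ φ : Module.Dual (ZMod p) V, φ l = 0 := fun h =>
      hl ((Module.forall_dual_apply_eq_zero_iff (ZMod p) l).1 h)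
    push Not at h1
    obtain ⟨φ, hφ⟩ := h1
    exact ⟨(φ l)⁻¹ • φ, by rw [LinearMap.smul_apply, smul_eq_mul, inv_mul_cancel₀ hφ]⟩
  rw [hb]
  have h2 : Nat.card (Module.Dual (ZMod p) V) ≤
      Nat.card (ZMod p × {φ : Module.Dual (ZMod p) V // φ l = 1}) := by
    refine Nat.card_le_card_of_injective (fun ψ => (ψ l, ⟨ψ - (ψ l - 1) • φ₀, by
      rw [LinearMap.sub_apply, LinearMap.smul_apply, h0, smul_eq_mul, mul_one, sub_sub_cancel]⟩)) ?_
    intro ψ ψ' h
    have h3 := congrArg Prod.fst h
    have h4 := congrArg Subtype.val (congrArg Prod.snd h)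
    simp only at h3 h4
    rw [h3] at h4
    exact sub_left_injective h4
  rwa [Nat.card_prod, Nat.card_zmod] at h2

variable {E : Type} [Group E] [Finite E]

/-- the subgroups of index `p` which contain `N` and do not contain `Δ` -/
def HH (p : ℕ) (N Δ : Subgroup E) : Finset (Subgroup E) :=
  Finset.univ.filter fun H => N ≤ H ∧ H.index = p ∧ ¬ Δ ≤ H

theorem mem_HH {N Δ H : Subgroup E} : H ∈ HH p N Δ ↔ N ≤ H ∧ H.index = p ∧ ¬ Δ ≤ H := by
  unfold HH
  rw [Finset.mem_filter]
  exact ⟨fun h => h.2, fun h => ⟨Finset.mem_univ _, h⟩⟩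

theorem norm_of {N : Subgroup E} (hab : ∀ x y : E, x * y * x⁻¹ * y⁻¹ ∈ N) {H : Subgroup E}
    (hH : N ≤ H) : H.Normal := by
  refine ⟨fun n hn g => ?_⟩
  have h1 := H.mul_mem (hH (hab g n)) hn
  have h2 : g * n * g⁻¹ * n⁻¹ * n = g * n * g⁻¹ := by group
  rwa [h2] at h1

theorem countB_aux (N Δ : Subgroup E) (V : Type) [AddCommGroup V] [Module (ZMod p) V] [Finite V]
    (π : E → V) (hπ : ∀ x y, π (x * y) = π x + π y) (hs : Function.Surjective π)
    (hk : ∀ x, π x = 0 ↔ x ∈ N) (hlt : ¬ Δ ≤ N) (hi : p ^ 3 ≤ Nat.card V) :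
    p < (HH p N Δ).card := by
  have hpr : p.Prime := Fact.out
  obtain ⟨l, hl, hlN⟩ := Set.not_subset.1 hlt
  have hl0 : π l ≠ 0 := fun h => hlN ((hk l).1 h)
  have h1 := dual_count (p := p) V (π l) hl0
  have hπ1 : π 1 = 0 := (hk 1).2 N.one_mem
  have hπp : ∀ (x : E) (k : ℕ), π (x ^ k) = k • π x := by
    intro x k
    induction k with
    | zero => rw [pow_zero, zero_smul, hπ1]
    | succ k ih => rw [pow_succ, hπ, ih, succ_nsmul]
  have hπi : ∀ x : E, π x⁻¹ = - π x := by
    intro x
    rw [eq_neg_iff_add_eq_zero, ← hπ, inv_mul_cancel, hπ1]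
  let f : Module.Dual (ZMod p) V → E →* Multiplicative (ZMod p) := fun φ =>
    { toFun := fun x => Multiplicative.ofAdd (φ (π x))
      map_one' := by
        rw [hπ1, map_zero]
        rfl
      map_mul' := fun x y => by
        rw [hπ, map_add]
        rfl }
  have hf : ∀ φ x, f φ x = 1 ↔ φ (π x) = 0 := fun φ x => Iff.rfl
  have hker : ∀ φ : Module.Dual (ZMod p) V, φ (π l) = 1 → (f φ).ker ∈ HH p N Δ := by
    intro φ hφ
    rw [mem_HH]
    refine ⟨fun x hx => ?_, ?_, fun h => ?_⟩
    · rw [MonoidHom.mem_ker, hf, (hk x).2 hx]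
      exact map_zero φ
    · have hs : Function.Surjective (f φ) := by
        intro t
        refine ⟨l ^ (Multiplicative.toAdd t).val, ?_⟩
        rw [map_pow]
        show Multiplicative.ofAdd (φ (π l)) ^ _ = t
        rw [hφ, ← ofAdd_nsmul, nsmul_eq_mul, mul_one, ZMod.natCast_val, ZMod.cast_id]
        rfl
      rw [Subgroup.index_ker, MonoidHom.range_eq_top.2 hs, Subgroup.card_top]
      exact Nat.card_zmod p
    · have h3 := h hl
      rw [MonoidHom.mem_ker, hf, hφ] at h3
      exact one_ne_zero h3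
  have h3 : Nat.card {φ : Module.Dual (ZMod p) V // φ (π l) = 1} ≤
      Nat.card {H // H ∈ HH p N Δ} := by
    refine Nat.card_le_card_of_injective (fun φ => ⟨(f φ.1).ker, hker φ.1 φ.2⟩) ?_
    intro φ ψ h
    have h4 : (f φ.1).ker = (f ψ.1).ker := congrArg Subtype.val h
    apply Subtype.ext
    ext v
    obtain ⟨x, rfl⟩ := hs v
    set k : ℕ := (φ.1 (π x)).val with hk
    have hk' : ((k : ℕ) : ZMod p) = φ.1 (π x) := by
      rw [hk, ZMod.natCast_val, ZMod.cast_id]
    have h5 : ∀ θ : Module.Dual (ZMod p) V, θ (π l) = 1 →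
        (x * (l ^ k)⁻¹ ∈ (f θ).ker ↔ θ (π x) = (k : ZMod p)) := by
      intro θ hθ
      rw [MonoidHom.mem_ker, hf, hπ, hπi, hπp, map_add, map_neg, map_nsmul, hθ,
        nsmul_eq_mul, mul_one, ← sub_eq_add_neg, sub_eq_zero]
    have h6 := (h5 φ.1 φ.2).2 hk'.symm
    rw [h4, h5 ψ.1 ψ.2, hk'] at h6
    exact h6.symm
  rw [Nat.card_eq_fintype_card (α := {H // H ∈ HH p N Δ}), Fintype.card_coe] at h3
  have hp2 : 2 ≤ p := hpr.two_le
  have h4 : p * (p * p) ≤ p * (HH p N Δ).card := by
    calc p * (p * p) = p ^ 3 := by ring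
      _ ≤ Nat.card V := hi
      _ ≤ _ := h1
      _ ≤ _ := Nat.mul_le_mul_left p h3
  have h5 := Nat.le_of_mul_le_mul_left h4 hpr.pos
  nlinarith

theorem countB (N Δ : Subgroup E) [N.Normal] (hab : ∀ x y : E, x * y * x⁻¹ * y⁻¹ ∈ N)
    (hpow : ∀ x : E, x ^ p ∈ N) (hlt : ¬ Δ ≤ N) (hi : p ^ 3 ≤ N.index) :
    p < (HH p N Δ).card := by
  have hcomm : ∀ a b : E ⧸ N, a * b = b * a := by
    intro a b
    obtain ⟨x, rfl⟩ := QuotientGroup.mk_surjective a
    obtain ⟨y, rfl⟩ := QuotientGroup.mk_surjective b
    rw [← QuotientGroup.mk_mul, ← QuotientGroup.mk_mul, QuotientGroup.eq]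
    have h1 := hab y⁻¹ x⁻¹
    have h2 : (x * y)⁻¹ * (y * x) = y⁻¹ * x⁻¹ * y⁻¹⁻¹ * x⁻¹⁻¹ := by group
    rwa [h2]
  let _ : CommGroup (E ⧸ N) := { (inferInstance : Group (E ⧸ N)) with mul_comm := hcomm }
  have hz : ∀ x : Additive (E ⧸ N), p • x = 0 := by
    intro x
    obtain ⟨y, hy⟩ := QuotientGroup.mk_surjective x.toMul
    have h1 : x = Additive.ofMul (y : E ⧸ N) := by rw [hy]; rfl
    rw [h1, ← ofMul_pow, ← QuotientGroup.mk_pow, (QuotientGroup.eq_one_iff (y ^ p)).2 (hpow y)]
    rfl
  let _ : Module (ZMod p) (Additive (E ⧸ N)) := AddCommGroup.zmodModule hz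
  have hfin : Finite (Additive (E ⧸ N)) := inferInstanceAs (Finite (E ⧸ N))
  exact countB_aux N Δ (Additive (E ⧸ N)) (fun x => Additive.ofMul (x : E ⧸ N))
    (fun x y => rfl) (fun v => by
      obtain ⟨y, hy⟩ := QuotientGroup.mk_surjective v.toMul
      exact ⟨y, congrArg Additive.ofMul hy⟩) (fun x => QuotientGroup.eq_one_iff x) hlt hi

/-- **The identity for a subgroup of order `p` of the elementary abelian quotient.** -/
theorem stepB (N Δ : Subgroup E) [N.Normal] (hN : N ≤ Δ) (hi : N.relIndex Δ = p)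
    (hab : ∀ x y : E, x * y * x⁻¹ * y⁻¹ ∈ N) (S : Type) [Finite S] [MulAction E S] :
    p * numStable S Δ ⊤ + (HH p N Δ).card * numStable S N ⊤ =
      p * numStable S N ⊤ + ∑ H ∈ HH p N Δ, numStable S N H := by
  have hpr : p.Prime := Fact.out
  have hΔ : Δ.Normal := norm_of hab hN
  have : Fintype (Cl N S) := Fintype.ofFinite _
  have hst : ∀ y : Cl N S, N ≤ MulAction.stabilizer E y := fun y g hg => smul_cl N S g hg y
  set a : ℕ := numStable S N ⊤ with ha
  set b : ℕ := Nat.card {y : Cl N S // MulAction.stabilizer E y ∈ HH p N Δ} with hb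
  have ha' : a = Nat.card {y : Cl N S // MulAction.stabilizer E y = ⊤} := by
    rw [ha, so_top]
    refine Nat.card_congr (Equiv.subtypeEquivRight fun y => ?_)
    rw [eq_top_iff]
    exact ⟨fun h g _ => h g, fun h g => h (Subgroup.mem_top g)⟩
  have h1 : p * numStable S Δ ⊤ = p * a + b := by
    have e1 := so_sum (Cl N S) Δ
    rw [so_cl N hN, finsum_eq_sum_of_fintype] at e1
    have e2 : ∀ y : Cl N S, p * (if Δ ⊔ MulAction.stabilizer E y = ⊤ then
        Nat.card (MulAction.stabilizer E y) else 0) =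
        Nat.card E * (p * (if MulAction.stabilizer E y = ⊤ then 1 else 0) +
          if MulAction.stabilizer E y ∈ HH p N Δ then 1 else 0) := by
      intro y
      by_cases h2 : MulAction.stabilizer E y = ⊤
      · have h3 : ¬ MulAction.stabilizer E y ∈ HH p N Δ := by
          rw [mem_HH]
          rintro ⟨-, h4, -⟩
          rw [h2, Subgroup.index_top] at h4
          exact hpr.one_lt.ne h4
        rw [if_neg h3, if_pos h2, if_pos (by rw [h2]; exact sup_top_eq _), h2,
          Subgroup.card_top]
        ring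
      · rw [if_neg h2]
        by_cases h3 : MulAction.stabilizer E y ∈ HH p N Δ
        · rw [if_pos h3]
          rw [mem_HH] at h3
          have h4 : (MulAction.stabilizer E y).Normal := norm_of hab (hst y)
          have h5 := Pool.Agent.Y487.NV.sup_eq_top (MulAction.stabilizer E y) hpr h3.2.1 Δ h3.2.2
          rw [sup_comm] at h5
          rw [if_pos h5]
          have h6 := (MulAction.stabilizer E y).card_mul_index
          rw [h3.2.1] at h6
          rw [← h6]
          ring
        · rw [if_neg h3, if_neg]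
          · ring
          · intro h4
            apply h3
            rw [mem_HH]
            have h5 : ¬ Δ ≤ MulAction.stabilizer E y := by
              intro h6
              rw [sup_eq_right.2 h6] at h4
              exact h2 h4
            refine ⟨hst y, ?_, h5⟩
            have h7 : (MulAction.stabilizer E y).Normal := norm_of hab (hst y)
            have h8 : (MulAction.stabilizer E y).relIndex Δ =
                (MulAction.stabilizer E y).index := by
              have h9 := Subgroup.relIndex_sup_left (K := MulAction.stabilizer E y) (H := Δ)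
              rw [sup_comm, h4, Subgroup.relIndex_top_right] at h9
              exact h9.symm
            have h10 : (MulAction.stabilizer E y).relIndex Δ ∣ p := by
              rw [← hi]
              exact Subgroup.relIndex_dvd_of_le_left Δ (hst y)
            rcases (Nat.dvd_prime hpr).1 h10 with h11 | h11
            · exact absurd (Subgroup.relIndex_eq_one.1 h11) h5
            · rw [← h8, h11]
    have e3 : Nat.card E * (p * numStable S Δ ⊤) = Nat.card E * (p * a + b) := by
      calc Nat.card E * (p * numStable S Δ ⊤) = p * (Nat.card E * numStable S Δ ⊤) := by ring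
        _ = _ := by
          rw [e1, Finset.mul_sum, Finset.sum_congr rfl fun y _ => e2 y, ← Finset.mul_sum,
            Finset.sum_add_distrib, ← Finset.mul_sum, ← Finset.card_filter, ← Finset.card_filter,
            ha', hb, Nat.card_eq_fintype_card (α := {y : Cl N S // MulAction.stabilizer E y = ⊤}),
            Nat.card_eq_fintype_card (α := {y : Cl N S // MulAction.stabilizer E y ∈ HH p N Δ}),
            Fintype.card_subtype, Fintype.card_subtype]
    exact Nat.eq_of_mul_eq_mul_left Nat.card_pos e3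
  have h2 : ∑ H ∈ HH p N Δ, numStable S N H = (HH p N Δ).card * a + b := by
    have e1 : ∀ H ∈ HH p N Δ, numStable S N H = a + Nat.card {y : Cl N S //
        MulAction.stabilizer E y = H} := by
      intro H hH
      rw [mem_HH] at hH
      have h4 : H.Normal := norm_of hab hH.1
      have hmax : ∀ y : Cl N S, H ≤ MulAction.stabilizer E y ↔
          MulAction.stabilizer E y = ⊤ ∨ MulAction.stabilizer E y = H := by
        intro y
        constructor
        · intro h5
          by_cases h6 : MulAction.stabilizer E y ≤ H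
          · exact Or.inr (le_antisymm h6 h5)
          · left
            have h7 := Pool.Agent.Y487.NV.sup_eq_top H hpr hH.2.1 _ h6
            rwa [sup_eq_right.2 h5] at h7
        · rintro (h5 | h5)
          · rw [h5]
            exact le_top
          · rw [h5]
      rw [so_fx, ha']
      unfold fx
      rw [Nat.card_eq_fintype_card, Nat.card_eq_fintype_card, Nat.card_eq_fintype_card,
        Fintype.card_subtype, Fintype.card_subtype, Fintype.card_subtype,
        ← Finset.card_union_of_disjoint]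
      · congr 1
        ext y
        rw [Finset.mem_union, Finset.mem_filter, Finset.mem_filter, Finset.mem_filter]
        simp only [Finset.mem_univ, true_and]
        exact hmax y
      · rw [Finset.disjoint_left]
        intro y h5 h6
        rw [Finset.mem_filter] at h5 h6
        have h7 := hH.2.1
        rw [← h6.2, h5.2, Subgroup.index_top] at h7
        exact hpr.one_lt.ne h7
    rw [Finset.sum_congr rfl e1, Finset.sum_add_distrib, Finset.sum_const, smul_eq_mul, hb,
      ← fib_card (fun y : Cl N S => MulAction.stabilizer E y) (fun H => H ∈ HH p N Δ),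
      ← Finset.sum_filter]
    congr 1
    refine Finset.sum_congr ?_ fun _ _ => rfl
    ext H
    simp
  rw [h1, h2]
  ring

/-- the existence of the subgroup of order `p` -/
theorem exists_line (N : Subgroup E) [N.Normal] (hp : IsPGroup p (E ⧸ N)) (hne : N ≠ ⊤) :
    ∃ Δ : Subgroup E, N ≤ Δ ∧ N.relIndex Δ = p := by
  have hpr : p.Prime := Fact.out
  have h1 : p ∣ Nat.card (E ⧸ N) := by
    obtain ⟨k, hk⟩ := IsPGroup.iff_card.1 hp
    rw [hk]
    refine dvd_pow_self p ?_
    rintro rfl
    apply hne
    have h2 : N.index = 1 := hk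
    exact Subgroup.index_eq_one.1 h2
  obtain ⟨x, hx⟩ := exists_prime_orderOf_dvd_card' p h1
  refine ⟨(Subgroup.zpowers x).comap (QuotientGroup.mk' N), ?_, ?_⟩
  · intro y hy
    rw [Subgroup.mem_comap]
    have h2 : QuotientGroup.mk' N y = 1 := (QuotientGroup.eq_one_iff y).2 hy
    rw [h2]
    exact Subgroup.one_mem _
  · have h2 : N ≤ (Subgroup.zpowers x).comap (QuotientGroup.mk' N) := by
      intro y hy
      rw [Subgroup.mem_comap]
      have h2 : QuotientGroup.mk' N y = 1 := (QuotientGroup.eq_one_iff y).2 hy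
      rw [h2]
      exact Subgroup.one_mem _
    have h3 := Subgroup.relIndex_mul_index h2
    rw [Subgroup.index_comap_of_surjective _ (QuotientGroup.mk'_surjective N)] at h3
    have h4 := (Subgroup.zpowers x).card_mul_index
    rw [Nat.card_zpowers, hx] at h4
    have h5 : N.index = Nat.card (E ⧸ N) := rfl
    rw [h5, ← h4] at h3
    exact Nat.eq_of_mul_eq_mul_right (Nat.pos_of_ne_zero Subgroup.index_ne_zero_of_finite) h3

end count

section fr

variable {E : Type} [Group E] [Finite E] (p : ℕ) [hpf : Fact p.Prime]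

/-- the intersection of the normal subgroups of index `p` which contain `N` -/
def Fr (N : Subgroup E) : Subgroup E := sInf {M | M.Normal ∧ N ≤ M ∧ M.index = p}

theorem fr_le (N : Subgroup E) : N ≤ Fr p N := le_sInf fun _ hM => hM.2.1

instance fr_normal (N : Subgroup E) : (Fr p N).Normal := by
  refine ⟨fun n hn g => ?_⟩
  unfold Fr at hn ⊢
  rw [Subgroup.mem_sInf] at hn ⊢
  intro M hM
  have h1 := hM.1
  exact h1.conj_mem n (hn M hM) g

theorem fr_frat (N : Subgroup E) [N.Normal] (hp : IsPGroup p (E ⧸ N)) (H : Subgroup E)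
    (hH : N ≤ H) (h : H ⊔ Fr p N = ⊤) : H = ⊤ := by
  have hpr : p.Prime := Fact.out
  by_contra hne
  obtain ⟨M, hMn, hHM, hM⟩ := exists_idx N hp H hH hne
  have h1 : Fr p N ≤ M := sInf_le ⟨hMn, hH.trans hHM, hM⟩
  have h2 : M.index = p := hM
  have h3 : M = ⊤ := by
    rw [eq_top_iff, ← h]
    exact sup_le hHM h1
  rw [h3, Subgroup.index_top] at h2
  exact hpr.one_lt.ne h2

theorem fr_pow (N : Subgroup E) (x : E) : x ^ p ∈ Fr p N := by
  unfold Fr
  rw [Subgroup.mem_sInf]
  intro M hM
  have h1 := hM.1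
  rw [← QuotientGroup.eq_one_iff, QuotientGroup.mk_pow]
  have h2 : Nat.card (E ⧸ M) = p := hM.2.2
  rw [← h2]
  exact pow_card_eq_one'

theorem fr_comm (N : Subgroup E) (x y : E) : x * y * x⁻¹ * y⁻¹ ∈ Fr p N := by
  have hpr : p.Prime := Fact.out
  unfold Fr
  rw [Subgroup.mem_sInf]
  intro M hM
  have h1 := hM.1
  have h2 : Nat.card (E ⧸ M) = p := hM.2.2
  have h3 : IsCyclic (E ⧸ M) := isCyclic_of_prime_card h2
  have h4 := (IsCyclic.commGroup (α := E ⧸ M)).mul_comm (x : E ⧸ M) (y : E ⧸ M)
  rw [← QuotientGroup.eq_one_iff]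
  have h5 : ((x * y * x⁻¹ * y⁻¹ : E) : E ⧸ M) = (x : E ⧸ M) * (y : E ⧸ M) *
    (x : E ⧸ M)⁻¹ * (y : E ⧸ M)⁻¹ := rfl
  have h6 : (x : E ⧸ M) * (y : E ⧸ M) = (y : E ⧸ M) * (x : E ⧸ M) := h4
  rw [h5, h6]
  group

end fr

section main

variable {Γ : Type} [Group Γ] [Finite Γ] {p : ℕ} [hpf : Fact p.Prime]

theorem pq_of_le {G N : Subgroup Γ} [G.Normal] [N.Normal] (hG : IsPGroup p (Γ ⧸ G))
    (hle : G ≤ N) : IsPGroup p (Γ ⧸ N) := by
  intro y
  obtain ⟨x, rfl⟩ := QuotientGroup.mk_surjective y
  obtain ⟨k, hk⟩ := hG (x : Γ ⧸ G)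
  refine ⟨k, ?_⟩
  rw [← QuotientGroup.mk_pow, QuotientGroup.eq_one_iff] at hk ⊢
  exact hle hk

theorem pq_rel {G Δ D : Subgroup Γ} [G.Normal] (hG : IsPGroup p (Γ ⧸ G)) (hle : G ≤ Δ)
    (hn : (Δ.subgroupOf D).Normal) : IsPGroup p (D ⧸ Δ.subgroupOf D) :=
  pq_of_le (pq_mid G hG D) (fun _ hx => hle hx)

/-- **Reduction to elementary abelian quotients of order at most `p ^ 2`.** -/
theorem comb (G : Subgroup Γ) [G.Normal] (hG : IsPGroup p (Γ ⧸ G)) (S T : Type) [Finite S]
    [Finite T] [MulAction Γ S] [MulAction Γ T]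
    (h : ∀ Δ D : Subgroup Γ, G ≤ Δ → Δ ≤ D → (Δ.subgroupOf D).Normal →
      (∀ x ∈ D, x ^ p ∈ Δ) → (∀ x ∈ D, ∀ y ∈ D, x * y * x⁻¹ * y⁻¹ ∈ Δ) →
      Δ.relIndex D ∣ p ^ 2 → numStable S Δ D = numStable T Δ D) :
    ∀ (n : ℕ) (Δ D : Subgroup Γ), Δ.relIndex D = n → G ≤ Δ → Δ ≤ D →
      (Δ.subgroupOf D).Normal → numStable S Δ D = numStable T Δ D := by
  have hpr : p.Prime := Fact.out
  intro n
  induction n using Nat.strong_induction_on with
  | _ n ih =>
    intro Δ D hn hGΔ hΔD hnorm
    have hpq : IsPGroup p (D ⧸ Δ.subgroupOf D) := pq_rel hG hGΔ hnorm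
    have htop : (⊤ : Subgroup D) = D.subgroupOf D := (Subgroup.subgroupOf_self D).symm
    have hpos : 0 < n := by
      rw [← hn]
      exact Nat.pos_of_ne_zero Subgroup.index_ne_zero_of_finite
    by_cases hfr : Fr p (Δ.subgroupOf D) = Δ.subgroupOf D
    · have hpow : ∀ x : D, x ^ p ∈ Δ.subgroupOf D := fun x => by
        have h1 := fr_pow p (Δ.subgroupOf D) x
        rwa [hfr] at h1
      have hab : ∀ x y : D, x * y * x⁻¹ * y⁻¹ ∈ Δ.subgroupOf D := fun x y => by
        have h1 := fr_comm p (Δ.subgroupOf D) x y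
        rwa [hfr] at h1
      obtain ⟨k, hk⟩ := IsPGroup.iff_card.1 hpq
      have hk' : (Δ.subgroupOf D).index = p ^ k := hk
      by_cases hk2 : k ≤ 2
      · refine h Δ D hGΔ hΔD hnorm (fun x hx => hpow ⟨x, hx⟩)
          (fun x hx y hy => hab ⟨x, hx⟩ ⟨y, hy⟩) ?_
        show (Δ.subgroupOf D).index ∣ p ^ 2
        rw [hk']
        exact pow_dvd_pow p hk2
      · have hne : Δ.subgroupOf D ≠ ⊤ := by
          intro h1
          rw [h1, Subgroup.index_top] at hk'
          have h2 : k = 0 := by
            by_contra h3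
            exact (Nat.one_lt_pow h3 hpr.one_lt).ne hk'
          omega
        obtain ⟨Λ, hΛ, hΛi⟩ := exists_line (Δ.subgroupOf D) hpq hne
        have hΛn : Λ.Normal := norm_of hab hΛ
        have hΛne : ¬ Λ ≤ Δ.subgroupOf D := by
          intro h1
          rw [Subgroup.relIndex_eq_one.2 h1] at hΛi
          exact hpr.one_lt.ne hΛi
        have hc := countB (p := p) (Δ.subgroupOf D) Λ hab hpow hΛne (by
          rw [hk']
          exact Nat.pow_le_pow_right hpr.pos (by omega))
        have hS := stepB (p := p) (Δ.subgroupOf D) Λ hΛ hΛi hab S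
        have hT := stepB (p := p) (Δ.subgroupOf D) Λ hΛ hΛi hab T
        have hm : ∀ H : Subgroup D, (H.map D.subtype).subgroupOf D = H := fun H =>
          Subgroup.comap_map_eq_self_of_injective D.subtype_injective H
        have hmapΛ : (Λ.map D.subtype).subgroupOf D = Λ := hm Λ
        have hΔle : Δ ≤ Λ.map D.subtype := by
          intro x hx
          exact ⟨⟨x, hΔD hx⟩, hΛ hx, rfl⟩
        have e1 : ∀ (U : Type) [MulAction Γ U], numStable (Γ := D) U Λ ⊤ = numStable U (Λ.map D.subtype) D := by
          intro U _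
          rw [← so_sub U (Subgroup.map_subtype_le Λ) le_rfl, hmapΛ, htop]
        have e2 : ∀ (U : Type) [MulAction Γ U], numStable (Γ := D) U (Δ.subgroupOf D) ⊤ = numStable U Δ D := by
          intro U _
          rw [htop, so_sub U hΔD le_rfl]
        have e3 : ∀ (U : Type) [MulAction Γ U] (H : Subgroup D),
            numStable (Γ := D) U (Δ.subgroupOf D) H = numStable U Δ (H.map D.subtype) := by
          intro U _ H
          rw [← so_sub U hΔD (Subgroup.map_subtype_le H), hm]
        have f1 : numStable S (Λ.map D.subtype) D = numStable T (Λ.map D.subtype) D := by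
          refine ih ((Λ.map D.subtype).relIndex D) ?_ _ _ rfl (hGΔ.trans hΔle)
            (Subgroup.map_subtype_le Λ) (by rw [hmapΛ]; exact hΛn)
          rw [← hn]
          show ((Λ.map D.subtype).subgroupOf D).index < (Δ.subgroupOf D).index
          rw [hmapΛ]
          have h1 := Subgroup.relIndex_mul_index hΛ
          rw [hΛi] at h1
          rw [← h1]
          have h2 : 0 < Λ.index := Nat.pos_of_ne_zero Subgroup.index_ne_zero_of_finite
          have h3 : 2 ≤ p := hpr.two_le
          nlinarith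
        have f2 : ∀ H ∈ HH p (Δ.subgroupOf D) Λ, numStable (Γ := D) S (Δ.subgroupOf D) H =
            numStable (Γ := D) T (Δ.subgroupOf D) H := by
          intro H hH
          rw [mem_HH] at hH
          rw [e3, e3]
          have h4 : Δ ≤ H.map D.subtype := by
            intro x hx
            exact ⟨⟨x, hΔD hx⟩, hH.1 hx, rfl⟩
          refine ih (Δ.relIndex (H.map D.subtype)) ?_ _ _ rfl hGΔ h4 ?_
          · rw [← hn]
            have h5 := Subgroup.relIndex_mul_relIndex Δ (H.map D.subtype) D h4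
              (Subgroup.map_subtype_le H)
            have h6 : (H.map D.subtype).relIndex D = p := by
              show ((H.map D.subtype).subgroupOf D).index = p
              rw [hm]
              exact hH.2.1
            rw [h6] at h5
            have h7 : 0 < Δ.relIndex (H.map D.subtype) :=
              Nat.pos_of_ne_zero Subgroup.index_ne_zero_of_finite
            have h3 : 2 ≤ p := hpr.two_le
            nlinarith
          · refine ⟨fun x hx y => ?_⟩
            obtain ⟨y', hy', hy⟩ := y.2
            have h5 := hnorm.conj_mem (⟨x, hΔD hx⟩ : D) hx y'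
            have h6 : ((y' * ⟨x, hΔD hx⟩ * y'⁻¹ : D) : Γ) ∈ Δ := h5
            show ((y * x * y⁻¹ : (H.map D.subtype : Subgroup Γ)) : Γ) ∈ Δ
            have h7 : ((y * x * y⁻¹ : (H.map D.subtype : Subgroup Γ)) : Γ) =
                ((y' * ⟨x, hΔD hx⟩ * y'⁻¹ : D) : Γ) := by
              push_cast
              rw [← hy]
              rfl
            rw [h7]
            exact h6
        rw [e1, e2] at hS hT
        rw [Finset.sum_congr rfl f2] at hS
        rw [f1] at hS
        set c := (HH p (Δ.subgroupOf D) Λ).card with hcdef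
        have hS' : (p : ℤ) * numStable T (Λ.map D.subtype) D + c * numStable S Δ D =
            p * numStable S Δ D + ((∑ H ∈ HH p (Δ.subgroupOf D) Λ,
              numStable (Γ := D) T (Δ.subgroupOf D) H : ℕ) : ℤ) := by exact_mod_cast hS
        have hT' : (p : ℤ) * numStable T (Λ.map D.subtype) D + c * numStable T Δ D =
            p * numStable T Δ D + ((∑ H ∈ HH p (Δ.subgroupOf D) Λ,
              numStable (Γ := D) T (Δ.subgroupOf D) H : ℕ) : ℤ) := by exact_mod_cast hT
        have h8 : ((c : ℤ) - p) * ((numStable S Δ D : ℤ) - numStable T Δ D) = 0 := by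
          linear_combination hS' - hT'
        rcases mul_eq_zero.1 h8 with h9 | h9
        · have h10 : (p : ℤ) < c := by exact_mod_cast hc
          omega
        · have h10 : (numStable S Δ D : ℤ) = numStable T Δ D := by omega
          exact_mod_cast h10
    · -- the Frattini case
      have hmap : ((Fr p (Δ.subgroupOf D)).map D.subtype).subgroupOf D =
          Fr p (Δ.subgroupOf D) :=
        Subgroup.comap_map_eq_self_of_injective D.subtype_injective _
      have hle : Δ ≤ (Fr p (Δ.subgroupOf D)).map D.subtype := by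
        intro x hx
        exact ⟨⟨x, hΔD hx⟩, fr_le p (Δ.subgroupOf D) hx, rfl⟩
      have key : ∀ (U : Type) [Finite U] [MulAction Γ U], numStable U Δ D =
          numStable U ((Fr p (Δ.subgroupOf D)).map D.subtype) D := by
        intro U _ _
        have h1 := so_frat (Γ := D) U (Δ.subgroupOf D) (Fr p (Δ.subgroupOf D))
          (fr_le p (Δ.subgroupOf D)) (fun H hH hH' => fr_frat p (Δ.subgroupOf D) hpq H hH hH')
        rw [← so_sub U hΔD le_rfl, ← so_sub U (Subgroup.map_subtype_le _) le_rfl, hmap,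
          Subgroup.subgroupOf_self]
        exact h1
      rw [key S, key T]
      refine ih _ ?_ _ D rfl (hGΔ.trans hle) (Subgroup.map_subtype_le _)
        (by rw [hmap]; infer_instance)
      rw [← hn]
      show (((Fr p (Δ.subgroupOf D)).map D.subtype).subgroupOf D).index <
        (Δ.subgroupOf D).index
      rw [hmap]
      have h1 := Subgroup.relIndex_mul_index (fr_le p (Δ.subgroupOf D))
      have h2 : (Δ.subgroupOf D).relIndex (Fr p (Δ.subgroupOf D)) ≠ 1 := by
        intro h3
        exact hfr (le_antisymm (Subgroup.relIndex_eq_one.1 h3) (fr_le p _))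
      have h3 : (Δ.subgroupOf D).relIndex (Fr p (Δ.subgroupOf D)) ≠ 0 :=
        Subgroup.index_ne_zero_of_finite
      have h4 : 0 < (Fr p (Δ.subgroupOf D)).index :=
        Nat.pos_of_ne_zero Subgroup.index_ne_zero_of_finite
      have h5 : 2 ≤ (Δ.subgroupOf D).relIndex (Fr p (Δ.subgroupOf D)) := by omega
      rw [← h1]
      nlinarith

end main

end Pool.Agent.V7H17.NE
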