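import Pool.Agent.Y63.NV.Defs

/-!
# Covering blocks: definition
-/

set_option autoImplicit false

noncomputable section

namespace Pool.Agent.V7H17.NE

open Pool.Agent.Y63.NV

/-- `b` is a block of `Δ` which covers the block `B` of the normal subgroup `G` of `Δ` -/
def Covers {F Γ : Type} [Field F] [Group Γ] {G Δ : Subgroup Γ} (hle : G ≤ Δ) (B : (G → F) → F)
    (b : (Δ → F) → F) : Prop :=
  IsBlock b ∧ ∀ z : Δ → F, InZ (G.subgroupOf Δ) z → b z = B (fun x : G => z ⟨x, hle x.2⟩)

end Pool.Agent.V7H17.NE
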