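import Pool.Agent.V7H17.NE.CovW

/-!
# Alperin's weight conjecture for the covering blocks and Navarro's equality
-/

set_option autoImplicit false
set_option linter.unusedSectionVars false

open scoped Classical BigOperators

noncomputable section

namespace Pool.Agent.V7H17.NE

open Pool.Agent.N85.WM
open Pool.Agent.Y63.NV

section fin

variable {F : Type} [Field F] [IsAlgClosed F] {p : ℕ} [Fact p.Prime] [CharP F p]
  {Γ : Type} [Group Γ] [Finite Γ]

theorem iB_fix_card (G : Subgroup Γ) [G.Normal] (B : (G → F) → F)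
    [hI : Fact (IsInvBlock G B)] {Δ : Subgroup Γ} (hle : G ≤ Δ) :
    numIBr (G.subgroupOf Δ) (blkOf hle B) = fx (IB B) Δ := numIBr_mid hle B

theorem nav_fix_card (G : Subgroup Γ) [G.Normal] (red : integralClosure ℤ ℂ →+* F)
    (hG : IsPGroup p (Γ ⧸ G)) (B : (G → F) → F) (hB : IsBlock B)
    [hI : Fact (IsInvBlock G B)] {Δ : Subgroup Γ} (hle : G ≤ Δ) :
    navSum p red (G.subgroupOf Δ) (blkOf hle B) = fx (Cl G (WT G p red B)) Δ := by
  rw [navSum_eq _ p red (isBlock_of hle hB) (isInv_of hle hI.out), rhs_mid G p red hG B hB hle]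
  rfl

theorem lw_cov (G : Subgroup Γ) [G.Normal] (red : integralClosure ℤ ℂ →+* F)
    (hG : IsPGroup p (Γ ⧸ G)) (B : (G → F) → F) (hB : IsBlock B)
    [hI : Fact (IsInvBlock G B)] {Δ : Subgroup Γ} (hle : G ≤ Δ) {b : (Δ → F) → F}
    (hb : Covers hle B b) : numIrrBlock b = Nat.card (Cl Δ (IB B)) ∧
      numWts p red b = Nat.card (Cl Δ (Cl G (WT G p red B))) := by
  obtain ⟨w, hw⟩ := exists_sepEl G hB hI.out
  exact ⟨l_cov G hG B hB hw hle hb, w_cov G red hG B hB hw hle hb⟩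

theorem cov_unique (G : Subgroup Γ) [G.Normal] (hG : IsPGroup p (Γ ⧸ G)) (B : (G → F) → F)
    (hB : IsBlock B) [hI : Fact (IsInvBlock G B)] {Δ : Subgroup Γ} (hle : G ≤ Δ) :
    ∃ b : (Δ → F) → F, Covers hle B b ∧ ∀ b' : (Δ → F) → F, Covers hle B b' →
      ∀ f : Δ → F, IsClassFun f → b' f = b f := by
  obtain ⟨w, hw⟩ := exists_sepEl G hB hI.out
  obtain ⟨b, hb, hb1⟩ := ex_cov (G.subgroupOf Δ) (pq_mid G hG Δ) (isBlock_of hle hB) (hw.mid hle)
  refine ⟨b, covers_of hle hw hb hb1, fun b' hb' => ?_⟩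
  exact uniq_cov (G.subgroupOf Δ) (pq_mid G hG Δ) (isBlock_of hle hB) (hw.mid hle) hb'.1 hb
    (covers_one hle hw hb') hb1

/-- the permutation characters -/
theorem cyc_perm (G : Subgroup Γ) [G.Normal] (S T : Type) [Finite S] [Finite T] [MulAction Γ S]
    [MulAction Γ T] (hS : ∀ g ∈ G, ∀ s : S, g • s = s) (hT : ∀ g ∈ G, ∀ t : T, g • t = t) :
    (∀ D : Subgroup Γ, G ≤ D → IsCyclic (D.map (QuotientGroup.mk' G)) → fx S D = fx T D) ↔
      ∀ γ : Γ, Nat.card {s : S // γ • s = s} = Nat.card {t : T // γ • t = t} := by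
  constructor
  · intro h γ
    rw [fx_zp G S hS, fx_zp G T hT]
    exact h _ le_sup_left ((cyc_iff G _ le_sup_left).2
      ⟨γ, Subgroup.mem_sup_right (Subgroup.mem_zpowers _), rfl⟩)
  · intro h D hD hc
    obtain ⟨g, hg, hgD⟩ := (cyc_iff G D hD).1 hc
    rw [← hgD, ← fx_zp G S hS, ← fx_zp G T hT]
    exact h g

/-- **The covering blocks.** -/
theorem cov_tfae (G : Subgroup Γ) [G.Normal] (red : integralClosure ℤ ℂ →+* F)
    (hG : IsPGroup p (Γ ⧸ G)) (B : (G → F) → F) (hB : IsBlock B)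
    [hI : Fact (IsInvBlock G B)] :
    List.TFAE [∀ (Δ : Subgroup Γ) (hle : G ≤ Δ) (b : (Δ → F) → F), Covers hle B b →
        numIrrBlock b = numWts p red b,
      ∀ (Δ : Subgroup Γ) (hle : G ≤ Δ) (b : (Δ → F) → F),
        IsCyclic (Δ.map (QuotientGroup.mk' G)) → Covers hle B b →
        numIrrBlock b = numWts p red b,
      ∀ (Δ : Subgroup Γ) (hle : G ≤ Δ), IsCyclic (Δ.map (QuotientGroup.mk' G)) →
        numIBr (G.subgroupOf Δ) (blkOf hle B) = navSum p red (G.subgroupOf Δ) (blkOf hle B),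
      ∀ γ : Γ, Nat.card {φ : IB B // γ • φ = φ} =
        Nat.card {C : Cl G (WT G p red B) // γ • C = C}] := by
  have hfin : Finite (IB B) := finite_IB B
  have hS : ∀ g ∈ G, ∀ φ : IB B, g • φ = φ := fun g hg φ => IB_triv G B g hg φ
  have hT : ∀ g ∈ G, ∀ C : Cl G (WT G p red B), g • C = C := fun g hg C => smul_cl G _ g hg C
  obtain ⟨o1, o2⟩ := orb_tfae G (IB B) (Cl G (WT G p red B)) hS hT
  have h1 : ∀ (Δ : Subgroup Γ) (hle : G ≤ Δ), (∀ b : (Δ → F) → F, Covers hle B b →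
      numIrrBlock b = numWts p red b) ↔
      Nat.card (Cl Δ (IB B)) = Nat.card (Cl Δ (Cl G (WT G p red B))) := by
    intro Δ hle
    constructor
    · intro h
      obtain ⟨b, hb, -⟩ := cov_unique G hG B hB hle
      obtain ⟨h2, h3⟩ := lw_cov G red hG B hB hle hb
      rw [← h2, ← h3]
      exact h b hb
    · intro h b hb
      obtain ⟨h2, h3⟩ := lw_cov G red hG B hB hle hb
      rw [h2, h3]
      exact h
  have h2 : ∀ (Δ : Subgroup Γ) (hle : G ≤ Δ), (numIBr (G.subgroupOf Δ) (blkOf hle B) =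
      navSum p red (G.subgroupOf Δ) (blkOf hle B)) ↔
      fx (IB B) Δ = fx (Cl G (WT G p red B)) Δ := by
    intro Δ hle
    rw [iB_fix_card G B hle, nav_fix_card G red hG B hB hle]
  have e1 : (∀ (Δ : Subgroup Γ) (hle : G ≤ Δ) (b : (Δ → F) → F), Covers hle B b →
        numIrrBlock b = numWts p red b) ↔ (∀ D : Subgroup Γ, G ≤ D →
          Nat.card (Cl D (IB B)) = Nat.card (Cl D (Cl G (WT G p red B)))) := by
    constructor
    · intro h D hD
      exact (h1 D hD).1 (h D hD)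
    · intro h D hD
      exact (h1 D hD).2 (h D hD)
  have e2 : (∀ (Δ : Subgroup Γ) (hle : G ≤ Δ) (b : (Δ → F) → F),
        IsCyclic (Δ.map (QuotientGroup.mk' G)) → Covers hle B b →
        numIrrBlock b = numWts p red b) ↔ (∀ D : Subgroup Γ, G ≤ D →
          IsCyclic (D.map (QuotientGroup.mk' G)) →
          Nat.card (Cl D (IB B)) = Nat.card (Cl D (Cl G (WT G p red B)))) := by
    constructor
    · intro h D hD hc
      exact (h1 D hD).1 (fun b hb => h D hD b hc hb)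
    · intro h D hD b hc hb
      exact (h1 D hD).2 (h D hD hc) b hb
  have e3 : (∀ (Δ : Subgroup Γ) (hle : G ≤ Δ), IsCyclic (Δ.map (QuotientGroup.mk' G)) →
        numIBr (G.subgroupOf Δ) (blkOf hle B) = navSum p red (G.subgroupOf Δ) (blkOf hle B)) ↔
      (∀ D : Subgroup Γ, G ≤ D → IsCyclic (D.map (QuotientGroup.mk' G)) →
        fx (IB B) D = fx (Cl G (WT G p red B)) D) := by
    constructor
    · intro h D hD hc
      exact (h2 D hD).1 (h D hD hc)
    · intro h D hD hc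
      exact (h2 D hD).2 (h D hD hc)
  tfae_have 1 ↔ 3 := by rw [e1, e3]; exact o1
  tfae_have 2 ↔ 3 := by rw [e2, e3]; exact o2
  tfae_have 3 ↔ 4 := by
    rw [e3]
    exact cyc_perm G (IB B) (Cl G (WT G p red B)) hS hT
  tfae_finish

/-- **One step in a cyclic quotient.** -/
theorem cov_step (G : Subgroup Γ) [G.Normal] (red : integralClosure ℤ ℂ →+* F)
    (hG : IsPGroup p (Γ ⧸ G)) (B : (G → F) → F) (hB : IsBlock B)
    [hI : Fact (IsInvBlock G B)] (N Δ : Subgroup Γ) (hN : G ≤ N) (hle : G ≤ Δ) (hND : N ≤ Δ)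
    (hi : N.relIndex Δ = p) (hc : IsCyclic (Δ.map (QuotientGroup.mk' G))) (b : (N → F) → F)
    (b' : (Δ → F) → F) (hb : Covers hN B b) (hb' : Covers hle B b') :
    p * numIrrBlock b' = numIrrBlock b +
      (p - 1) * numIBr (G.subgroupOf Δ) (blkOf hle B) ∧
    p * numWts p red b' = numWts p red b +
      (p - 1) * navSum p red (G.subgroupOf Δ) (blkOf hle B) := by
  have hfin : Finite (IB B) := finite_IB B
  obtain ⟨g, hg, hgD⟩ := (cyc_iff G Δ hle).1 hc
  have hg' : G.subgroupOf Δ ⊔ Subgroup.zpowers (⟨g, hg⟩ : Δ) = ⊤ := by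
    apply Subgroup.map_injective Δ.subtype_injective
    rw [Subgroup.map_sup, Subgroup.subgroupOf_map_subtype, inf_eq_left.2 hle,
      MonoidHom.map_zpowers, ← MonoidHom.range_eq_map, Subgroup.range_subtype]
    exact hgD
  have hnorm : (N.subgroupOf Δ).Normal := by
    refine ⟨fun n hn δ => ?_⟩
    have h1 : ∀ x y : Δ, (x : Γ) * y * (x : Γ)⁻¹ * (y : Γ)⁻¹ ∈ G := by
      intro x y
      rw [← QuotientGroup.eq_one_iff]
      have h2 := (IsCyclic.commGroup (α := Δ.map (QuotientGroup.mk' G))).mul_comm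
        ⟨QuotientGroup.mk' G x, ⟨x, x.2, rfl⟩⟩ ⟨QuotientGroup.mk' G y, ⟨y, y.2, rfl⟩⟩
      have h3 : QuotientGroup.mk' G (x : Γ) * QuotientGroup.mk' G (y : Γ) =
          QuotientGroup.mk' G (y : Γ) * QuotientGroup.mk' G (x : Γ) := congrArg Subtype.val h2
      show QuotientGroup.mk' G ((x : Γ) * y * (x : Γ)⁻¹ * (y : Γ)⁻¹) = 1
      rw [map_mul, map_mul, map_mul, map_inv, map_inv, h3]
      group
    have hn' : (n : Γ) ∈ N := hn
    have h2 := N.mul_mem (hN (h1 δ n)) hn'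
    have h3 : (δ : Γ) * n * (δ : Γ)⁻¹ * (n : Γ)⁻¹ * n = ((δ * n * δ⁻¹ : Δ) : Γ) := by
      push_cast
      group
    rw [h3] at h2
    exact h2
  have hGN : G.subgroupOf Δ ≤ N.subgroupOf Δ := fun x hx => hN hx
  have key : ∀ (S : Type) [Finite S] [MulAction Γ S], (∀ g ∈ G, ∀ s : S, g • s = s) →
      p * Nat.card (Cl Δ S) = Nat.card (Cl N S) + (p - 1) * fx S Δ := by
    intro S _ _ hS
    have h1 := orb_step (G.subgroupOf Δ) (pq_mid G hG Δ) hg' (N.subgroupOf Δ) hGN hi S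
      (fun x hx s => hS x hx s)
    rw [cl_top, cl_sub hND] at h1
    rw [h1]
    congr 2
    exact Nat.card_congr (Equiv.subtypeEquivRight fun s =>
      ⟨fun h g hg => h ⟨g, hg⟩, fun h g => h g g.2⟩)
  obtain ⟨a1, a2⟩ := lw_cov G red hG B hB hN hb
  obtain ⟨a3, a4⟩ := lw_cov G red hG B hB hle hb'
  rw [a1, a2, a3, a4, iB_fix_card G B hle, nav_fix_card G red hG B hB hle]
  exact ⟨key _ fun g hg φ => IB_triv G B g hg φ, key _ fun g hg C => smul_cl G _ g hg C⟩

end fin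

end Pool.Agent.V7H17.NE
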