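import Pool.Agent.V7H17.NE.UniqC
import Pool.Agent.Y63.NV.Base48
import Mathlib.GroupTheory.SpecificGroups.Cyclic

/-!
# Numbers of orbits and numbers of fixed points
-/

set_option autoImplicit false
set_option linter.unusedSectionVars false

open scoped Classical BigOperators

noncomputable section

namespace Pool.Agent.V7H17.NE

section orbs

variable {Γ : Type} [Group Γ] [Finite Γ]

/-- the number of points fixed by `D` -/
def fx (S : Type) [MulAction Γ S] (D : Subgroup Γ) : ℕ := Nat.card {s : S // ∀ g ∈ D, g • s = s}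

theorem cl_card (S : Type) [MulAction Γ S] (D : Subgroup Γ) :
    Nat.card (Cl D S) = Nat.card (Quotient (MulAction.orbitRel D S)) := by
  refine Nat.card_congr (Quotient.congr (Equiv.refl S) fun a b => ?_)
  constructor
  · rintro ⟨g, hg, h⟩
    refine ⟨⟨g, hg⟩⁻¹, ?_⟩
    show (⟨g, hg⟩ : D)⁻¹ • b = a
    rw [inv_smul_eq_iff]
    exact h.symm
  · rintro ⟨g, h⟩
    have h' : g • b = a := h
    refine ⟨(g : Γ)⁻¹, D.inv_mem g.2, ?_⟩
    show (g : Γ)⁻¹ • a = b
    rw [inv_smul_eq_iff]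
    exact h'.symm

theorem fx_zp (G : Subgroup Γ) (S : Type) [MulAction Γ S] (hS : ∀ g ∈ G, ∀ s : S, g • s = s)
    (δ : Γ) : Nat.card {s : S // δ • s = s} = fx S (G ⊔ Subgroup.zpowers δ) := by
  unfold fx
  refine Nat.card_congr (Equiv.subtypeEquivRight fun s => ?_)
  constructor
  · intro h g hg
    have h1 : G ⊔ Subgroup.zpowers δ ≤ MulAction.stabilizer Γ s := by
      refine sup_le (fun a ha => hS a ha s) ?_
      rw [Subgroup.zpowers_le]
      exact h
    exact h1 hg
  · intro h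
    exact h δ (Subgroup.mem_sup_right (Subgroup.mem_zpowers δ))

/-- Burnside's formula -/
theorem burnside (G : Subgroup Γ) (S : Type) [Finite S] [MulAction Γ S]
    (hS : ∀ g ∈ G, ∀ s : S, g • s = s) (D : Subgroup Γ) :
    Nat.card D * Nat.card (Cl D S) = ∑ᶠ δ : D, fx S (G ⊔ Subgroup.zpowers (δ : Γ)) := by
  have : Fintype D := Fintype.ofFinite D
  have : Fintype S := Fintype.ofFinite S
  have : Fintype (Quotient (MulAction.orbitRel D S)) := Fintype.ofFinite _
  rw [cl_card, finsum_eq_sum_of_fintype]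
  have h := MulAction.sum_card_fixedBy_eq_card_orbits_mul_card_group D S
  rw [Nat.card_eq_fintype_card, Nat.card_eq_fintype_card, mul_comm, ← h]
  refine Finset.sum_congr rfl fun δ _ => ?_
  rw [← fx_zp G S hS, ← Nat.card_eq_fintype_card]
  rfl

/-- the quotient `D/G` is cyclic -/
theorem cyc_iff (G : Subgroup Γ) [G.Normal] (D : Subgroup Γ) (hD : G ≤ D) :
    IsCyclic (D.map (QuotientGroup.mk' G)) ↔ ∃ g ∈ D, G ⊔ Subgroup.zpowers g = D := by
  have hDc : (D.map (QuotientGroup.mk' G)).comap (QuotientGroup.mk' G) = D := by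
    rw [Subgroup.comap_map_eq, QuotientGroup.ker_mk', sup_eq_left]
    exact hD
  constructor
  · rintro ⟨⟨⟨y, hy⟩, h⟩⟩
    obtain ⟨g, hg, rfl⟩ := hy
    refine ⟨g, hg, le_antisymm (sup_le hD (by rw [Subgroup.zpowers_le]; exact hg)) ?_⟩
    intro x hx
    obtain ⟨n, hn⟩ := h ⟨QuotientGroup.mk' G x, ⟨x, hx, rfl⟩⟩
    have h1 : (QuotientGroup.mk' G g) ^ n = QuotientGroup.mk' G x := by
      have := congrArg Subtype.val hn
      exact this
    rw [← map_zpow] at h1
    have h2 : (g ^ n)⁻¹ * x ∈ G := QuotientGroup.eq.1 h1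
    have h3 : x = g ^ n * ((g ^ n)⁻¹ * x) := by group
    rw [h3]
    exact mul_mem (Subgroup.mem_sup_right (Subgroup.mem_zpowers_iff.2 ⟨n, rfl⟩))
      (Subgroup.mem_sup_left h2)
  · rintro ⟨g, hg, h⟩
    have h1 : D.map (QuotientGroup.mk' G) = Subgroup.zpowers (QuotientGroup.mk' G g) := by
      conv_lhs => rw [← h]
      rw [Subgroup.map_sup, MonoidHom.map_zpowers]
      have h2 : G.map (QuotientGroup.mk' G) = ⊥ := by
        rw [eq_bot_iff]
        rintro _ ⟨x, hx, rfl⟩
        exact (QuotientGroup.eq_one_iff x).2 hx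
      rw [h2, bot_sup_eq]
    rw [h1]
    infer_instance

/-- the numbers of orbits and of fixed points for the subgroups with cyclic quotient -/
theorem orb_tfae (G : Subgroup Γ) [G.Normal] (S T : Type) [Finite S] [Finite T] [MulAction Γ S]
    [MulAction Γ T] (hS : ∀ g ∈ G, ∀ s : S, g • s = s) (hT : ∀ g ∈ G, ∀ t : T, g • t = t) :
    ((∀ D : Subgroup Γ, G ≤ D → Nat.card (Cl D S) = Nat.card (Cl D T)) ↔
      ∀ D : Subgroup Γ, G ≤ D → IsCyclic (D.map (QuotientGroup.mk' G)) → fx S D = fx T D) ∧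
    ((∀ D : Subgroup Γ, G ≤ D → IsCyclic (D.map (QuotientGroup.mk' G)) →
        Nat.card (Cl D S) = Nat.card (Cl D T)) ↔
      ∀ D : Subgroup Γ, G ≤ D → IsCyclic (D.map (QuotientGroup.mk' G)) → fx S D = fx T D) := by
  have h1 : (∀ D : Subgroup Γ, G ≤ D → IsCyclic (D.map (QuotientGroup.mk' G)) →
      fx S D = fx T D) → ∀ D : Subgroup Γ, G ≤ D → Nat.card (Cl D S) = Nat.card (Cl D T) := by
    intro h D _
    refine Nat.eq_of_mul_eq_mul_left (Nat.card_pos (α := D)) ?_
    rw [burnside G S hS, burnside G T hT]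
    refine finsum_congr fun δ => ?_
    exact h _ le_sup_left ((cyc_iff G _ le_sup_left).2
      ⟨δ, Subgroup.mem_sup_right (Subgroup.mem_zpowers _), rfl⟩)
  have h2 : (∀ D : Subgroup Γ, G ≤ D → IsCyclic (D.map (QuotientGroup.mk' G)) →
      Nat.card (Cl D S) = Nat.card (Cl D T)) → ∀ (n : ℕ) (D : Subgroup Γ), Nat.card D = n →
      G ≤ D → IsCyclic (D.map (QuotientGroup.mk' G)) → fx S D = fx T D := by
    intro h n
    induction n using Nat.strong_induction_on with
    | _ n ih =>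
      intro D hn hD hc
      obtain ⟨g, hg, hgD⟩ := (cyc_iff G D hD).1 hc
      have h3 := h D hD hc
      have h4 := burnside G S hS D
      have h5 := burnside G T hT D
      rw [h3, h5] at h4
      have : Fintype D := Fintype.ofFinite D
      rw [finsum_eq_sum_of_fintype, finsum_eq_sum_of_fintype,
        ← Finset.sum_filter_add_sum_filter_not Finset.univ
          (fun δ : D => G ⊔ Subgroup.zpowers (δ : Γ) = D) (fun δ : D =>
            fx T (G ⊔ Subgroup.zpowers (δ : Γ))),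
        ← Finset.sum_filter_add_sum_filter_not Finset.univ
          (fun δ : D => G ⊔ Subgroup.zpowers (δ : Γ) = D) (fun δ : D =>
            fx S (G ⊔ Subgroup.zpowers (δ : Γ)))] at h4
      have h6 : (∑ δ ∈ Finset.univ.filter (fun δ : D => ¬ G ⊔ Subgroup.zpowers (δ : Γ) = D),
          fx T (G ⊔ Subgroup.zpowers (δ : Γ))) =
          ∑ δ ∈ Finset.univ.filter (fun δ : D => ¬ G ⊔ Subgroup.zpowers (δ : Γ) = D),
          fx S (G ⊔ Subgroup.zpowers (δ : Γ)) := by
        refine Finset.sum_congr rfl fun δ hδ => ?_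
        have h7 : G ⊔ Subgroup.zpowers (δ : Γ) ≠ D := (Finset.mem_filter.1 hδ).2
        have h8 : G ⊔ Subgroup.zpowers (δ : Γ) ≤ D :=
          sup_le hD (by rw [Subgroup.zpowers_le]; exact δ.2)
        have h9 : Nat.card (G ⊔ Subgroup.zpowers (δ : Γ) : Subgroup Γ) < n := by
          rw [← hn]
          by_contra h10
          push Not at h10
          exact h7 (Subgroup.eq_of_le_of_card_ge h8 h10)
        exact (ih _ h9 _ rfl le_sup_left ((cyc_iff G _ le_sup_left).2
          ⟨δ, Subgroup.mem_sup_right (Subgroup.mem_zpowers _), rfl⟩)).symm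
      rw [h6] at h4
      have h7 := Nat.add_right_cancel h4
      have h8 : ∀ (U : Type) [MulAction Γ U], (∑ δ ∈ Finset.univ.filter
          (fun δ : D => G ⊔ Subgroup.zpowers (δ : Γ) = D),
          fx U (G ⊔ Subgroup.zpowers (δ : Γ))) =
          (Finset.univ.filter (fun δ : D => G ⊔ Subgroup.zpowers (δ : Γ) = D)).card * fx U D := by
        intro U _
        rw [Finset.sum_congr rfl (g := fun _ => fx U D) (fun δ hδ => by
          rw [(Finset.mem_filter.1 hδ).2]), Finset.sum_const, smul_eq_mul]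
      rw [h8, h8] at h7
      refine (Nat.eq_of_mul_eq_mul_left ?_ h7).symm
      rw [Finset.card_pos]
      exact ⟨⟨g, hg⟩, Finset.mem_filter.2 ⟨Finset.mem_univ _, hgD⟩⟩
  exact ⟨⟨fun h D hD hc => h2 (fun D hD _ => h D hD) _ D rfl hD hc, h1⟩,
    fun h D hD hc => h2 h _ D rfl hD hc, fun h D hD _ => h1 h D hD⟩

/-- the powers of a generator in a subgroup of index `p` -/
theorem gen_pow {p : ℕ} (hpr : p.Prime) (G : Subgroup Γ) {g : Γ}
    (hg : G ⊔ Subgroup.zpowers g = ⊤) (M : Subgroup Γ) [M.Normal] (hGM : G ≤ M)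
    (hM : Nat.card (Γ ⧸ M) = p) (i : ℤ) : g ^ i ∈ M ↔ (p : ℤ) ∣ i := by
  have h1 : g ∉ M := by
    intro h
    have h2 : (⊤ : Subgroup Γ) ≤ M := by
      rw [← hg]
      exact sup_le hGM (by rw [Subgroup.zpowers_le]; exact h)
    have h3 : M.index = p := hM
    rw [top_le_iff.1 h2, Subgroup.index_top] at h3
    exact hpr.one_lt.ne h3
  have h2 : orderOf (QuotientGroup.mk' M g) = p := by
    have h3 : orderOf (QuotientGroup.mk' M g) ∣ p := hM ▸ orderOf_dvd_natCard _
    rcases (Nat.dvd_prime hpr).1 h3 with h | h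
    · exact absurd ((QuotientGroup.eq_one_iff g).1 (orderOf_eq_one_iff.1 h)) h1
    · exact h
  have h3 := orderOf_dvd_iff_zpow_eq_one (x := QuotientGroup.mk' M g) (i := i)
  rw [h2, ← map_zpow] at h3
  rw [h3]
  exact (QuotientGroup.eq_one_iff (g ^ i)).symm

/-- the elements outside the subgroup of index `p` generate the cyclic quotient -/
theorem orb_index {p : ℕ} [Fact p.Prime] (G : Subgroup Γ) [G.Normal]
    (hG : IsPGroup p (Γ ⧸ G)) {g : Γ} (hg : G ⊔ Subgroup.zpowers g = ⊤) (N : Subgroup Γ)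
    [N.Normal] (hGN : G ≤ N) (hN : Nat.card (Γ ⧸ N) = p) (γ : Γ) (hγ : γ ∉ N) :
    G ⊔ Subgroup.zpowers γ = ⊤ := by
  have hpr : p.Prime := Fact.out
  by_contra hne
  obtain ⟨M, hMn, hle, hM⟩ := exists_idx G hG (G ⊔ Subgroup.zpowers γ) le_sup_left hne
  have hGM : G ≤ M := le_sup_left.trans hle
  have h1 : γ ∈ M := hle (Subgroup.mem_sup_right (Subgroup.mem_zpowers γ))
  have h2 : γ ∈ ((G ⊔ Subgroup.zpowers g : Subgroup Γ) : Set Γ) := by rw [hg]; trivial
  rw [Subgroup.normal_mul, Set.mem_mul] at h2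
  obtain ⟨a, ha, b, hb, hab⟩ := h2
  obtain ⟨i, rfl⟩ := Subgroup.mem_zpowers_iff.1 hb
  have h3 : g ^ i ∈ M := by
    have h4 := M.mul_mem (M.inv_mem (hGM ha)) h1
    rwa [← hab, inv_mul_cancel_left] at h4
  rw [gen_pow hpr G hg M hGM hM i, ← gen_pow hpr G hg N hGN hN i] at h3
  apply hγ
  rw [← hab]
  exact N.mul_mem (hGN ha) h3

/-- the numbers of orbits for cyclic quotients -/
theorem orb_step {p : ℕ} [Fact p.Prime] (G : Subgroup Γ) [G.Normal]
    (hG : IsPGroup p (Γ ⧸ G)) {g : Γ} (hg : G ⊔ Subgroup.zpowers g = ⊤) (N : Subgroup Γ)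
    [N.Normal] (hGN : G ≤ N) (hN : Nat.card (Γ ⧸ N) = p) (S : Type) [Finite S] [MulAction Γ S]
    (hS : ∀ g ∈ G, ∀ s : S, g • s = s) :
    p * Nat.card (Cl (⊤ : Subgroup Γ) S) =
      Nat.card (Cl N S) + (p - 1) * Nat.card {s : S // ∀ g : Γ, g • s = s} := by
  have hpr : p.Prime := Fact.out
  have : Fintype Γ := Fintype.ofFinite Γ
  have : Fintype N := Fintype.ofFinite N
  have : Fintype (⊤ : Subgroup Γ) := Fintype.ofFinite _
  have h1 := burnside G S hS (⊤ : Subgroup Γ)
  have h2 := burnside G S hS N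
  rw [finsum_eq_sum_of_fintype] at h1 h2
  rw [Subgroup.card_top] at h1
  have h3 : ∑ δ : (⊤ : Subgroup Γ), fx S (G ⊔ Subgroup.zpowers (δ : Γ)) =
      ∑ δ : Γ, fx S (G ⊔ Subgroup.zpowers δ) :=
    (Subgroup.topEquiv (G := Γ)).toEquiv.sum_comp (fun δ : Γ => fx S (G ⊔ Subgroup.zpowers δ))
  have h4 : ∑ δ : N, fx S (G ⊔ Subgroup.zpowers (δ : Γ)) =
      ∑ δ ∈ Finset.univ.filter (fun δ : Γ => δ ∈ N), fx S (G ⊔ Subgroup.zpowers δ) :=
    (Finset.sum_subtype (p := fun δ : Γ => δ ∈ N) (Finset.univ.filter (fun δ : Γ => δ ∈ N))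
      (by simp) (fun δ => fx S (G ⊔ Subgroup.zpowers δ))).symm
  rw [h3, ← Finset.sum_filter_add_sum_filter_not Finset.univ (fun δ : Γ => δ ∈ N),
    ← h4, ← h2] at h1
  have h5 : fx S (⊤ : Subgroup Γ) = Nat.card {s : S // ∀ g : Γ, g • s = s} := by
    unfold fx
    exact Nat.card_congr (Equiv.subtypeEquivRight fun s =>
      ⟨fun h g => h g trivial, fun h g _ => h g⟩)
  have h6 : (∑ δ ∈ Finset.univ.filter (fun δ : Γ => ¬ δ ∈ N),
      fx S (G ⊔ Subgroup.zpowers δ)) = (Nat.card Γ - Nat.card N) *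
        Nat.card {s : S // ∀ g : Γ, g • s = s} := by
    rw [Finset.sum_congr rfl (g := fun _ => Nat.card {s : S // ∀ g : Γ, g • s = s})
      (fun δ hδ => by
        rw [orb_index G hG hg N hGN hN δ (Finset.mem_filter.1 hδ).2, h5]),
      Finset.sum_const, smul_eq_mul]
    congr 1
    have h7 := Finset.card_filter_add_card_filter_not (s := (Finset.univ : Finset Γ))
      (fun δ : Γ => δ ∈ N)
    have h8 : (Finset.univ.filter (fun δ : Γ => δ ∈ N)).card = Nat.card N := by
      rw [← Fintype.card_subtype, Nat.card_eq_fintype_card]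
    rw [h8, Finset.card_univ, ← Nat.card_eq_fintype_card] at h7
    omega
  rw [h6] at h1
  have h7 : Nat.card Γ = p * Nat.card N := by
    have h8 := N.card_mul_index
    have h9 : N.index = p := hN
    rw [h9] at h8
    rw [← h8, mul_comm]
  have h8 : Nat.card Γ - Nat.card N = (p - 1) * Nat.card N := by
    rw [h7, Nat.sub_mul, one_mul]
  rw [h8, h7] at h1
  refine Nat.eq_of_mul_eq_mul_left (Nat.card_pos (α := N)) ?_
  linarith [h1]

end orbs

end Pool.Agent.V7H17.NE
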