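import Pool.Agent.V7H17.NE.WInd
import Pool.Agent.V7H17.NE.Orbs
import Pool.Agent.V7H17.NE.CovDef

/-!
# The numbers of irreducible characters and of weights of the covering blocks
-/

set_option autoImplicit false
set_option linter.unusedSectionVars false

open scoped Classical BigOperators

noncomputable section

namespace Pool.Agent.V7H17.NE

open Pool.Agent.N85.WM
open Pool.Agent.Y63.NV
open Pool.Agent.Y63.AWC (IsIrreducibleCharacter pSubgroupSetoid)
open Pool.Agent.Y487.NV (wl)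
open Pool.Agent.Y286.NV (numDz_conj sup_conj orbit_weights)

attribute [local instance] Pool.Agent.Y487.NV.fsubL

section wts

variable {F : Type} [Field F] [IsAlgClosed F] {p : ℕ} [Fact p.Prime] [CharP F p]

/-- the right-hand side of Navarro's equality with the separating element -/
theorem wsum_sep {Γ : Type} [Group Γ] [Finite Γ] (G : Subgroup Γ) [G.Normal]
    (red : integralClosure ℤ ℂ →+* F) {B : (G → F) → F} {w : Γ → F} (hw : SepEl G B w) :
    Wsum p red G ⊤ w 1 = (Nat.card Γ : ℤ) * (rhs G p red B : ℤ) := by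
  set f : Subgroup Γ → ℕ := fun Q => if G ⊔ Q = ⊤ then numDz p red G Q B else 0 with hf
  have hfc : ∀ (g : Γ) (Q : Subgroup Γ), f (Q.map (MulAut.conj g).toMonoidHom) = f Q := by
    intro g Q
    simp only [hf]
    rw [numDz_conj, propext (sup_conj G g Q)]
  have hNw : ∀ Q : Subgroup Γ, IsPGroup p Q →
      Nw p red (Q.subgroupOf (⊤ ⊓ Subgroup.normalizer (Q : Set Γ)))
      (fun x => w x) 1 = numDz p red G Q B := by
    intro Q hQ
    rw [top_inf_eq]
    unfold Nw numDz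
    refine Nat.card_congr (Equiv.subtypeEquivRight fun χ => ?_)
    constructor
    · rintro ⟨hχ, hv⟩
      refine ⟨hχ, fun z' hz' => ?_⟩
      have h5 := wblk' p F red Γ Q χ hQ hχ
      exact hw.cov h5 (by
        show centralValue red χ (fun x => w x) ≠ 0
        rw [hv]
        exact one_ne_zero) z' hz'
    · rintro ⟨hχ, hv⟩
      exact ⟨hχ, (hv w hw.inz).trans hw.one⟩
  unfold rhs
  change _ = (Nat.card Γ : ℤ) *
    ((∑ᶠ c : Quotient (pSubgroupSetoid p Γ), f c.out.1 : ℕ) : ℤ)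
  rw [← Nat.cast_mul, orbit_weights p f hfc]
  have : Fintype {Q : Subgroup Γ // IsPGroup p Q} := Fintype.ofFinite _
  unfold Wsum
  rw [finsum_eq_sum_of_fintype, finsum_eq_sum_of_fintype, Nat.cast_sum]
  have h5 : ∀ Q : Subgroup Γ, (if IsPGroup p Q ∧ Q ≤ (⊤ : Subgroup Γ) ∧ G ⊔ Q = ⊤ then
      (Nat.card ↥((⊤ : Subgroup Γ) ⊓ Subgroup.normalizer (Q : Set Γ)) : ℤ) *
      Nw p red (Q.subgroupOf (⊤ ⊓ Subgroup.normalizer (Q : Set Γ))) (fun x => w x) 1 else 0)
      = if IsPGroup p Q then ((Nat.card (Subgroup.normalizer (Q : Set Γ)) * f Q : ℕ) : ℤ)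
        else 0 := by
    intro Q
    have e2 : Nat.card ↥((⊤ : Subgroup Γ) ⊓ Subgroup.normalizer (Q : Set Γ)) =
        Nat.card (Subgroup.normalizer (Q : Set Γ)) := by rw [top_inf_eq]
    rw [e2]
    by_cases hQ : IsPGroup p Q
    · rw [hNw Q hQ]
      by_cases hGQ : G ⊔ Q = ⊤
      · rw [if_pos ⟨hQ, le_top, hGQ⟩, if_pos hQ]
        simp only [hf]
        rw [if_pos hGQ, Nat.cast_mul]
      · rw [if_neg (fun h => hGQ h.2.2), if_pos hQ]
        simp only [hf]
        rw [if_neg hGQ, mul_zero, Nat.cast_zero]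
    · rw [if_neg (fun h => hQ h.1), if_neg hQ]
  rw [Finset.sum_congr rfl fun Q _ => h5 Q, ← Finset.sum_filter]
  exact Finset.sum_subtype (p := fun Q : Subgroup Γ => IsPGroup p Q)
    (Finset.univ.filter fun Q : Subgroup Γ => IsPGroup p Q) (by simp)
    (fun Q => ((Nat.card (Subgroup.normalizer (Q : Set Γ)) * f Q : ℕ) : ℤ))

/-- the numbers of fixed points on the classes of weights -/
theorem hyp_cl {Γ : Type} [Group Γ] [Finite Γ] (G : Subgroup Γ) [G.Normal]
    (red : integralClosure ℤ ℂ →+* F) (hG : IsPGroup p (Γ ⧸ G)) (B : (G → F) → F)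
    (hB : IsBlock B) [hI : Fact (IsInvBlock G B)] {w : Γ → F} (hw : SepEl G B w) :
    Hyp p red G w 1 (Cl G (WT G p red B)) := by
  intro D _ _ ι hι hD
  obtain ⟨e, he⟩ : ∃ e : D ≃* ι.range, ∀ d, (e d : Γ) = ι d :=
    ⟨MonoidHom.ofInjective hι, fun d => rfl⟩
  have h1 := sum_wl_equiv (p := p) red e (z' := fun x : ι.range => w x)
    (fun g x => hw.inz.conj g x) 1
    (fun Q : Subgroup D => IsPGroup p Q ∧ G.comap ι ⊔ Q = ⊤)
    (fun Q : Subgroup ι.range => IsPGroup p Q ∧ G.subgroupOf ι.range ⊔ Q = ⊤) (by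
      intro Q
      have h2 : (G.comap ι).map e.toMonoidHom = G.subgroupOf ι.range := by
        ext x
        rw [mem_map_e, Subgroup.mem_comap, Subgroup.mem_subgroupOf]
        have h3 : (x : Γ) = ι (e.symm x) := by
          rw [← he, e.apply_symm_apply]
        rw [← h3]
      have h3 : G.comap ι ⊔ Q = ⊤ ↔ G.subgroupOf ι.range ⊔ Q.map e.toMonoidHom = ⊤ := by
        rw [← h2, ← Subgroup.map_sup]
        constructor
        · intro h
          rw [h]
          exact Subgroup.map_top_of_surjective _ e.surjective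
        · intro h
          apply Subgroup.map_injective (f := e.toMonoidHom) e.injective
          rw [h]
          exact (Subgroup.map_top_of_surjective _ e.surjective).symm
      constructor
      · rintro ⟨h4, h5⟩
        exact ⟨h4.map _, h3.1 h5⟩
      · rintro ⟨h4, h5⟩
        refine ⟨?_, h3.2 h5⟩
        exact h4.of_injective (e.toMonoidHom.subgroupMap Q)
          (fun a b hab => Subtype.ext (e.injective (congrArg Subtype.val hab))))
  have h2 : (fun x : D => w (ι x)) = fun x : D => w (e x : Γ) := by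
    funext x
    rw [he]
  rw [h2, h1]
  have h3 := wsum_sep (p := p) (G.subgroupOf ι.range) red (hw.mid hD)
  rw [Pool.Agent.Y487.NV.wsum_eq, rhs_mid G p red hG B hB hD] at h3
  have h4 : Nat.card D = Nat.card ι.range := Nat.card_congr e.toEquiv
  have h5 : Nat.card {y : Cl G (WT G p red B) // ∀ d : D, ι d • y = y} =
      Nat.card {C : Cl G (WT G p red B) // ∀ g ∈ ι.range, g • C = C} := by
    refine Nat.card_congr (Equiv.subtypeEquivRight fun y => ?_)
    constructor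
    · rintro h _ ⟨d, rfl⟩
      exact h d
    · intro h d
      exact h _ ⟨d, rfl⟩
  rw [h4, h5]
  exact_mod_cast h3

/-- the number of all weights over `B` -/
theorem wsum_orb {Γ : Type} [Group Γ] [Finite Γ] (G : Subgroup Γ) [G.Normal]
    (red : integralClosure ℤ ℂ →+* F) (hG : IsPGroup p (Γ ⧸ G)) {z : Γ → F} {c : F}
    (hz : InZ G z) (Y : Type) [Finite Y] [MulAction Γ Y] (hY : Hyp p red G z c Y)
    (ht : ∀ g ∈ G, ∀ y : Y, g • y = y) :
    Wsum p red (⊤ : Subgroup Γ) ⊤ z c = (Nat.card Γ : ℤ) * Nat.card (Cl (⊤ : Subgroup Γ) Y) := by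
  have : Fintype Y := Fintype.ofFinite Y
  rw [Pool.Agent.Y487.NV.wsum_eq]
  have h1 : (∑ Q : Subgroup Γ, if IsPGroup p Q ∧ ⊤ ⊔ Q = ⊤ then wl p red z c Q else 0) =
      ∑ D : Subgroup Γ, if G ≤ D then AA p red G z c D else 0 := by
    unfold AA
    rw [fib_sum (fun R : Subgroup Γ => G ⊔ R) (fun R => IsPGroup p R)
      (fun E : Subgroup Γ => G ≤ E) (fun R => wl p red z c R)]
    refine Finset.sum_congr rfl fun Q _ => ?_
    by_cases hQ : IsPGroup p Q
    · rw [if_pos ⟨hQ, top_sup_eq Q⟩, if_pos ⟨hQ, le_sup_left⟩]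
    · rw [if_neg fun h => hQ h.1, if_neg fun h => hQ h.1]
  have h2 : (∑ D : Subgroup Γ, if G ≤ D then AA p red G z c D else 0) =
      ∑ y : Y, Nat.card (MulAction.stabilizer Γ y) := by
    have h3 : ∀ D : Subgroup Γ, (if G ≤ D then AA p red G z c D else 0) =
        if G ≤ D then (∑ y : Y, if True ∧ MulAction.stabilizer Γ y = D then
          Nat.card (MulAction.stabilizer Γ y) else 0) else 0 := by
      intro D
      by_cases hD : G ≤ D
      · rw [if_pos hD, if_pos hD, aa_aux red (Nat.card Γ) Γ G z c Y le_rfl hG hz hY _ D hD rfl,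
          ← Finset.sum_filter]
        rw [Finset.sum_congr rfl (g := fun _ => Nat.card D) (fun y hy => by
          rw [(Finset.mem_filter.1 hy).2.2]), Finset.sum_const, smul_eq_mul, mul_comm]
        congr 1
        rw [Nat.card_eq_fintype_card, Fintype.card_subtype]
        congr 1
        ext y
        simp
      · rw [if_neg hD, if_neg hD]
    rw [Finset.sum_congr rfl fun D _ => h3 D,
      fib_sum (fun y : Y => MulAction.stabilizer Γ y) (fun _ => True)
      (fun E : Subgroup Γ => G ≤ E) (fun y => Nat.card (MulAction.stabilizer Γ y))]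
    refine Finset.sum_congr rfl fun y _ => ?_
    rw [if_pos ⟨trivial, fun g hg => ht g hg y⟩]
  have h3 := Pool.Agent.Y63.NV.B48B.orbit_sum (G := Γ) (Ω := Y) (clSetoid (⊤ : Subgroup Γ) Y) (by
    intro a b
    constructor
    · rintro ⟨g, -, h⟩
      exact ⟨g, h⟩
    · rintro ⟨g, h⟩
      exact ⟨g, trivial, h⟩) (fun _ => 1) (fun _ _ _ => rfl)
  have h4 : (∑ᶠ _ : Quotient (clSetoid (⊤ : Subgroup Γ) Y), 1) =
      Nat.card (Cl (⊤ : Subgroup Γ) Y) := by
    have : Fintype (Quotient (clSetoid (⊤ : Subgroup Γ) Y)) := Fintype.ofFinite _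
    rw [finsum_eq_sum_of_fintype, Finset.sum_const, smul_eq_mul, mul_one, Finset.card_univ,
      ← Nat.card_eq_fintype_card]
    rfl
  simp only [mul_one] at h3
  rw [h4] at h3
  rw [h1, h2, ← h3]
  push_cast
  rfl

end wts

/-! ### the covering blocks -/

section cov

variable {F : Type} [Field F] [IsAlgClosed F] {p : ℕ} [Fact p.Prime] [CharP F p]
  {Γ : Type} [Group Γ] [Finite Γ]

theorem covers_one {G Δ : Subgroup Γ} (hle : G ≤ Δ) {B : (G → F) → F} {w : Γ → F}
    (hw : SepEl G B w) {b : (Δ → F) → F} (hb : Covers hle B b) : b (fun x : Δ => w x) = 1 :=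
  (hb.2 _ (hw.mid hle).inz).trans hw.one

theorem covers_of {G Δ : Subgroup Γ} (hle : G ≤ Δ) {B : (G → F) → F} {w : Γ → F}
    (hw : SepEl G B w) {b : (Δ → F) → F} (hb : IsBlock b) (h : b (fun x : Δ => w x) = 1) :
    Covers hle B b :=
  ⟨hb, fun z hz => (hw.mid hle).cov hb (by rw [h]; exact one_ne_zero) z hz⟩

/-- the irreducible traces with the value `1` at the separating element -/
def xxE (G : Subgroup Γ) [G.Normal] (B : (G → F) → F) {w : Γ → F} (hw : SepEl G B w) :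
    Pool.Agent.Y63.NV.B77.XX G w (1 : F) ≃ IB B where
  toFun φ := ⟨φ.1.1, φ.1.2, by
    have h1 := (blkOf_iff ⟨φ.1.1, φ.1.2⟩ (inz_cls hw.inz) (1 : F)).1 φ.2
    have h2 : BEq B (Pool.Agent.N85.WM.blkOf ⟨φ.1.1, φ.1.2⟩) := by
      by_contra h
      rw [hw.zero _ (blkOf_block _) h] at h1
      exact zero_ne_one h1
    intro f hf x
    rw [h2 f hf]
    exact blkOf_spec ⟨φ.1.1, φ.1.2⟩ hf x⟩
  invFun φ := ⟨⟨φ.1, φ.2.1⟩, fun x => by
    have h1 := φ.2.2 _ (inz_cls hw.inz) x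
    rw [hw.one] at h1
    exact h1⟩
  left_inv φ := rfl
  right_inv φ := rfl

/-- the bijection of the irreducible characters of `G` -/
def ibE {G Δ : Subgroup Γ} (hle : G ≤ Δ) (B : (G → F) → F) : IB (blkOf hle B) ≃ IB B where
  toFun φ := ⟨fun x => φ.1 ((eps hle).symm x), inB_comp (eps hle).symm φ.2⟩
  invFun φ := ⟨fun x => φ.1 (eps hle x), inB_comp (eps hle) φ.2⟩
  left_inv _ := rfl
  right_inv _ := rfl

/-- `l(b)` for the covering block `b` -/
theorem l_cov (G : Subgroup Γ) [G.Normal] (hG : IsPGroup p (Γ ⧸ G)) (B : (G → F) → F)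
    (hB : IsBlock B) [hI : Fact (IsInvBlock G B)] {w : Γ → F} (hw : SepEl G B w)
    {Δ : Subgroup Γ} (hle : G ≤ Δ) {b : (Δ → F) → F} (hb : Covers hle B b) :
    numIrrBlock b = Nat.card (Cl Δ (IB B)) := by
  have hI' : Fact (IsInvBlock (G.subgroupOf Δ) (blkOf hle B)) := ⟨isInv_of hle hI.out⟩
  have hwΔ := hw.mid hle
  have hcl : IsClassFun (fun x : Δ => w x) := hwΔ.inz.conj
  have h0 : numIrrBlock b = Lnum (⊤ : Subgroup Δ) ⊤ (fun x : Δ => w x) 1 := by
    rw [lnum_top hcl, numIrrBlock_eq]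
    refine Nat.card_congr (Equiv.subtypeEquivRight fun φ => ⟨fun h => ?_, fun h => ?_⟩)
    · rw [h _ hcl]
      exact covers_one hle hw hb
    · exact uniq_cov (G.subgroupOf Δ) (pq_mid G hG Δ) (isBlock_of hle hB) hwΔ
        (blkOf_block φ) hb.1 h (covers_one hle hw hb)
  have h1 := orbitsP (p := p) Pool.Agent.Y914.NV.irr Pool.Agent.Y705.NV.ppt
    (fun p _ F _ _ _ N _ _ f hf hf' => Pool.Agent.Y275.NV.wed F N f hf
      (Pool.Agent.Y705.NV.nil p F N f hf hf'))
    (Pool.Agent.Y705.NV.schur Pool.Agent.Y914.NV.irr) (G.subgroupOf Δ) (fun x : Δ => w x)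
    (1 : F) hwΔ.inz (pq_mid G hG Δ)
  rw [h0, h1]
  let _ := Pool.Agent.Y63.NV.B77.actX (G.subgroupOf Δ) (fun x : Δ => w x) (1 : F) hwΔ.inz
  let E : Pool.Agent.Y63.NV.B77.XX (G.subgroupOf Δ) (fun x : Δ => w x) (1 : F) ≃ IB B :=
    (xxE (G.subgroupOf Δ) (blkOf hle B) hwΔ).trans (ibE hle B)
  have hE : ∀ (δ : Δ) (φ : Pool.Agent.Y63.NV.B77.XX (G.subgroupOf Δ) (fun x : Δ => w x) (1 : F)),
      E (δ • φ) = (δ : Γ) • E φ := by
    intro δ φ
    rfl
  refine Nat.card_congr (Quotient.congr E fun a b => ?_)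
  constructor
  · rintro ⟨g, h⟩
    have h' : g • b = a := h
    refine ⟨(g : Γ)⁻¹, Δ.inv_mem g.2, ?_⟩
    rw [inv_smul_eq_iff, ← hE, h']
  · rintro ⟨g, hg, h⟩
    refine ⟨(⟨g, hg⟩ : Δ)⁻¹, ?_⟩
    show (⟨g, hg⟩ : Δ)⁻¹ • b = a
    rw [inv_smul_eq_iff]
    apply E.injective
    rw [hE]
    exact h.symm

theorem cl_sub {S : Type} [MulAction Γ S] {N Δ : Subgroup Γ} (h : N ≤ Δ) :
    Nat.card (Cl (N.subgroupOf Δ) S) = Nat.card (Cl N S) := by
  refine Nat.card_congr (Quotient.congr (Equiv.refl S) fun a b => ?_)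
  constructor
  · rintro ⟨g, hg, h⟩
    exact ⟨g, hg, h⟩
  · rintro ⟨g, hg, h'⟩
    exact ⟨⟨g, h hg⟩, hg, h'⟩

theorem cl_top {S : Type} [MulAction Γ S] (Δ : Subgroup Γ) :
    Nat.card (Cl (⊤ : Subgroup Δ) S) = Nat.card (Cl Δ S) := by
  rw [← cl_sub (S := S) (le_refl Δ), Subgroup.subgroupOf_self]

/-- `w(b)` for the covering block `b` -/
theorem w_cov (G : Subgroup Γ) [G.Normal] (red : integralClosure ℤ ℂ →+* F)
    (hG : IsPGroup p (Γ ⧸ G)) (B : (G → F) → F)
    (hB : IsBlock B) [hI : Fact (IsInvBlock G B)] {w : Γ → F} (hw : SepEl G B w)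
    {Δ : Subgroup Γ} (hle : G ≤ Δ) {b : (Δ → F) → F} (hb : Covers hle B b) :
    (∑ᶠ c : Quotient (pSubgroupSetoid p Δ), numWtBlock p red c.out.1 b) =
      Nat.card (Cl Δ (Cl G (WT G p red B))) := by
  have hwΔ := hw.mid hle
  have hcl : IsClassFun (fun x : Δ => w x) := hwΔ.inz.conj
  have h0 : numWts p red b = Nat.card {y : YS p Δ // cvS red y (fun x : Δ => w x) = 1} := by
    rw [numWts_eq]
    refine Nat.card_congr (Equiv.subtypeEquivRight fun y => ⟨fun h => ?_, fun h => ?_⟩)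
    · rw [h _ hcl]
      exact covers_one hle hw hb
    · exact uniq_cov (G.subgroupOf Δ) (pq_mid G hG Δ) (isBlock_of hle hB) hwΔ
        (cvS_block red y) hb.1 h (covers_one hle hw hb)
  have h1 := hyp_cl G red hG B hB hw
  have h2 := wsum_orb (G.subgroupOf Δ) red (pq_mid G hG Δ) hwΔ.inz (Cl G (WT G p red B))
    (h1.mid red hle) (fun g hg y => smul_cl G _ (g : Γ) hg y)
  rw [wsum_top red hcl, ← h0] at h2
  have hpos : (Nat.card Δ : ℤ) ≠ 0 := by exact_mod_cast Nat.card_pos.ne'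
  have h3 := mul_left_cancel₀ hpos h2
  rw [← cl_top Δ]
  have h4 : numWts p red b = Nat.card (Cl (⊤ : Subgroup Δ) (Cl G (WT G p red B))) := by
    exact_mod_cast h3
  exact h4

/-- the orbits of `Δ` on the set of the `G`-orbits -/
theorem cl_cl (G : Subgroup Γ) [G.Normal] {Δ : Subgroup Γ} (hle : G ≤ Δ) (W : Type)
    [MulAction Γ W] : Nat.card (Cl Δ (Cl G W)) = Nat.card (Cl Δ W) := by
  symm
  refine Nat.card_congr (Equiv.ofBijective (Quotient.lift (fun w => Cl.mk Δ (Cl.mk G w)) ?_)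
    ⟨?_, ?_⟩)
  · rintro a b ⟨g, hg, h⟩
    rw [mk_eq]
    exact ⟨g, hg, by rw [smul_mk, h]⟩
  · intro x y hxy
    obtain ⟨a, rfl⟩ := mk_surj Δ W x
    obtain ⟨b, rfl⟩ := mk_surj Δ W y
    change Cl.mk Δ (Cl.mk G a) = Cl.mk Δ (Cl.mk G b) at hxy
    obtain ⟨g, hg, h⟩ := (mk_eq Δ _).1 hxy
    rw [smul_mk] at h
    obtain ⟨k, hk, h'⟩ := (mk_eq G _).1 h
    rw [mk_eq]
    exact ⟨k * g, Δ.mul_mem (hle hk) hg, by rw [mul_smul]; exact h'⟩
  · intro y
    obtain ⟨c, rfl⟩ := mk_surj Δ _ y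
    obtain ⟨a, rfl⟩ := mk_surj G _ c
    exact ⟨Cl.mk Δ a, rfl⟩

end cov

end Pool.Agent.V7H17.NE
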