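import Pool.Agent.V7H17.NE.Tr
import Pool.Agent.Y63.NV.PeL
import Pool.Agent.Y63.NV.Bawc
import Pool.Agent.Y63.NV.Theta

/-!
# Navarro's equality and equivariant bijections
-/

set_option autoImplicit false
set_option linter.unusedSectionVars false

open scoped Classical

noncomputable section

namespace Pool.Agent.V7H17.NE

open Pool.Agent.N85.WM
open Pool.Agent.Y63.NV
open Pool.Agent.Y63.AWC (IsIrreducibleCharacter pSubgroupSetoid)

/-- the right-hand side of Navarro's equality: the sum over the classes of `Θ_B` -/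
def navSum (p : ℕ) {F : Type} [Field F] (red : integralClosure ℤ ℂ →+* F) {Γ : Type} [Group Γ]
    (G : Subgroup Γ) (B : (G → F) → F) : ℕ :=
  ∑ᶠ c : Quotient (pSubgroupSetoid p Γ),
    if G ⊔ c.out.1 = ⊤ ∧ InDefect p G B c.out.1 then numDz p red G c.out.1 B else 0

section main

variable {F Γ : Type} [Field F] [Group Γ] [Finite Γ] (G : Subgroup Γ) [hGn : G.Normal]

theorem navSum_eq (p : ℕ) [Fact p.Prime] [IsAlgClosed F] [CharP F p]
    (red : integralClosure ℤ ℂ →+* F) {B : (G → F) → F} (hB : IsBlock B)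
    (hI : IsInvBlock G B) : navSum p red G B = rhs G p red B := by
  unfold navSum rhs
  refine finsum_congr fun c => ?_
  by_cases h1 : G ⊔ c.out.1 = ⊤
  · by_cases h2 : InDefect p G B c.out.1
    · rw [if_pos ⟨h1, h2⟩, if_pos h1]
    · rw [if_neg (fun h => h2 h.2), if_pos h1]
      by_contra h3
      exact h2 (wdef' p F red Γ G B hB hI c.out.1 c.out.2 (fun h => h3 h.symm))
  · rw [if_neg (fun h => h1 h.1), if_neg h1]

theorem pq_mid {p : ℕ} (hG : IsPGroup p (Γ ⧸ G)) (Δ : Subgroup Γ) :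
    IsPGroup p (Δ ⧸ G.subgroupOf Δ) := by
  intro y
  obtain ⟨δ, rfl⟩ := QuotientGroup.mk_surjective y
  obtain ⟨k, hk⟩ := hG ((δ : Γ) : Γ ⧸ G)
  refine ⟨k, ?_⟩
  rw [← QuotientGroup.mk_pow, QuotientGroup.eq_one_iff] at hk ⊢
  exact hk

/-- the right-hand side for the intermediate groups -/
theorem rhs_mid (p : ℕ) [Fact p.Prime] [IsAlgClosed F] [CharP F p]
    (red : integralClosure ℤ ℂ →+* F) (hG : IsPGroup p (Γ ⧸ G)) (B : (G → F) → F)
    (hB : IsBlock B) [hI : Fact (IsInvBlock G B)] {Δ : Subgroup Γ} (hle : G ≤ Δ) :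
    rhs (G.subgroupOf Δ) p red (blkOf hle B) =
      Nat.card {C : Cl G (WT G p red B) // ∀ g ∈ Δ, g • C = C} := by
  have h1 : Fact (IsInvBlock (G.subgroupOf Δ) (blkOf hle B)) := ⟨isInv_of hle hI.out⟩
  rw [countA (G.subgroupOf Δ) p red (pq_mid G hG Δ) (blkOf hle B) (isBlock_of hle hB),
    count_mid]

theorem fixed_sup {S : Type} [MulAction Γ S] (hS : ∀ g ∈ G, ∀ s : S, g • s = s)
    (H : Subgroup Γ) (s : S) : (∀ g ∈ H, g • s = s) ↔ ∀ g ∈ G ⊔ H, g • s = s := by
  constructor
  · intro h g hg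
    have h1 : G ⊔ H ≤ MulAction.stabilizer Γ s := sup_le (fun a ha => hS a ha s) fun a ha => h a ha
    exact h1 hg
  · intro h g hg
    exact h g (Subgroup.mem_sup_right hg)

/-- **Navarro's equality for all intermediate groups and equivariant bijections.** -/
theorem equiv_iff (p : ℕ) [Fact p.Prime] [IsAlgClosed F] [CharP F p]
    (red : integralClosure ℤ ℂ →+* F) (hG : IsPGroup p (Γ ⧸ G)) (B : (G → F) → F)
    (hB : IsBlock B) [hI : Fact (IsInvBlock G B)] :
    (∀ (Δ : Subgroup Γ) (hle : G ≤ Δ), numIBr (G.subgroupOf Δ) (blkOf hle B) =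
      navSum p red (G.subgroupOf Δ) (blkOf hle B)) ↔
    ∃ e : IB B ≃ Cl G (WT G p red B), ∀ (g : Γ) (φ : IB B), e (g • φ) = g • e φ := by
  have hfin : Finite (IB B) := finite_IB B
  have key : ∀ (Δ : Subgroup Γ) (hle : G ≤ Δ), (numIBr (G.subgroupOf Δ) (blkOf hle B) =
      navSum p red (G.subgroupOf Δ) (blkOf hle B)) ↔
      (Nat.card {φ : IB B // ∀ g ∈ Δ, g • φ = φ} =
        Nat.card {C : Cl G (WT G p red B) // ∀ g ∈ Δ, g • C = C}) := by
    intro Δ hle
    rw [navSum_eq _ p red (isBlock_of hle hB) (isInv_of hle hI.out), rhs_mid G p red hG B hB hle,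
      numIBr_mid]
  constructor
  · intro h
    refine marks fun H => ?_
    have h1 := (key (G ⊔ H) le_sup_left).1 (h _ _)
    rw [Nat.card_congr (Equiv.subtypeEquivRight fun φ : IB B =>
      fixed_sup G (fun g hg φ => IB_triv G B g hg φ) H φ),
      Nat.card_congr (Equiv.subtypeEquivRight fun C : Cl G (WT G p red B) =>
      fixed_sup G (fun g hg C => smul_cl G _ g hg C) H C)]
    exact h1
  · rintro ⟨e, he⟩ Δ hle
    rw [key]
    refine Nat.card_congr (e.subtypeEquiv fun φ => ?_)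
    constructor
    · intro h g hg
      rw [← he, h g hg]
    · intro h g hg
      apply e.injective
      rw [he, h g hg]

/-- an equivariant bijection implies Navarro's equality -/
theorem eq_of_equiv (p : ℕ) [Fact p.Prime] [IsAlgClosed F] [CharP F p]
    (red : integralClosure ℤ ℂ →+* F) (hG : IsPGroup p (Γ ⧸ G)) (B : (G → F) → F)
    (hB : IsBlock B) [hI : Fact (IsInvBlock G B)]
    (h : ∃ e : IB B ≃ Cl G (WT G p red B), ∀ (g : Γ) (φ : IB B), e (g • φ) = g • e φ) :
    numIBr G B = navSum p red G B := by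
  obtain ⟨e, he⟩ := h
  rw [navSum_eq G p red hB hI.out, countA G p red hG B hB, numIBr_fix]
  refine Nat.card_congr (e.subtypeEquiv fun φ => ?_)
  constructor
  · intro h g
    rw [← he, h g]
  · intro h g
    apply e.injective
    rw [he, h g]

/-! ### one block -/

theorem rhs_top (p : ℕ) {K : Type} [Group K] [Finite K] (red : integralClosure ℤ ℂ →+* F)
    (T : Subgroup K) (hT : T = ⊤) (B : (K → F) → F) :
    rhs (Γ := K) T p red (fun f => B (fun x => f ⟨x, by rw [hT]; trivial⟩)) =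
      ∑ᶠ c : Quotient (pSubgroupSetoid p K), numWtBlock p red c.out.1 B := by
  subst hT
  unfold rhs
  refine finsum_congr fun c => ?_
  rw [if_pos (top_sup_eq _), numDz_eq]

/-- the number of all classes of weights of `B` -/
theorem card_Cl (p : ℕ) [Fact p.Prime] [IsAlgClosed F] [CharP F p]
    (red : integralClosure ℤ ℂ →+* F) (hG : IsPGroup p (Γ ⧸ G)) (B : (G → F) → F)
    (hB : IsBlock B) [hI : Fact (IsInvBlock G B)] : Nat.card (Cl G (WT G p red B)) =
      ∑ᶠ c : Quotient (pSubgroupSetoid p G), numWtBlock p red c.out.1 B := by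
  rw [← rhs_top (F := F) p red (G.subgroupOf G) (Subgroup.subgroupOf_self G) B]
  have h1 := rhs_mid G p red hG B hB (le_refl G)
  refine Eq.trans ?_ h1.symm
  refine Nat.card_congr (Equiv.ofBijective (fun C => ⟨C, fun g hg => smul_cl G _ g hg C⟩) ⟨?_, ?_⟩)
  · intro C C' h
    exact congrArg Subtype.val h
  · rintro ⟨C, hC⟩
    exact ⟨C, rfl⟩

theorem sup_sylow {p : ℕ} [Fact p.Prime] (hG : IsPGroup p (Γ ⧸ G)) (P : Sylow p Γ) :
    G ⊔ (P : Subgroup Γ) = ⊤ := by
  have hp : p.Prime := Fact.out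
  rw [← Subgroup.index_eq_one]
  have h1 : (G ⊔ (P : Subgroup Γ)).index ∣ (P : Subgroup Γ).index :=
    Subgroup.index_dvd_of_le le_sup_right
  have h2 : (G ⊔ (P : Subgroup Γ)).index ∣ G.index := Subgroup.index_dvd_of_le le_sup_left
  obtain ⟨k, hk⟩ := (IsPGroup.iff_card).1 hG
  have h3 : G.index = p ^ k := hk
  rw [h3] at h2
  obtain ⟨j, -, hj⟩ := (Nat.dvd_prime_pow hp).1 h2
  rw [hj] at h1 ⊢
  rcases Nat.eq_zero_or_pos j with rfl | hj0
  · exact pow_zero p
  · exact absurd ((dvd_pow_self p hj0.ne').trans h1) P.not_dvd_index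

/-- the number of the fixed points modulo `p` -/
theorem fix_modEq {p : ℕ} [Fact p.Prime] (hG : IsPGroup p (Γ ⧸ G)) {S : Type} [Finite S]
    [MulAction Γ S] (hS : ∀ g ∈ G, ∀ s : S, g • s = s) :
    Nat.card S ≡ Nat.card {s : S // ∀ g : Γ, g • s = s} [MOD p] := by
  obtain ⟨P⟩ : Nonempty (Sylow p Γ) := inferInstance
  have h1 := P.isPGroup'.card_modEq_card_fixedPoints S
  refine h1.trans ?_
  have h2 : Nat.card (MulAction.fixedPoints P S) = Nat.card {s : S // ∀ g : Γ, g • s = s} := by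
    refine Nat.card_congr (Equiv.subtypeEquivRight fun s => ?_)
    have h3 := fixed_sup G hS (P : Subgroup Γ) s
    rw [sup_sylow G hG P] at h3
    constructor
    · intro h g
      exact h3.1 (fun a ha => h ⟨a, ha⟩) g trivial
    · intro h g
      exact h g
  rw [h2]

theorem fix_le {S : Type} [Finite S] [MulAction Γ S] :
    Nat.card {s : S // ∀ g : Γ, g • s = s} ≤ Nat.card S :=
  Nat.card_le_card_of_injective _ Subtype.val_injective

/-- **One block.** -/
theorem one_block (p : ℕ) [Fact p.Prime] [IsAlgClosed F] [CharP F p]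
    (red : integralClosure ℤ ℂ →+* F) (hG : IsPGroup p (Γ ⧸ G)) (B : (G → F) → F)
    (hB : IsBlock B) [hI : Fact (IsInvBlock G B)] :
    numIrrBlock B ≡ numIBr G B [MOD p] ∧
    (∑ᶠ c : Quotient (pSubgroupSetoid p G), numWtBlock p red c.out.1 B) ≡
      navSum p red G B [MOD p] ∧
    numIBr G B ≤ numIrrBlock B ∧
    navSum p red G B ≤ ∑ᶠ c : Quotient (pSubgroupSetoid p G), numWtBlock p red c.out.1 B := by
  have hfin : Finite (IB B) := finite_IB B
  have e1 : numIrrBlock B = Nat.card (IB B) := rfl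
  rw [e1, ← card_Cl G p red hG B hB, navSum_eq G p red hB hI.out, countA G p red hG B hB,
    numIBr_fix]
  exact ⟨fix_modEq G hG (fun g hg φ => IB_triv G B g hg φ),
    fix_modEq G hG (fun g hg C => smul_cl G _ g hg C), fix_le, fix_le⟩

end main

/-! ### classes of groups -/

/-- **Alperin's weight conjecture for a class of groups and equivariant bijections.** -/
theorem class_iff (p : ℕ) [Fact p.Prime] (F : Type) [Field F] [IsAlgClosed F] [CharP F p]
    (red : integralClosure ℤ ℂ →+* F) (X : ∀ (G : Type) [Group G], Prop) (hX : Closed p X) :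
    (∀ (H : Type) [Group H] [Finite H], X H → Reduced p H → BAWC p red H) ↔
    ∀ (Γ : Type) [Group Γ] [Finite Γ] (N G : Subgroup Γ) [N.Normal] [G.Normal], N ≤ G → X N →
      IsPGroup p (Γ ⧸ N) → ∀ B : (G → F) → F, IsBlock B → ∀ [Fact (IsInvBlock G B)],
      ∃ e : IB B ≃ Cl G (WT G p red B), ∀ (g : Γ) (φ : IB B), e (g • φ) = g • e φ := by
  constructor
  · intro h Γ _ _ N G _ _ hNG hN hp B hB hI
    have hpG : IsPGroup p (Γ ⧸ G) := pgroup_of_le hNG hp
    rw [← equiv_iff G p red hpG B hB]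
    intro Δ hle
    have hstr := (block_strong (p := p) red X hX).1
      (fun H _ _ hH hR => (theta_iff p F red H ⊤).2 ((bawc_iff p red).1 (h H hH hR)))
    have hXN : X (N.subgroupOf Δ) :=
      hX.iso _ _ hN ⟨(Subgroup.subgroupOfEquivOfLe (hNG.trans hle)).symm⟩
    exact hstr Δ (N.subgroupOf Δ) (G.subgroupOf Δ)
      (fun x hx => hNG hx) hXN (pq_mid N hp Δ) (blkOf hle B) (isBlock_of hle hB)
      (isInv_of hle hI.out)
  · intro h H _ _ hH _ B hB
    have hI : Fact (IsInvBlock (⊤ : Subgroup H) (up B)) := ⟨up_inv B⟩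
    have h1 := h H ⊤ ⊤ le_rfl (hX.iso _ _ hH ⟨Subgroup.topEquiv.symm⟩) (pgroup_top p H)
      (up B) (up_block hB)
    have h2 := eq_of_equiv (⊤ : Subgroup H) p red (pgroup_top p H) (up B) (up_block hB) h1
    rw [navSum_eq _ p red (up_block hB) (up_inv B), numIBr_eq] at h2
    refine Eq.trans h2 ?_
    unfold rhs
    refine finsum_congr fun c => ?_
    rw [if_pos (top_sup_eq _), numDz_eq]
    rfl

end Pool.Agent.V7H17.NE
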