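import Pool.Agent.V7H17.NE.Main

/-!
# Irreducible traces and normal subgroups of `p`-power index

The case of index `p` is in `Pool/Agent/Y63/NV/Pell77.lean`; the proof is the same.
-/

set_option autoImplicit false
set_option linter.unusedSectionVars false

open scoped Classical

noncomputable section

namespace Pool.Agent.V7H17.NE

open Pool.Agent.Y63.NV Pool.Agent.Y77.NV Pool.Agent.Y63.NV.B77

section orbP

variable {F : Type} [Field F] {p : ℕ} [Fact p.Prime] [CharP F p] [IsAlgClosed F] {Γ : Type}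
  [Group Γ] [Finite Γ]

theorem reg_memP (G : Subgroup Γ) [G.Normal] (hi : IsPGroup p (Γ ⧸ G)) (x : Γ)
    (hx : ¬ p ∣ orderOf x) : x ∈ G := by
  have hp : p.Prime := Fact.out
  obtain ⟨k, hk⟩ := hi (QuotientGroup.mk' G x)
  have h1 : orderOf (QuotientGroup.mk' G x) ∣ orderOf x := orderOf_map_dvd _ _
  have h2 : orderOf (QuotientGroup.mk' G x) ∣ p ^ k := orderOf_dvd_of_pow_eq_one hk
  have h3 : (orderOf x).Coprime (p ^ k) :=
    Nat.Coprime.pow_right k ((Nat.Prime.coprime_iff_not_dvd hp).2 hx).symm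
  have h4 : orderOf (QuotientGroup.mk' G x) = 1 := Nat.eq_one_of_dvd_coprimes h3 h1 h2
  exact (QuotientGroup.eq_one_iff x).1 (orderOf_eq_one_iff.1 h4)

/-- the orbits on the irreducible traces -/
theorem orbitsP (h1 : S_IRR) (h2 : S_PPT) (h3 : S_SPAN) (h4 : S_SCHUR)
    (G : Subgroup Γ) [G.Normal] (z : Γ → F) (c : F) (hz : InZ G z)
    (hi : IsPGroup p (Γ ⧸ G)) :
    letI := actX G z c hz
    Lnum (⊤ : Subgroup Γ) ⊤ z c = Nat.card (Quotient (MulAction.orbitRel Γ (XX G z c))) := by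
  let _ := actX G z c hz
  have hET : Ext p (⊤ : Subgroup Γ) ⊤ z :=
    ⟨le_rfl, fun _ _ _ _ => trivial, fun _ _ => ⟨0, trivial⟩, fun h _ x => hz.conj h x,
      fun x hx => absurd trivial hx⟩
  have hEG : Ext p G G z :=
    ⟨le_rfl, fun _ hh _ hn => G.mul_mem (G.mul_mem hh hn) (G.inv_mem hh),
      fun h hh => ⟨0, by rwa [pow_zero, pow_one]⟩, fun h _ x => hz.conj h x, hz.supp⟩
  have hS : S0 p (⊤ : Subgroup Γ) ⊤ = S0 p G G := by
    ext x
    constructor
    · rintro ⟨_, hx, _⟩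
      exact ⟨reg_memP G hi x hx, hx, fun h hh => ⟨h, hh, rfl⟩⟩
    · rintro ⟨_, hx, _⟩
      exact ⟨trivial, hx, fun h _ => ⟨h, trivial, rfl⟩⟩
  rw [brq h1 h2 h3 h4 p F Γ ⊤ ⊤ z hET c, hS]
  have : Finite (Irr F G) := irr_fin h1
  have : Fintype (Irr F G) := Fintype.ofFinite _
  have hsup : ∀ h ∈ G, ∃ n ∈ G, ∃ r ∈ (⊥ : Subgroup Γ), h = n * r := fun h hh =>
    ⟨h, hh, 1, Subgroup.one_mem _, by rw [mul_one]⟩
  have hbot : IsPGroup p (⊥ : Subgroup Γ) := IsPGroup.of_bot
  have hinv : ∀ φ : Irr F G, IsInvUnder G φ.1 := by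
    intro φ h hh x y hxy
    have h5 : y = ⟨h, hh⟩ * x * (⟨h, hh⟩ : G)⁻¹ := Subtype.ext hxy
    rw [h5, irr_conj φ.2]
  have hli : LinearIndependent F (fun φ : Irr F G => res p G G φ.1) :=
    (claimC hEG h1 h2 h3 bot_le hbot hsup).comp (fun φ : Irr F G => ⟨φ, hinv φ⟩)
      (fun a b h => congrArg Subtype.val h)
  have hsp : VS (F := F) (S0 p G G) G =
      Submodule.span F (Set.range (fun φ : Irr F G => res p G G φ.1)) := by
    apply le_antisymm
    · intro θ hθ
      refine Submodule.span_mono ?_ (claimD hEG h1 h3 bot_le hbot hsup θ hθ)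
      rintro _ ⟨φ, rfl⟩
      exact ⟨φ.1, rfl⟩
    · rw [Submodule.span_le]
      rintro _ ⟨φ, rfl⟩
      exact res_mem hEG (hinv φ)
  have hzc : IsClassFun (fun g : G => z g) := fun g x => hz.conj g x
  have h5 : ∀ φ : Irr F G, ∃ l : F, ∀ x : G, ∑ᶠ g : G, z g * φ.1 (g * x) = l * φ.1 x := by
    intro φ
    obtain ⟨_, B, _, hB⟩ := h4 F G φ.1 φ.2
    exact ⟨B (fun g : G => z g), hB _ hzc⟩
  choose lam hlam using h5
  have hne : ∀ φ : Irr F G, ∃ x, φ.1 x ≠ 0 := fun φ => (h4 F G φ.1 φ.2).1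
  have hlamc : ∀ φ : Irr F G, lam φ = c ↔ ∀ x : G, ∑ᶠ g : G, z g * φ.1 (g * x) = c * φ.1 x := by
    intro φ
    constructor
    · intro h x
      rw [hlam, h]
    · intro h
      obtain ⟨x, hx⟩ := hne φ
      exact mul_right_cancel₀ hx ((hlam φ x).symm.trans (h x))
  set T := Top p z (S0 p G G) with hT
  have hTb : ∀ φ : Irr F G, T (res p G G φ.1) = lam φ • res p G G φ.1 := by
    intro φ
    funext x
    change Tfun p z (S0 p G G) (res p G G φ.1) x = lam φ * res p G G φ.1 x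
    by_cases hx : x ∈ S0 p G G
    · rw [Tfun, if_pos hx, claimB hEG h2 φ (hinv φ) hx, hlam, res, dif_pos hx]
    · rw [Tfun, if_neg hx, res, dif_neg hx, mul_zero]
  have hpow : ∀ (k : ℕ) (φ : Irr F G), ((T - c • (1 : Module.End F (Γ → F))) ^ k)
      (res p G G φ.1) = (lam φ - c) ^ k • res p G G φ.1 := by
    intro k
    induction k with
    | zero => intro i; simp
    | succ k ih =>
      intro i
      rw [pow_succ', Module.End.mul_apply, ih i, map_smul, LinearMap.sub_apply, hTb i,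
        LinearMap.smul_apply, Module.End.one_apply, ← sub_smul, smul_smul, pow_succ]
  let cjL : Γ → (Γ → F) →ₗ[F] (Γ → F) := fun γ => LinearMap.funLeft F F (fun x => γ⁻¹ * x * γ)
  have hcj : ∀ γ θ x, cjL γ θ x = θ (γ⁻¹ * x * γ) := fun _ _ _ => rfl
  have hS0c : ∀ (γ x : Γ), γ⁻¹ * x * γ ∈ S0 p G G ↔ x ∈ S0 p G G := by
    intro γ x
    rw [← hS]
    constructor
    · intro hx
      have h6 := S0_conj hET hx (h := γ) trivial
      have h7 : γ * (γ⁻¹ * x * γ) * γ⁻¹ = x := by group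
      rwa [h7] at h6
    · intro hx
      have h6 := S0_conj hET hx (h := γ⁻¹) trivial
      rwa [inv_inv] at h6
  have hres : ∀ (γ : Γ) (φ : XX G z c), cjL γ (res p G G φ.1.1) =
      res p G G (γ • φ).1.1 := by
    intro γ φ
    funext x
    rw [hcj]
    by_cases hx : x ∈ S0 p G G
    · have hx' := (hS0c γ x).2 hx
      rw [res, dif_pos hx', res, dif_pos hx]
      change _ = φ.1.1 ((MulAut.conjNormal γ).symm ⟨x, hx.1⟩)
      refine congrArg φ.1.1 (Subtype.ext ?_)
      rw [MulAut.conjNormal_symm_apply]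
    · have hx' : ¬ γ⁻¹ * x * γ ∈ S0 p G G := fun h => hx ((hS0c γ x).1 h)
      rw [res, dif_neg hx', res, dif_neg hx]
  refine orb (Γ := Γ) (ι := XX G z c) cjL _ (fun φ => res p G G φ.1.1)
    (hli.comp _ (Subtype.val_injective (p := fun φ : Irr F G =>
      ∀ x : G, ∑ᶠ g : G, z g * φ.1 (g * x) = c * φ.1 x))) hres ?_
  intro v
  constructor
  · rintro ⟨hv1, hv2⟩
    have hv3 : ∀ γ, cjL γ v = v := by
      intro γ
      funext x
      rw [hcj]
      have h6 := hv1.2 γ⁻¹ trivial x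
      rwa [inv_inv] at h6
    refine ⟨?_, hv3⟩
    have hv4 : v ∈ VS (F := F) (S0 p G G) G := ⟨hv1.1, fun j _ x => hv1.2 j trivial x⟩
    rw [hsp] at hv4
    obtain ⟨a, rfl⟩ := (Submodule.mem_span_range_iff_exists_fun F).1 hv4
    obtain ⟨k, hk⟩ := (Module.End.mem_maxGenEigenspace T c _).1 hv2
    rw [map_sum] at hk
    simp only [map_smul, hpow, smul_smul] at hk
    have h0 := Fintype.linearIndependent_iff.1 hli _ hk
    refine Submodule.sum_mem _ fun i _ => ?_
    by_cases hi : lam i = c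
    · exact Submodule.smul_mem _ _ (Submodule.subset_span ⟨⟨i, (hlamc i).1 hi⟩, rfl⟩)
    · have h1 : a i = 0 := by
        rcases mul_eq_zero.1 (h0 i) with h | h
        · exact h
        · exact absurd (sub_eq_zero.1 (eq_zero_of_pow_eq_zero h)) hi
      rw [h1, zero_smul]
      exact Submodule.zero_mem _
  · rintro ⟨hv1, hv2⟩
    have hv3 : v ∈ VS (F := F) (S0 p G G) G ⊓ T.maxGenEigenspace c := by
      refine (Submodule.span_le.2 ?_) hv1
      rintro _ ⟨φ, rfl⟩
      refine ⟨res_mem hEG (hinv φ.1), ?_⟩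
      refine (Module.End.mem_maxGenEigenspace T c _).2 ⟨1, ?_⟩
      rw [hpow, (hlamc φ.1).2 φ.2, sub_self, pow_one, zero_smul]
    refine ⟨⟨hv3.1.1, fun j _ x => ?_⟩, hv3.2⟩
    have h6 := congrFun (hv2 j⁻¹) x
    rw [hcj, inv_inv] at h6
    exact h6

end orbP

end Pool.Agent.V7H17.NE
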