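import Pool.Agent.V7H17.NE.Comb

/-!
# Sets with few points
-/

set_option autoImplicit false
set_option linter.unusedSectionVars false

open scoped Classical BigOperators

noncomputable section

namespace Pool.Agent.V7H17.NE

attribute [local instance] Pool.Agent.Y487.NV.fsubL

section small

variable {Γ : Type} [Group Γ] [Finite Γ] {p : ℕ} [hpf : Fact p.Prime]

/-- the number of fixed points -/
def fxt (Γ : Type) [Group Γ] (S : Type) [MulAction Γ S] : ℕ :=
  Nat.card {s : S // ∀ g : Γ, g • s = s}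

theorem fxt_eq (S : Type) [Fintype S] [MulAction Γ S] :
    fxt Γ S = ∑ s : S, if MulAction.stabilizer Γ s = ⊤ then 1 else 0 := by
  unfold fxt
  rw [← Finset.card_filter, ← Fintype.card_subtype, ← Nat.card_eq_fintype_card]
  refine Nat.card_congr (Equiv.subtypeEquivRight fun s => ?_)
  rw [eq_top_iff]
  exact ⟨fun h g _ => h g, fun h g => h (Subgroup.mem_top g)⟩

theorem orb_eq (S : Type) [Fintype S] [MulAction Γ S] :
    Nat.card Γ * numStable S (⊤ : Subgroup Γ) ⊤ =
      ∑ s : S, Nat.card (MulAction.stabilizer Γ s) := by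
  rw [so_sum, finsum_eq_sum_of_fintype]
  exact Finset.sum_congr rfl fun s _ => if_pos (top_sup_eq _)

theorem stab_index (N : Subgroup Γ) [N.Normal] (hN : IsPGroup p (Γ ⧸ N)) (S : Type)
    [MulAction Γ S] (hS : ∀ g ∈ N, ∀ s : S, g • s = s) (s : S) :
    ∃ k : ℕ, (MulAction.stabilizer Γ s).index = p ^ k ∧
      Nat.card (MulAction.stabilizer Γ s) * p ^ k = Nat.card Γ := by
  obtain ⟨k, hk⟩ := IsPGroup.iff_card.1 hN
  have h1 : N ≤ MulAction.stabilizer Γ s := fun g hg => hS g hg s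
  have h2 : (MulAction.stabilizer Γ s).index ∣ p ^ k := by
    rw [← hk]
    exact Subgroup.index_dvd_of_le h1
  obtain ⟨j, -, hj⟩ := (Nat.dvd_prime_pow hpf.out).1 h2
  exact ⟨j, hj, by rw [← hj]; exact (MulAction.stabilizer Γ s).card_mul_index⟩

theorem orb_bd (N : Subgroup Γ) [N.Normal] (hN : IsPGroup p (Γ ⧸ N)) (S : Type) [Finite S]
    [MulAction Γ S] (hS : ∀ g ∈ N, ∀ s : S, g • s = s) :
    p * numStable S (⊤ : Subgroup Γ) ⊤ ≤ Nat.card S + (p - 1) * fxt Γ S := by
  have hpr : p.Prime := hpf.out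
  have hp2 : 2 ≤ p := hpr.two_le
  have : Fintype S := Fintype.ofFinite S
  refine Nat.le_of_mul_le_mul_left ?_ (Nat.card_pos (α := Γ))
  calc Nat.card Γ * (p * numStable S (⊤ : Subgroup Γ) ⊤)
      = p * (Nat.card Γ * numStable S (⊤ : Subgroup Γ) ⊤) := by ring
    _ = ∑ s : S, p * Nat.card (MulAction.stabilizer Γ s) := by rw [orb_eq, Finset.mul_sum]
    _ ≤ ∑ s : S, Nat.card Γ * (1 + (p - 1) *
        (if MulAction.stabilizer Γ s = ⊤ then 1 else 0)) := by
      refine Finset.sum_le_sum fun s _ => ?_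
      obtain ⟨k, hk1, hk2⟩ := stab_index N hN S hS s
      by_cases h : MulAction.stabilizer Γ s = ⊤
      · rw [if_pos h, h, Subgroup.card_top, mul_one]
        have h3 : 1 + (p - 1) = p := by omega
        rw [h3, mul_comm]
      · rw [if_neg h, mul_zero, add_zero, mul_one, ← hk2, mul_comm]
        refine Nat.mul_le_mul_left _ ?_
        have hk0 : k ≠ 0 := by
          rintro rfl
          rw [pow_zero] at hk1
          exact h (Subgroup.index_eq_one.1 hk1)
        calc p = p ^ 1 := (pow_one p).symm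
          _ ≤ p ^ k := Nat.pow_le_pow_right hpr.pos (Nat.one_le_iff_ne_zero.2 hk0)
    _ = Nat.card Γ * (Nat.card S + (p - 1) * fxt Γ S) := by
      rw [← Finset.mul_sum, Finset.sum_add_distrib, ← Finset.mul_sum, ← fxt_eq, Finset.sum_const,
        smul_eq_mul, mul_one, Finset.card_univ, Nat.card_eq_fintype_card (α := S)]

theorem orb_lt (S : Type) [Finite S] [MulAction Γ S] :
    Nat.card Γ * fxt Γ S + Nat.card S ≤
      Nat.card Γ * numStable S (⊤ : Subgroup Γ) ⊤ + fxt Γ S := by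
  have : Fintype S := Fintype.ofFinite S
  rw [orb_eq, fxt_eq, Nat.card_eq_fintype_card (α := S), Finset.mul_sum]
  have h1 : Fintype.card S = ∑ _s : S, 1 := by
    rw [Finset.sum_const, smul_eq_mul, mul_one, Finset.card_univ]
  rw [h1, ← Finset.sum_add_distrib, ← Finset.sum_add_distrib]
  refine Finset.sum_le_sum fun s _ => ?_
  by_cases h : MulAction.stabilizer Γ s = ⊤
  · rw [if_pos h, h, Subgroup.card_top, mul_one]
  · rw [if_neg h, mul_zero, zero_add, add_zero]
    exact Nat.card_pos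

theorem orb_exact (N : Subgroup Γ) [N.Normal] (hN : IsPGroup p (Γ ⧸ N)) (S : Type) [Finite S]
    [MulAction Γ S] (hS : ∀ g ∈ N, ∀ s : S, g • s = s)
    (h : Nat.card S < p ^ 2 ∨ N.index ∣ p) :
    p * numStable S (⊤ : Subgroup Γ) ⊤ = Nat.card S + (p - 1) * fxt Γ S := by
  have hpr : p.Prime := hpf.out
  have hp2 : 2 ≤ p := hpr.two_le
  have : Fintype S := Fintype.ofFinite S
  refine Nat.eq_of_mul_eq_mul_left (Nat.card_pos (α := Γ)) ?_
  calc Nat.card Γ * (p * numStable S (⊤ : Subgroup Γ) ⊤)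
      = p * (Nat.card Γ * numStable S (⊤ : Subgroup Γ) ⊤) := by ring
    _ = ∑ s : S, p * Nat.card (MulAction.stabilizer Γ s) := by rw [orb_eq, Finset.mul_sum]
    _ = ∑ s : S, Nat.card Γ * (1 + (p - 1) *
        (if MulAction.stabilizer Γ s = ⊤ then 1 else 0)) := by
      refine Finset.sum_congr rfl fun s _ => ?_
      obtain ⟨k, hk1, hk2⟩ := stab_index N hN S hS s
      by_cases hst : MulAction.stabilizer Γ s = ⊤
      · rw [if_pos hst, hst, Subgroup.card_top, mul_one]
        have h3 : 1 + (p - 1) = p := by omega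
        rw [h3, mul_comm]
      · rw [if_neg hst, mul_zero, add_zero, mul_one, ← hk2, mul_comm]
        have hk0 : k ≠ 0 := by
          rintro rfl
          rw [pow_zero] at hk1
          exact hst (Subgroup.index_eq_one.1 hk1)
        have hk3 : k < 2 := by
          by_contra hk3
          push Not at hk3
          rcases h with h | h
          · have h4 : (MulAction.stabilizer Γ s).index ≤ Nat.card S := by
              rw [MulAction.index_stabilizer]
              exact Set.ncard_le_card _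
            rw [hk1] at h4
            have h5 := Nat.pow_le_pow_right hpr.pos hk3
            omega
          · have h4 : (MulAction.stabilizer Γ s).index ∣ p :=
              (Subgroup.index_dvd_of_le (fun g hg => hS g hg s)).trans h
            rw [hk1] at h4
            have h5 := Nat.le_of_dvd hpr.pos h4
            have h6 := Nat.pow_le_pow_right hpr.pos hk3
            nlinarith
        have hk4 : k = 1 := by omega
        rw [hk4, pow_one]
    _ = Nat.card Γ * (Nat.card S + (p - 1) * fxt Γ S) := by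
      rw [← Finset.mul_sum, Finset.sum_add_distrib, ← Finset.mul_sum, ← fxt_eq, Finset.sum_const,
        smul_eq_mul, mul_one, Finset.card_univ, Nat.card_eq_fintype_card (α := S)]

/-- the difference of the numbers of fixed points -/
theorem small_lt (N : Subgroup Γ) [N.Normal] (hN : IsPGroup p (Γ ⧸ N)) (S T : Type) [Finite S]
    [MulAction Γ S] (hS : ∀ g ∈ N, ∀ s : S, g • s = s) [Finite T] [MulAction Γ T]
    (hT : ∀ g ∈ N, ∀ s : T, g • s = s) (h1 : Nat.card S = Nat.card T)
    (h2 : numStable S (⊤ : Subgroup Γ) ⊤ = numStable T (⊤ : Subgroup Γ) ⊤)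
    (h3 : fxt Γ T < fxt Γ S) :
    (p : ℤ) ∣ (fxt Γ S : ℤ) - fxt Γ T ∧ p * ((fxt Γ S : ℤ) - fxt Γ T + 1) ≤ Nat.card S := by
  have hpr : p.Prime := hpf.out
  have hp2 : 2 ≤ p := hpr.two_le
  have m1 : Nat.card S ≡ fxt Γ S [MOD p] := fix_modEq N hN hS
  have m2 : Nat.card T ≡ fxt Γ T [MOD p] := fix_modEq N hN hT
  have m3 : (p : ℤ) ∣ (fxt Γ S : ℤ) - fxt Γ T := by
    rw [← h1] at m2
    exact (Nat.modEq_iff_dvd.1 (m2.symm.trans m1))
  refine ⟨m3, ?_⟩
  have b1 := orb_bd N hN T hT
  have b2 := orb_lt (Γ := Γ) S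
  have hle : fxt Γ S ≤ Nat.card S := fix_le
  have hpos : 0 < Nat.card Γ := Nat.card_pos
  -- there is an orbit with more than one point
  have b3 : fxt Γ S < numStable S (⊤ : Subgroup Γ) ⊤ := by
    rcases Nat.lt_or_ge (fxt Γ S) (Nat.card S) with h4 | h4
    · by_contra h5
      push Not at h5
      have h6 := Nat.mul_le_mul_left (Nat.card Γ) h5
      omega
    · exfalso
      have h5 : fxt Γ S = Nat.card S := le_antisymm hle h4
      rw [h5] at b2
      have h6 : Nat.card S ≤ numStable S (⊤ : Subgroup Γ) ⊤ := by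
        by_contra h7
        push Not at h7
        have h8 := Nat.mul_lt_mul_of_pos_left h7 hpos
        omega
      rw [h2] at h6
      have h7 := Nat.mul_le_mul_left p h6
      have h8 : p * Nat.card T ≤ Nat.card T + (p - 1) * fxt Γ T := by
        rw [← h1]
        rw [← h1] at b1
        exact h7.trans b1
      have h9 : p = 1 + (p - 1) := by omega
      have h10 : (p - 1) * Nat.card T ≤ (p - 1) * fxt Γ T := by
        have h11 : p * Nat.card T = Nat.card T + (p - 1) * Nat.card T := by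
          conv_lhs => rw [h9]
          ring
        omega
      have h11 := Nat.le_of_mul_le_mul_left h10 (by omega)
      omega
  rw [← h2, ← h1] at b1
  have h4 := Nat.mul_le_mul_left p (Nat.succ_le_of_lt b3)
  have h5 := h4.trans b1
  have h6 : ((p - 1 : ℕ) : ℤ) = (p : ℤ) - 1 := by
    rw [Nat.cast_sub (by omega)]
    rfl
  have h7 : (p : ℤ) * ((fxt Γ S : ℤ) + 1) ≤ Nat.card S + ((p : ℤ) - 1) * fxt Γ T := by
    rw [← h6]
    exact_mod_cast h5
  have h8 : (0 : ℤ) ≤ fxt Γ T := Int.natCast_nonneg _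
  nlinarith

theorem small (N : Subgroup Γ) [N.Normal] (hN : IsPGroup p (Γ ⧸ N)) (S T : Type) [Finite S]
    [MulAction Γ S] (hS : ∀ g ∈ N, ∀ s : S, g • s = s) [Finite T] [MulAction Γ T]
    (hT : ∀ g ∈ N, ∀ s : T, g • s = s) (h1 : Nat.card S = Nat.card T)
    (h2 : numStable S (⊤ : Subgroup Γ) ⊤ = numStable T (⊤ : Subgroup Γ) ⊤)
    (h3 : fxt Γ S ≠ fxt Γ T) :
    (p : ℤ) ∣ (fxt Γ S : ℤ) - fxt Γ T ∧ p * (|(fxt Γ S : ℤ) - fxt Γ T| + 1) ≤ Nat.card S := by
  rcases Nat.lt_or_gt_of_ne h3 with h | h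
  · obtain ⟨h4, h5⟩ := small_lt N hN T S hT hS h1.symm h2.symm h
    refine ⟨by rw [← dvd_neg, neg_sub]; exact h4, ?_⟩
    rw [abs_sub_comm, abs_of_pos (by omega), h1]
    exact h5
  · obtain ⟨h4, h5⟩ := small_lt N hN S T hS hT h1 h2 h
    refine ⟨h4, ?_⟩
    rw [abs_of_pos (by omega)]
    exact h5

end small

section rel

variable {Γ : Type} [Group Γ] [Finite Γ] {p : ℕ} [hpf : Fact p.Prime]

/-- passage to the set of the orbits of `Δ` as a set with an action of `D` -/
theorem rel_data (S : Type) [MulAction Γ S] {Δ D : Subgroup Γ} (hle : Δ ≤ D)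
    [(Δ.subgroupOf D).Normal] :
    Nat.card (Cl (Δ.subgroupOf D) S) = numStable S Δ Δ ∧
      numStable (Cl (Δ.subgroupOf D) S) (⊤ : Subgroup D) ⊤ = numStable S D D ∧
      fxt D (Cl (Δ.subgroupOf D) S) = numStable S Δ D := by
  have htop : (⊤ : Subgroup D) = D.subgroupOf D := (Subgroup.subgroupOf_self D).symm
  refine ⟨?_, ?_, ?_⟩
  · rw [so_self, cl_sub hle]
  · rw [so_cl (Δ.subgroupOf D) le_top, htop, so_sub S le_rfl le_rfl]
  · rw [← so_sub S hle le_rfl, Subgroup.subgroupOf_self, so_top]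
    rfl

/-- **The difference for sets with the same numbers of `Δ`-orbits and of `D`-orbits.** -/
theorem rel_small (G : Subgroup Γ) [G.Normal] (hG : IsPGroup p (Γ ⧸ G)) (S T : Type) [Finite S]
    [Finite T] [MulAction Γ S] [MulAction Γ T] {Δ D : Subgroup Γ} (hGΔ : G ≤ Δ) (hle : Δ ≤ D)
    (hn : (Δ.subgroupOf D).Normal) (h1 : numStable S Δ Δ = numStable T Δ Δ)
    (h2 : numStable S D D = numStable T D D) (h3 : numStable S Δ D ≠ numStable T Δ D) :
    (p : ℤ) ∣ (numStable S Δ D : ℤ) - numStable T Δ D ∧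
      p * (|(numStable S Δ D : ℤ) - numStable T Δ D| + 1) ≤ numStable S Δ Δ := by
  obtain ⟨a1, a2, a3⟩ := rel_data S hle
  obtain ⟨b1, b2, b3⟩ := rel_data T hle
  have h4 := small (p := p) (Δ.subgroupOf D) (pq_rel hG hGΔ hn) (Cl (Δ.subgroupOf D) S)
    (Cl (Δ.subgroupOf D) T) (fun g hg C => smul_cl _ S g hg C)
    (fun g hg C => smul_cl _ T g hg C) (by rw [a1, b1, h1]) (by rw [a2, b2, h2])
    (by rw [a3, b3]; exact h3)
  rw [a3, b3, a1] at h4
  exact h4

theorem rel_exact (G : Subgroup Γ) [G.Normal] (hG : IsPGroup p (Γ ⧸ G)) (S : Type) [Finite S]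
    [MulAction Γ S] {Δ D : Subgroup Γ} (hGΔ : G ≤ Δ) (hle : Δ ≤ D)
    (hn : (Δ.subgroupOf D).Normal) (h : numStable S Δ Δ < p ^ 2 ∨ Δ.relIndex D ∣ p) :
    p * numStable S D D = numStable S Δ Δ + (p - 1) * numStable S Δ D := by
  obtain ⟨a1, a2, a3⟩ := rel_data S hle
  have h4 := orb_exact (p := p) (Δ.subgroupOf D) (pq_rel hG hGΔ hn) (Cl (Δ.subgroupOf D) S)
    (fun g hg C => smul_cl _ S g hg C) (by rw [a1]; exact h)
  rw [a1, a2, a3] at h4
  exact h4

/-- **Reduction to the quotients of type `(p, p)` and large sets.** -/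
theorem comb2 (G : Subgroup Γ) [G.Normal] (hG : IsPGroup p (Γ ⧸ G)) (S T : Type) [Finite S]
    [Finite T] [MulAction Γ S] [MulAction Γ T]
    (h1 : ∀ Δ : Subgroup Γ, G ≤ Δ → numStable S Δ Δ = numStable T Δ Δ)
    (h2 : ∀ Δ D : Subgroup Γ, G ≤ Δ → Δ ≤ D → (Δ.subgroupOf D).Normal →
      Δ.relIndex D = p ^ 2 → (∀ x ∈ D, x ^ p ∈ Δ) → p * (p + 1) ≤ numStable S Δ Δ →
      numStable S Δ D = numStable T Δ D) (Δ D : Subgroup Γ) (hGΔ : G ≤ Δ) (hle : Δ ≤ D)
    (hn : (Δ.subgroupOf D).Normal) : numStable S Δ D = numStable T Δ D := by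
  have hpr : p.Prime := hpf.out
  have hp2 : 2 ≤ p := hpr.two_le
  refine comb (p := p) G hG S T ?_ _ Δ D rfl hGΔ hle hn
  intro Δ D hGΔ hle hn hpow hab hi
  obtain ⟨k, hk, hk'⟩ := (Nat.dvd_prime_pow hpr).1 hi
  by_cases hk2 : k = 2
  · subst hk2
    by_cases h3 : p * (p + 1) ≤ numStable S Δ Δ
    · exact h2 Δ D hGΔ hle hn hk' hpow h3
    · by_contra h4
      obtain ⟨h5, h6⟩ := rel_small (p := p) G hG S T hGΔ hle hn (h1 Δ hGΔ)
        (h1 D (hGΔ.trans hle)) h4
      have h7 : (0 : ℤ) < |(numStable S Δ D : ℤ) - numStable T Δ D| := by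
        rw [abs_pos]
        intro h8
        apply h4
        have h9 : (numStable S Δ D : ℤ) = numStable T Δ D := by linarith
        exact_mod_cast h9
      have h8 : (p : ℤ) ≤ |(numStable S Δ D : ℤ) - numStable T Δ D| :=
        Int.le_of_dvd h7 ((dvd_abs _ _).2 h5)
      have h9 : (numStable S Δ Δ : ℤ) < p * (p + 1) := by
        push Not at h3
        exact_mod_cast h3
      have h10 : (0 : ℤ) < p := by exact_mod_cast hpr.pos
      nlinarith
  · have h3 : Δ.relIndex D ∣ p := by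
      rw [hk']
      calc p ^ k ∣ p ^ 1 := pow_dvd_pow p (by omega)
        _ = p := pow_one p
    have e1 := rel_exact (p := p) G hG S hGΔ hle hn (Or.inr h3)
    have e2 := rel_exact (p := p) G hG T hGΔ hle hn (Or.inr h3)
    rw [h1 D (hGΔ.trans hle), e2, h1 Δ hGΔ] at e1
    have e3 := Nat.add_left_cancel e1
    exact (Nat.eq_of_mul_eq_mul_left (by omega) e3).symm

end rel

end Pool.Agent.V7H17.NE
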