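import Pool.Agent.V7H17.NE.StoI
import Pool.Agent.V7H17.NE.Small

/-!
# Navarro's equality for the covering blocks
-/

set_option autoImplicit false
set_option linter.unusedSectionVars false

open scoped Classical BigOperators

noncomputable section

namespace Pool.Agent.V7H17.NE

open Pool.Agent.N85.WM
open Pool.Agent.Y63.NV

section eqv

variable {Γ : Type} [Group Γ]

theorem numStable_equiv {S T : Type} [MulAction Γ S] [MulAction Γ T] (e : S ≃ T)
    (he : ∀ (g : Γ) (s : S), e (g • s) = g • e s) (Δ D : Subgroup Γ) :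
    numStable S Δ D = numStable T Δ D := by
  unfold numStable
  let E : Cl Δ S ≃ Cl Δ T := Quotient.congr e fun a b => by
    constructor
    · rintro ⟨g, hg, h⟩
      exact ⟨g, hg, by rw [← he, h]⟩
    · rintro ⟨g, hg, h⟩
      exact ⟨g, hg, e.injective (by rw [he, h])⟩
  have hE : ∀ s : S, E (Cl.mk Δ s) = Cl.mk Δ (e s) := fun s => rfl
  refine Nat.card_congr (E.subtypeEquiv fun C => ?_)
  constructor
  · intro h g hg t ht
    obtain ⟨s, rfl⟩ := e.surjective t
    rw [← he, ← hE]
    rw [← hE] at ht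
    rw [h g hg s (E.injective ht)]
  · intro h g hg s hs
    apply E.injective
    rw [hE, he]
    refine h g hg (e s) ?_
    rw [← hE, hs]

end eqv

variable {F : Type} [Field F] [IsAlgClosed F] {p : ℕ} [Fact p.Prime] [CharP F p]
  {Γ : Type} [Group Γ] [Finite Γ]

/-- the covering block in the intermediate group -/
theorem covers_mid {G Δ D : Subgroup Γ} (hle : G ≤ Δ) (hΔ : Δ ≤ D) {B : (G → F) → F}
    {b : (Δ → F) → F} (hb : Covers hle B b) :
    Covers (Γ := D) (G := G.subgroupOf D) (Δ := Δ.subgroupOf D) (fun _ hx => hle hx)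
      (blkOf (hle.trans hΔ) B) (blkOf hΔ b) := by
  refine ⟨isBlock_comp (eps hΔ) hb.1, fun z hz => ?_⟩
  have h1 := hb.2 (fun y : Δ => z ((eps hΔ).symm y)) ⟨fun g x => ?_, fun x hx => ?_⟩
  · exact h1
  · show z ((eps hΔ).symm (g * x * g⁻¹)) = z ((eps hΔ).symm x)
    rw [map_mul, map_mul, map_inv]
    exact hz.conj _ _
  · exact hz.supp _ hx

theorem sto_both (G : Subgroup Γ) [G.Normal] (red : integralClosure ℤ ℂ →+* F)
    (hG : IsPGroup p (Γ ⧸ G)) (B : (G → F) → F) (hB : IsBlock B)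
    [hI : Fact (IsInvBlock G B)] {Δ D : Subgroup Γ} (hle : G ≤ Δ) (hΔ : Δ ≤ D)
    (hn : (Δ.subgroupOf D).Normal) {b : (Δ → F) → F} (hb : Covers hle B b) :
    numIBr (Δ.subgroupOf D) (blkOf hΔ b) = numStable (IB B) Δ D ∧
      navSum p red (Δ.subgroupOf D) (blkOf hΔ b) = numStable (WT G p red B) Δ D := by
  have hI' : Fact (IsInvBlock (G.subgroupOf D) (blkOf (hle.trans hΔ) B)) :=
    ⟨isInv_of (hle.trans hΔ) hI.out⟩
  obtain ⟨w, hw⟩ := exists_sepEl G hB hI.out
  have hwD := hw.mid (hle.trans hΔ)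
  have hBD := isBlock_of (hle.trans hΔ) hB
  have hpD := pq_mid G hG D
  have hcov := covers_mid hle hΔ hb
  have hinv := inv_up (G.subgroupOf D) hpD hBD hwD _ hcov
  constructor
  · rw [ibr_sto (G.subgroupOf D) hpD (blkOf (hle.trans hΔ) B) hBD hwD _ hcov,
      numStable_equiv (T := IB B) (ibE (hle.trans hΔ) B) (fun g φ => rfl),
      ← so_sub (IB B) hΔ le_rfl, Subgroup.subgroupOf_self]
  · have hle' : G.subgroupOf D ≤ Δ.subgroupOf D := fun _ hx => hle hx
    rw [navSum_eq (B := blkOf hΔ b) _ p red hcov.1 hinv,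
      rhs_sto (G.subgroupOf D) red hpD (blkOf (hle.trans hΔ) B) hBD hwD _ hcov,
      so_cl (G.subgroupOf D) hle',
      numStable_equiv (T := WT G p red B) (WTe (hle.trans hΔ) p red B)
        (fun g w => WTe_smul (hle.trans hΔ) p red B g w),
      ← so_sub (WT G p red B) hΔ le_rfl, Subgroup.subgroupOf_self]

/-- the numbers for a covering block -/
theorem lw_sto (G : Subgroup Γ) [G.Normal] (red : integralClosure ℤ ℂ →+* F)
    (hG : IsPGroup p (Γ ⧸ G)) (B : (G → F) → F) (hB : IsBlock B)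
    [hI : Fact (IsInvBlock G B)] {Δ : Subgroup Γ} (hle : G ≤ Δ) {b : (Δ → F) → F}
    (hb : Covers hle B b) : numIrrBlock b = numStable (IB B) Δ Δ ∧
      numWts p red b = numStable (WT G p red B) Δ Δ := by
  obtain ⟨h1, h2⟩ := lw_cov G red hG B hB hle hb
  rw [so_self, so_self, h1]
  exact ⟨rfl, h2.trans (cl_cl G hle (WT G p red B))⟩

theorem self_norm (D : Subgroup Γ) : (D.subgroupOf D).Normal := by
  rw [Subgroup.subgroupOf_self]
  infer_instance

/-- `B` covers itself -/
theorem covers_self (G : Subgroup Γ) [G.Normal] {B : (G → F) → F} (hB : IsBlock B) :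
    Covers (le_refl G) B B := ⟨hB, fun _ _ => rfl⟩

/-- the numbers for `B` -/
theorem sto_G (G : Subgroup Γ) [G.Normal] (red : integralClosure ℤ ℂ →+* F)
    (hG : IsPGroup p (Γ ⧸ G)) (B : (G → F) → F) (hB : IsBlock B)
    [hI : Fact (IsInvBlock G B)] {D : Subgroup Γ} (hle : G ≤ D) :
    numIBr (G.subgroupOf D) (blkOf hle B) = numStable (IB B) G D ∧
      navSum p red (G.subgroupOf D) (blkOf hle B) = numStable (WT G p red B) G D :=
  sto_both G red hG B hB (le_refl G) hle inferInstance (covers_self G hB)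

end Pool.Agent.V7H17.NE
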