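import Pool.Agent.V7H17.NE.RankM

/-!
# Equivariant bijections for the covering blocks and the permutation modules over `F`
-/

set_option autoImplicit false
set_option linter.unusedSectionVars false

open scoped Classical BigOperators

noncomputable section

namespace Pool.Agent.V7H17.NE

open Pool.Agent.N85.WM
open Pool.Agent.Y63.NV

section sets

variable {Γ : Type} [Group Γ] [Finite Γ]

/-- Burnside's theorem on marks for a trivial action of `G` -/
theorem marks_sup (G : Subgroup Γ) [G.Normal] (S T : Type) [Finite S] [Finite T] [MulAction Γ S]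
    [MulAction Γ T] (hS : ∀ g ∈ G, ∀ s : S, g • s = s) (hT : ∀ g ∈ G, ∀ t : T, g • t = t)
    (h : ∀ D : Subgroup Γ, G ≤ D → fx S D = fx T D) :
    ∃ e : S ≃ T, ∀ (g : Γ) (s : S), e (g • s) = g • e s := by
  refine marks fun H => ?_
  have h1 := h (G ⊔ H) le_sup_left
  unfold fx at h1
  rw [Nat.card_congr (Equiv.subtypeEquivRight fun s : S => fixed_sup G hS H s),
    Nat.card_congr (Equiv.subtypeEquivRight fun t : T => fixed_sup G hT H t)]
  exact h1

theorem fx_bij {S T : Type} [MulAction Γ S] [MulAction Γ T] (e : S ≃ T)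
    (he : ∀ (g : Γ) (s : S), e (g • s) = g • e s) (D : Subgroup Γ) : fx S D = fx T D := by
  unfold fx
  refine Nat.card_congr (e.subtypeEquiv fun s => ?_)
  constructor
  · intro h g hg
    rw [← he, h g hg]
  · intro h g hg
    apply e.injective
    rw [he, h g hg]

variable (F : Type) [Field F] (p : ℕ) [Fact p.Prime] [CharP F p]

/-- the permutation modules over `F` -/
theorem perm_iff (G : Subgroup Γ) [G.Normal] (hG : IsPGroup p (Γ ⧸ G)) (S T : Type) [Finite S]
    [Finite T] [MulAction Γ S] [MulAction Γ T] (hS : ∀ g ∈ G, ∀ s : S, g • s = s)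
    (hT : ∀ g ∈ G, ∀ t : T, g • t = t) :
    (∃ e : (S →₀ F) ≃ₗ[F] (T →₀ F), ∀ (g : Γ) (x : S →₀ F),
      e (Finsupp.mapDomain (fun s => g • s) x) = Finsupp.mapDomain (fun t => g • t) (e x)) ↔
    ∀ D : Subgroup Γ, G ≤ D → fx S D = fx T D := by
  constructor
  · rintro ⟨e, he⟩ D hD
    have h1 := two_bases (F := F) (M := T →₀ F) (Γ := D) (p := p) (G.subgroupOf D)
      (pq_mid G hG D) S T (fun g hg s => hS g hg s) (fun g hg t => hT g hg t)
      (fun g => Finsupp.lmapDomain F F (fun t => g • t)) (fun s => e (Finsupp.single s 1))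
      (fun t => Finsupp.single t 1) ?_ ?_ ?_ ?_ ?_
    · unfold fx
      rw [Nat.card_congr (Equiv.subtypeEquivRight fun s : S =>
        (⟨fun h g => h g g.2, fun h g hg => h ⟨g, hg⟩⟩ :
          (∀ g ∈ D, g • s = s) ↔ ∀ g : D, g • s = s)),
        Nat.card_congr (Equiv.subtypeEquivRight fun s : T =>
        (⟨fun h g => h g g.2, fun h g hg => h ⟨g, hg⟩⟩ :
          (∀ g ∈ D, g • s = s) ↔ ∀ g : D, g • s = s))]
      exact h1
    · have h2 := (Finsupp.basisSingleOne (R := F) (ι := S)).linearIndependent
      have h3 := h2.map' e.toLinearMap e.ker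
      have h4 : (fun s => e (Finsupp.single s (1 : F))) =
          e.toLinearMap ∘ (Finsupp.basisSingleOne (R := F) (ι := S)) := by
        funext s
        simp
      rw [h4]
      exact h3
    · have h2 := (Finsupp.basisSingleOne (R := F) (ι := T)).linearIndependent
      have h4 : (fun t => Finsupp.single t (1 : F)) =
          (Finsupp.basisSingleOne (R := F) (ι := T)) := by
        funext s
        simp
      rw [h4]
      exact h2
    · intro g s
      show Finsupp.mapDomain (fun t => (g : Γ) • t) (e (Finsupp.single s 1)) =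
        e (Finsupp.single ((g : Γ) • s) 1)
      rw [← he, Finsupp.mapDomain_single]
    · intro g t
      show Finsupp.mapDomain (fun t => (g : Γ) • t) (Finsupp.single t 1) =
        Finsupp.single ((g : Γ) • t) 1
      rw [Finsupp.mapDomain_single]
    · have h5 : Submodule.span F (Set.range (fun t : T => Finsupp.single t (1 : F))) = ⊤ := by
        have h6 := (Finsupp.basisSingleOne (R := F) (ι := T)).span_eq
        have h4 : (fun t => Finsupp.single t (1 : F)) =
            (Finsupp.basisSingleOne (R := F) (ι := T)) := by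
          funext s
          simp
        rw [h4]
        exact h6
      rw [h5]
      have h7 : (fun s => e (Finsupp.single s (1 : F))) =
          e.toLinearMap ∘ (Finsupp.basisSingleOne (R := F) (ι := S)) := by
        funext s
        simp
      rw [h7, Set.range_comp, Submodule.span_image,
        (Finsupp.basisSingleOne (R := F) (ι := S)).span_eq, Submodule.map_top]
      exact LinearMap.range_eq_top.2 e.surjective
  · intro h
    obtain ⟨e, he⟩ := marks_sup G S T hS hT h
    refine ⟨Finsupp.domLCongr e, fun g x => ?_⟩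
    rw [Finsupp.domLCongr_apply, Finsupp.domLCongr_apply, Finsupp.domCongr_apply,
      Finsupp.domCongr_apply, Finsupp.equivMapDomain_eq_mapDomain,
      Finsupp.equivMapDomain_eq_mapDomain, ← Finsupp.mapDomain_comp, ← Finsupp.mapDomain_comp]
    congr 1
    funext s
    exact he g s

end sets

variable {F : Type} [Field F] [IsAlgClosed F] {p : ℕ} [hpf : Fact p.Prime] [CharP F p]
  {Γ : Type} [Group Γ] [Finite Γ]

/-- **The irreducible characters and the weights of a covering block as `Γ`-sets.** -/
theorem up_equiv (G : Subgroup Γ) [G.Normal] (red : integralClosure ℤ ℂ →+* F)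
    (hG : IsPGroup p (Γ ⧸ G)) (B : (G → F) → F) (hB : IsBlock B)
    [hI : Fact (IsInvBlock G B)] (Δ : Subgroup Γ) [Δ.Normal] (hle : G ≤ Δ) (b : (Δ → F) → F)
    (hb : Covers hle B b) [hI' : Fact (IsInvBlock Δ b)] :
    (∃ e : IB b ≃ Cl Δ (IB B), ∀ (g : Γ) (φ : IB b), e (g • φ) = g • e φ) ∧
    (∃ e : Cl Δ (WT Δ p red b) ≃ Cl Δ (WT G p red B),
      ∀ (g : Γ) (C : Cl Δ (WT Δ p red b)), e (g • C) = g • e C) := by
  have hfin : Finite (IB B) := finite_IB B
  have hfin' : Finite (IB b) := finite_IB b
  have hpΔ : IsPGroup p (Γ ⧸ Δ) := pq_of_le hG hle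
  constructor
  · refine marks_sup Δ _ _ (fun g hg φ => IB_triv Δ b g hg φ) (fun g hg C => smul_cl Δ _ g hg C)
      fun D hD => ?_
    rw [← iB_fix_card Δ b hD, ← so_fx]
    exact (sto_both G red hG B hB hle hD inferInstance hb).1
  · refine marks_sup Δ _ _ (fun g hg C => smul_cl Δ _ g hg C) (fun g hg C => smul_cl Δ _ g hg C)
      fun D hD => ?_
    rw [← nav_fix_card Δ red hpΔ b hb.1 hD, ← so_fx]
    exact (sto_both G red hG B hB hle hD inferInstance hb).2

/-- **Navarro's equality and the permutation modules over `F`.** -/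
theorem nav_perm (G : Subgroup Γ) [G.Normal] (red : integralClosure ℤ ℂ →+* F)
    (hG : IsPGroup p (Γ ⧸ G)) (B : (G → F) → F) (hB : IsBlock B)
    [hI : Fact (IsInvBlock G B)] :
    (∀ (D : Subgroup Γ) (hle : G ≤ D),
        numIBr (G.subgroupOf D) (blkOf hle B) = navSum p red (G.subgroupOf D) (blkOf hle B)) ↔
    ∃ e : (IB B →₀ F) ≃ₗ[F] (Cl G (WT G p red B) →₀ F), ∀ (g : Γ) (x : IB B →₀ F),
      e (Finsupp.mapDomain (fun φ => g • φ) x) = Finsupp.mapDomain (fun C => g • C) (e x) := by
  have hfin : Finite (IB B) := finite_IB B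
  rw [perm_iff F p G hG (IB B) (Cl G (WT G p red B)) (fun g hg φ => IB_triv G B g hg φ)
    (fun g hg C => smul_cl G _ g hg C)]
  refine forall_congr' fun D => forall_congr' fun hle => ?_
  rw [iB_fix_card G B hle, nav_fix_card G red hG B hB hle]

end Pool.Agent.V7H17.NE
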