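import Pool.Agent.V7H17.NE.Rank

/-!
# Navarro's equality and the weight conjecture for the covering blocks: the main statements
-/

set_option autoImplicit false
set_option linter.unusedSectionVars false

open scoped Classical BigOperators

noncomputable section

namespace Pool.Agent.V7H17.NE

open Pool.Agent.N85.WM
open Pool.Agent.Y63.NV

variable {F : Type} [Field F] [IsAlgClosed F] {p : ℕ} [hpf : Fact p.Prime] [CharP F p]
  {Γ : Type} [Group Γ] [Finite Γ]

/-- **The rank two reduction.** -/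
theorem rank_tfae (G : Subgroup Γ) [G.Normal] (red : integralClosure ℤ ℂ →+* F)
    (hG : IsPGroup p (Γ ⧸ G)) (B : (G → F) → F) (hB : IsBlock B)
    [hI : Fact (IsInvBlock G B)] :
    List.TFAE [∀ (D : Subgroup Γ) (hle : G ≤ D),
        numIBr (G.subgroupOf D) (blkOf hle B) = navSum p red (G.subgroupOf D) (blkOf hle B),
      ∀ (Δ D : Subgroup Γ) (hle : G ≤ Δ) (hΔ : Δ ≤ D), (Δ.subgroupOf D).Normal →
        ∀ b : (Δ → F) → F, Covers hle B b →
        numIBr (Δ.subgroupOf D) (blkOf hΔ b) = navSum p red (Δ.subgroupOf D) (blkOf hΔ b),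
      (∀ (Δ : Subgroup Γ) (hle : G ≤ Δ) (b : (Δ → F) → F),
        IsCyclic (Δ.map (QuotientGroup.mk' G)) → Covers hle B b →
        numIrrBlock b = numWts p red b) ∧
      ∀ (Δ D : Subgroup Γ) (hle : G ≤ Δ) (hΔ : Δ ≤ D), (Δ.subgroupOf D).Normal →
        Δ.relIndex D = p ^ 2 → (∀ x ∈ D, x ^ p ∈ Δ) →
        ∀ b : (Δ → F) → F, Covers hle B b → p * (p + 1) ≤ numIrrBlock b →
        numIBr (Δ.subgroupOf D) (blkOf hΔ b) = navSum p red (Δ.subgroupOf D) (blkOf hΔ b)] := by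
  have hfin : Finite (IB B) := finite_IB B
  tfae_have 1 → 2 := by
    intro h Δ D hle hΔ hn b hb
    obtain ⟨e, he⟩ := (equiv_iff G p red hG B hB).1 h
    obtain ⟨h1, h2⟩ := sto_both G red hG B hB hle hΔ hn hb
    rw [h1, h2, numStable_equiv e he, so_cl G hle]
  tfae_have 2 → 3 := by
    intro h
    refine ⟨fun Δ hle b _ hb => ?_, fun Δ D hle hΔ hn _ _ b hb _ => h Δ D hle hΔ hn b hb⟩
    have h1 := h Δ Δ hle le_rfl (self_norm Δ) b hb
    obtain ⟨h2, h3⟩ := sto_both G red hG B hB hle le_rfl (self_norm Δ) hb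
    obtain ⟨h4, h5⟩ := lw_sto G red hG B hB hle hb
    rw [h2, h3, ← h4, ← h5] at h1
    exact h1
  tfae_have 3 → 1 := by
    rintro ⟨h1, h2⟩ D hle
    have h3 : ∀ (Δ : Subgroup Γ) (hle : G ≤ Δ) (b : (Δ → F) → F), Covers hle B b →
        numIrrBlock b = numWts p red b := ((cov_tfae G red hG B hB).out 1 0).1 h1
    obtain ⟨h4, h5⟩ := sto_G G red hG B hB hle
    rw [h4, h5]
    refine comb2 (p := p) G hG (IB B) (WT G p red B) ?_ ?_ G D le_rfl hle inferInstance
    · intro Δ hΔ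
      obtain ⟨b, hb, -⟩ := cov_unique G hG B hB hΔ
      obtain ⟨h6, h7⟩ := lw_sto G red hG B hB hΔ hb
      rw [← h6, ← h7]
      exact h3 Δ hΔ b hb
    · intro Δ D hle hΔ hn hi hp hl
      obtain ⟨b, hb, -⟩ := cov_unique G hG B hB hle
      obtain ⟨h6, h7⟩ := sto_both G red hG B hB hle hΔ hn hb
      rw [← h6, ← h7]
      refine h2 Δ D hle hΔ hn hi hp b hb ?_
      rw [(lw_sto G red hG B hB hle hb).1]
      exact hl
  tfae_finish

theorem rank_iff (G : Subgroup Γ) [G.Normal] (red : integralClosure ℤ ℂ →+* F)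
    (hG : IsPGroup p (Γ ⧸ G)) (B : (G → F) → F) (hB : IsBlock B)
    [hI : Fact (IsInvBlock G B)] :
    (∀ (D : Subgroup Γ) (hle : G ≤ D),
        numIBr (G.subgroupOf D) (blkOf hle B) = navSum p red (G.subgroupOf D) (blkOf hle B)) ↔
      ((∀ (Δ : Subgroup Γ) (hle : G ≤ Δ) (b : (Δ → F) → F),
        IsCyclic (Δ.map (QuotientGroup.mk' G)) → Covers hle B b →
        numIrrBlock b = numWts p red b) ∧
      ∀ (Δ D : Subgroup Γ) (hle : G ≤ Δ) (hΔ : Δ ≤ D), (Δ.subgroupOf D).Normal →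
        Δ.relIndex D = p ^ 2 → (∀ x ∈ D, x ^ p ∈ Δ) →
        ∀ b : (Δ → F) → F, Covers hle B b → p * (p + 1) ≤ numIrrBlock b →
        numIBr (Δ.subgroupOf D) (blkOf hΔ b) = navSum p red (Δ.subgroupOf D) (blkOf hΔ b)) :=
  (rank_tfae G red hG B hB).out 0 2

/-- the number of the irreducible characters of a covering block is at most that of `B` -/
theorem l_le (G : Subgroup Γ) [G.Normal] (red : integralClosure ℤ ℂ →+* F)
    (hG : IsPGroup p (Γ ⧸ G)) (B : (G → F) → F) (hB : IsBlock B)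
    [hI : Fact (IsInvBlock G B)] {Δ : Subgroup Γ} (hle : G ≤ Δ) {b : (Δ → F) → F}
    (hb : Covers hle B b) : numIrrBlock b ≤ numIrrBlock B := by
  have hfin : Finite (IB B) := finite_IB B
  have h0 : numIrrBlock B = Nat.card (IB B) := rfl
  rw [(lw_cov G red hG B hB hle hb).1, h0]
  exact Nat.card_le_card_of_surjective (Cl.mk Δ) (mk_surj Δ (IB B))

/-- **Small blocks, all intermediate groups.** -/
theorem small_all (G : Subgroup Γ) [G.Normal] (red : integralClosure ℤ ℂ →+* F)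
    (hG : IsPGroup p (Γ ⧸ G)) (B : (G → F) → F) (hB : IsBlock B)
    [hI : Fact (IsInvBlock G B)] (hl : numIrrBlock B < p * (p + 1)) :
    (∀ (D : Subgroup Γ) (hle : G ≤ D),
        numIBr (G.subgroupOf D) (blkOf hle B) = navSum p red (G.subgroupOf D) (blkOf hle B)) ↔
      ∀ (Δ : Subgroup Γ) (hle : G ≤ Δ) (b : (Δ → F) → F),
        IsCyclic (Δ.map (QuotientGroup.mk' G)) → Covers hle B b →
        numIrrBlock b = numWts p red b := by
  rw [rank_iff G red hG B hB]
  refine ⟨fun h => h.1, fun h => ⟨h, fun Δ D hle hΔ hn _ _ b hb h2 => ?_⟩⟩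
  have h3 := l_le G red hG B hB hle hb
  omega

/-- **Two covering blocks.** -/
theorem two_blocks (G : Subgroup Γ) [G.Normal] (red : integralClosure ℤ ℂ →+* F)
    (hG : IsPGroup p (Γ ⧸ G)) (B : (G → F) → F) (hB : IsBlock B)
    [hI : Fact (IsInvBlock G B)] (Δ D : Subgroup Γ) (hle : G ≤ Δ) (hΔ : Δ ≤ D)
    (hn : (Δ.subgroupOf D).Normal)
    (hfr : ∀ H : Subgroup Γ, G ≤ H → H ≤ D → H ⊔ Δ = D → H = D) (b : (Δ → F) → F)
    (b' : (D → F) → F) (hb : Covers hle B b) (hb' : Covers (hle.trans hΔ) B b') :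
    (numIBr (G.subgroupOf D) (blkOf (hle.trans hΔ) B) = numIBr (Δ.subgroupOf D) (blkOf hΔ b) ∧
      navSum p red (G.subgroupOf D) (blkOf (hle.trans hΔ) B) =
        navSum p red (Δ.subgroupOf D) (blkOf hΔ b)) ∧
    (numIrrBlock b = numWts p red b → numIrrBlock b' = numWts p red b' →
      numIBr (G.subgroupOf D) (blkOf (hle.trans hΔ) B) ≠
        navSum p red (G.subgroupOf D) (blkOf (hle.trans hΔ) B) →
      (p : ℤ) ∣ (numIBr (G.subgroupOf D) (blkOf (hle.trans hΔ) B) : ℤ) -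
        navSum p red (G.subgroupOf D) (blkOf (hle.trans hΔ) B) ∧
      p * (|(numIBr (G.subgroupOf D) (blkOf (hle.trans hΔ) B) : ℤ) -
        navSum p red (G.subgroupOf D) (blkOf (hle.trans hΔ) B)| + 1) ≤ numIrrBlock b ∧
      ¬ Δ.relIndex D ∣ p) ∧
    (numIrrBlock b = numWts p red b → numIrrBlock b < p ^ 2 →
      (numIBr (G.subgroupOf D) (blkOf (hle.trans hΔ) B) =
        navSum p red (G.subgroupOf D) (blkOf (hle.trans hΔ) B) ↔
        numIrrBlock b' = numWts p red b')) := by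
  have hfin : Finite (IB B) := finite_IB B
  have hpr : p.Prime := hpf.out
  have hp2 : 2 ≤ p := hpr.two_le
  obtain ⟨h1, h2⟩ := sto_both G red hG B hB hle hΔ hn hb
  obtain ⟨h3, h4⟩ := sto_G G red hG B hB (hle.trans hΔ)
  obtain ⟨h5, h6⟩ := lw_sto G red hG B hB hle hb
  obtain ⟨h7, h8⟩ := lw_sto G red hG B hB (hle.trans hΔ) hb'
  have f1 : numStable (IB B) G D = numStable (IB B) Δ D :=
    so_frat' (IB B) inferInstance hn hle hΔ hfr
  have f2 : numStable (WT G p red B) G D = numStable (WT G p red B) Δ D :=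
    so_frat' (WT G p red B) inferInstance hn hle hΔ hfr
  rw [h1, h2, h3, h4, h5, h6, h7, h8, f1, f2]
  refine ⟨⟨rfl, rfl⟩, fun a1 a2 a3 => ?_, fun a1 a2 => ?_⟩
  · obtain ⟨c1, c2⟩ := rel_small (p := p) G hG (IB B) (WT G p red B) hle hΔ hn a1 a2 a3
    refine ⟨c1, c2, fun c3 => a3 ?_⟩
    have e1 := rel_exact (p := p) G hG (IB B) hle hΔ hn (Or.inr c3)
    have e2 := rel_exact (p := p) G hG (WT G p red B) hle hΔ hn (Or.inr c3)
    rw [a2, e2, a1] at e1
    exact (Nat.eq_of_mul_eq_mul_left (by omega) (Nat.add_left_cancel e1)).symm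
  · have e1 := rel_exact (p := p) G hG (IB B) hle hΔ hn (Or.inl a2)
    have e2 := rel_exact (p := p) G hG (WT G p red B) hle hΔ hn (Or.inl (a1 ▸ a2))
    constructor
    · intro h
      rw [a1, h, ← e2] at e1
      exact Nat.eq_of_mul_eq_mul_left hpr.pos e1
    · intro h
      rw [h, e2, a1] at e1
      exact (Nat.eq_of_mul_eq_mul_left (by omega) (Nat.add_left_cancel e1)).symm

end Pool.Agent.V7H17.NE
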