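import Pool.Agent.V7H17.NE.OrbP
import Pool.Agent.V7H23.AW.Irr
import Pool.Agent.Y405.NV.Rinj

/-!
# The blocks which cover an invariant block
-/

set_option autoImplicit false
set_option linter.unusedSectionVars false

open scoped Classical BigOperators

noncomputable section

namespace Pool.Agent.V7H17.NE

open Pool.Agent.N85.WM
open Pool.Agent.Y63.NV
open Pool.Agent.Y63.NV.B286 (conv_class single_class cp cp_class block_cp)
open Pool.Agent.V7H23.AW (nil_of exists_irr)

section dl

/-- the identity element of the group algebra -/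
def dl (F G : Type) [Field F] [Group G] : G → F := Pi.single 1 1

variable {F G : Type} [Field F] [Group G]

theorem dl_one : dl F G 1 = 1 := by
  unfold dl
  rw [Pi.single_eq_same]

theorem dl_ne {x : G} (h : x ≠ 1) : dl F G x = 0 := by
  unfold dl
  rw [Pi.single_eq_of_ne h]

theorem dl_cls : IsClassFun (dl F G) := single_class

theorem dl_blk {B : (G → F) → F} (hB : IsBlock B) : B (dl F G) = 1 := hB.one

theorem cp_dl (f : G → F) : cp f 0 = dl F G := rfl

theorem dl_res (K : Subgroup G) (x : K) : dl F G (x : G) = dl F K x := by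
  by_cases h : x = 1
  · subst h
    rw [dl_one]
    exact dl_one
  · rw [dl_ne h, dl_ne]
    intro h'
    exact h (Subtype.ext h')

end dl

section sep

variable {F Γ : Type} [Field F] [Group Γ]

/-- an element of the centre of `F[Γ]` with support in `G` which separates the block `B` of `G` from
the other blocks of `G` -/
structure SepEl (G : Subgroup Γ) (B : (G → F) → F) (w : Γ → F) : Prop where
  inz : InZ G w
  one : B (fun x : G => w x) = 1
  zero : ∀ B' : (G → F) → F, IsBlock B' → ¬ BEq B B' → B' (fun x : G => w x) = 0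

theorem inz_cls {G : Subgroup Γ} {z : Γ → F} (hz : InZ G z) : IsClassFun (fun x : G => z x) :=
  fun g x => hz.conj g x

theorem inz_mono {G N : Subgroup Γ} (h : G ≤ N) {z : Γ → F} (hz : InZ G z) : InZ N z :=
  ⟨hz.conj, fun x hx => hz.supp x fun h' => hx (h h')⟩

theorem exists_sepEl [Finite Γ] (G : Subgroup Γ) [G.Normal] {B : (G → F) → F} (hB : IsBlock B)
    (hI : IsInvBlock G B) : ∃ w : Γ → F, SepEl G B w := by
  obtain ⟨e, he, h1, h2⟩ := exists_idem hB
  let w := Pool.Agent.Y405.NV.nrm G (Pool.Agent.Y405.NV.ofC e he.cl) (0 : F)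
  let zz : Γ → F := fun x => if hx : x ∈ G then w.1.coeff ⟨x, hx⟩ else 0
  have hzz : ∀ x : G, zz x = w.1.coeff x := fun x => dif_pos x.2
  have hZ : InZ G zz := by
    refine ⟨fun g x => ?_, fun x hx => dif_neg hx⟩
    by_cases hx : x ∈ G
    · have hx' : g * x * g⁻¹ ∈ G := (inferInstance : G.Normal).conj_mem x hx g
      have h1 := hzz ⟨x, hx⟩
      have h2 := hzz ⟨g * x * g⁻¹, hx'⟩
      simp only at h1 h2
      rw [h1, h2]
      have h3 : (Pool.Agent.Y405.NV.sg G g w).1.coeff ⟨g * x * g⁻¹, hx'⟩ =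
          w.1.coeff ⟨g * x * g⁻¹, hx'⟩ := by
        rw [Pool.Agent.Y405.NV.sg_nrm]
      rw [← h3, Pool.Agent.Y405.NV.coeff_sg,
        Pool.Agent.Y405.NV.conj_symm_eq G (x := ⟨x, hx⟩) (y := ⟨g * x * g⁻¹, hx'⟩) rfl]
    · have hx' : g * x * g⁻¹ ∉ G := by
        intro h
        apply hx
        have := (inferInstance : G.Normal).conj_mem _ h g⁻¹
        simpa [mul_assoc] using this
      show zz (g * x * g⁻¹) = zz x
      rw [show zz (g * x * g⁻¹) = 0 from dif_neg hx', show zz x = 0 from dif_neg hx]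
  have h0 : (fun x : G => zz x) = fun x : G => w.1.coeff x := funext hzz
  refine ⟨zz, hZ, ?_, fun B' hB' hne => ?_⟩
  · rw [h0]
    have h3 := Pool.Agent.Y405.NV.toRH_nrm G hB hI (Pool.Agent.Y405.NV.ofC e he.cl) (0 : F)
    rw [Pool.Agent.Y405.NV.toRH_ofC, h1, sub_zero, one_pow] at h3
    exact h3
  · rw [h0]
    have h3 : Pool.Agent.Y405.NV.toRH hB' w = 0 := by
      letI := Fintype.ofFinite Γ
      show Pool.Agent.Y405.NV.toRH hB' (∏ g : Γ,
        (Pool.Agent.Y405.NV.sg G g (Pool.Agent.Y405.NV.ofC e he.cl) -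
          Pool.Agent.Y405.NV.ofS (0 : F))) = 0
      rw [map_prod]
      refine Finset.prod_eq_zero (Finset.mem_univ (1 : Γ)) ?_
      have h4 : Pool.Agent.Y405.NV.sg G (1 : Γ) (Pool.Agent.Y405.NV.ofC e he.cl) =
          Pool.Agent.Y405.NV.ofC e he.cl := by
        apply Subtype.ext
        ext x
        rw [Pool.Agent.Y405.NV.coeff_sg, map_one]
        rfl
      rw [map_sub, h4, Pool.Agent.Y405.NV.toRH_ofC, Pool.Agent.Y405.NV.toRH_ofS, sub_zero]
      rcases he.val B' hB' with h5 | h5
      · exact h5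
      · exact absurd (h2 B' hB' h5) hne
    exact h3

/-- the restriction to an intermediate group -/
theorem SepEl.mid {G : Subgroup Γ} {B : (G → F) → F} {w : Γ → F} (hw : SepEl G B w)
    {Δ : Subgroup Γ} (hle : G ≤ Δ) :
    SepEl (G.subgroupOf Δ) (blkOf hle B) (fun x : Δ => w x) where
  inz := ⟨fun g x => hw.inz.conj g x, fun x hx => hw.inz.supp x hx⟩
  one := hw.one
  zero := by
    intro B' hB' hne
    have h1 := isBlock_comp (eps hle).symm hB'
    refine hw.zero _ h1 fun h2 => hne ?_
    intro f hf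
    have h3 := h2 (fun x : G => f ((eps hle).symm x)) (cls_comp (eps hle).symm hf)
    have h4 : (fun x : G.subgroupOf Δ => f ((eps hle).symm ((eps hle).symm.symm x))) = f := by
      funext x
      rw [(eps hle).symm.apply_symm_apply]
    show B (fun x : G => f ((eps hle).symm x)) = B' f
    rw [h3]
    exact congrArg B' h4

/-! ### elements supported on a subgroup -/

theorem conv_res [Finite Γ] (G : Subgroup Γ) {f g : Γ → F} (hf : ∀ x, x ∉ G → f x = 0) (x : G) :
    conv f g (x : Γ) = conv (fun y : G => f y) (fun y : G => g y) x := by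
  unfold conv
  have h1 : ∀ y : Γ, f y * g (y⁻¹ * x) =
      ∑ᶠ (_ : y ∈ Set.range (Subtype.val : G → Γ)), f y * g (y⁻¹ * x) := by
    intro y
    rw [finsum_eq_if]
    by_cases hy : y ∈ Set.range (Subtype.val : G → Γ)
    · rw [if_pos hy]
    · rw [if_neg hy, hf y, zero_mul]
      intro h
      exact hy ⟨⟨y, h⟩, rfl⟩
  rw [finsum_congr h1, finsum_mem_range Subtype.val_injective]
  rfl

theorem conv_supp [Finite Γ] (G : Subgroup Γ) {f g : Γ → F} (hf : ∀ x, x ∉ G → f x = 0)
    (hg : ∀ x, x ∉ G → g x = 0) (x : Γ) (hx : x ∉ G) : conv f g x = 0 := by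
  unfold conv
  refine (finsum_congr fun y => ?_).trans finsum_zero
  by_cases hy : y ∈ G
  · rw [hg (y⁻¹ * x), mul_zero]
    intro h
    exact hx (by
      have := G.mul_mem hy h
      rwa [mul_inv_cancel_left] at this)
  · rw [hf y hy, zero_mul]

theorem cp_res [Finite Γ] (G : Subgroup Γ) {f : Γ → F} (hf : ∀ x, x ∉ G → f x = 0) (n : ℕ) :
    (∀ x : G, cp f n (x : Γ) = cp (fun y : G => f y) n x) ∧ ∀ x, x ∉ G → cp f n x = 0 := by
  induction n with
  | zero =>
    refine ⟨fun x => ?_, fun x hx => ?_⟩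
    · rw [cp_dl, cp_dl]
      exact dl_res G x
    · rw [cp_dl, dl_ne]
      rintro rfl
      exact hx G.one_mem
  | succ n ih =>
    refine ⟨fun x => ?_, fun x hx => ?_⟩
    · show conv f (cp f n) (x : Γ) = conv (fun y : G => f y) (cp (fun y : G => f y) n) x
      rw [conv_res G hf]
      congr 1
      funext y
      exact ih.1 y
    · exact conv_supp G hf ih.2 x hx

/-- elements supported on `G` which are killed by all blocks of `G` are killed by the blocks of
`Γ` -/
theorem kill [Finite Γ] [IsAlgClosed F] (G : Subgroup Γ) {u : Γ → F} (hu : InZ G u)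
    (h : ∀ B' : (G → F) → F, IsBlock B' → B' (fun x : G => u x) = 0) {b : (Γ → F) → F}
    (hb : IsBlock b) : b u = 0 := by
  obtain ⟨n, hn⟩ := nil_of (inz_cls hu) fun φ => h _ (blkOf_block φ)
  have h1 := cp_res G hu.supp n
  have h2 : cp u n = 0 := by
    funext x
    by_cases hx : x ∈ G
    · have h3 := h1.1 ⟨x, hx⟩
      rw [hn] at h3
      exact h3
    · exact h1.2 x hx
  have h3 := block_cp hb (f := u) hu.conj n
  rw [h2] at h3
  have h4 := hb.smul 0 0 (fun _ _ => rfl)
  rw [zero_smul, zero_mul] at h4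
  rw [h4] at h3
  exact eq_zero_of_pow_eq_zero h3.symm

/-- the blocks which do not vanish at the separating element cover `B` -/
theorem SepEl.cov [Finite Γ] [IsAlgClosed F] {G : Subgroup Γ} {B : (G → F) → F}
    {w : Γ → F} (hw : SepEl G B w) {b : (Γ → F) → F} (hb : IsBlock b)
    (h : b w ≠ 0) (z : Γ → F) (hz : InZ G z) : b z = B (fun x : G => z x) := by
  set c : F := B (fun x : G => z x) with hc
  let v : Γ → F := z + (-c) • dl F Γ
  have hv1 : IsClassFun v := cl_add hz.conj (cl_smul _ dl_cls)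
  have hsupp1 : ∀ x, x ∉ G → v x = 0 := by
    intro x hx
    show z x + (-c) * dl F Γ x = 0
    rw [hz.supp x hx, dl_ne, mul_zero, add_zero]
    rintro rfl
    exact hx G.one_mem
  have hvG : (fun x : G => v x) = (fun x : G => z x) + (-c) • dl F G := by
    funext x
    show z x + (-c) * dl F Γ x = z x + (-c) * dl F G x
    rw [dl_res]
  have hu : InZ G (conv v w) :=
    ⟨conv_class hv1 hw.inz.conj, conv_supp G hsupp1 hw.inz.supp⟩
  have h1 : b (conv v w) = 0 := by
    refine kill G hu (fun B' hB' => ?_) hb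
    have h2 : (fun x : G => conv v w x) = conv (fun x : G => v x) (fun x : G => w x) :=
      funext fun x => conv_res G hsupp1 x
    have h3 : IsClassFun (fun x : G => v x) := fun g x => hv1 g x
    rw [h2, hB'.mul _ _ h3 (inz_cls hw.inz)]
    by_cases hne : BEq B B'
    · have h4 : B' (fun x : G => v x) = 0 := by
        rw [hvG, hB'.add _ _ (inz_cls hz) (cl_smul _ dl_cls), hB'.smul _ _ dl_cls, dl_blk hB',
          ← hne _ (inz_cls hz), ← hc]
        ring
      rw [h4, zero_mul]
    · rw [hw.zero B' hB' hne, mul_zero]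
  rw [hb.mul _ _ hv1 hw.inz.conj] at h1
  rcases mul_eq_zero.1 h1 with h2 | h2
  · have h3 : b v = b z + (-c) * 1 := by
      rw [← dl_blk hb, ← hb.smul _ _ dl_cls]
      exact hb.add _ _ hz.conj (cl_smul _ dl_cls)
    rw [h3, mul_one] at h2
    linear_combination h2
  · exact absurd h2 h

end sep

end Pool.Agent.V7H17.NE
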