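import Pool.Agent.V7H17.NE.CovM

/-!
# The numbers of stable orbits
-/

set_option autoImplicit false
set_option linter.unusedSectionVars false

open scoped Classical BigOperators

noncomputable section

namespace Pool.Agent.V7H17.NE

/-- the number of the `Δ`-orbits on `S` which are stable under `D` -/
def numStable {Γ : Type} [Group Γ] (S : Type) [MulAction Γ S] (Δ D : Subgroup Γ) : ℕ :=
  Nat.card {C : Cl Δ S // ∀ g ∈ D, ∀ s : S, Cl.mk Δ s = C → Cl.mk Δ (g • s) = C}

section basic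

variable {Γ : Type} [Group Γ]

theorem so_sub (S : Type) [MulAction Γ S] {D : Subgroup Γ} {Δ H : Subgroup Γ} (hΔ : Δ ≤ D)
    (hH : H ≤ D) : numStable (Γ := D) S (Δ.subgroupOf D) (H.subgroupOf D) = numStable S Δ H := by
  unfold numStable
  let e : Cl (Δ.subgroupOf D) S ≃ Cl Δ S := Quotient.congr (Equiv.refl S) fun a b => by
    constructor
    · rintro ⟨g, hg, h⟩
      exact ⟨g, hg, h⟩
    · rintro ⟨g, hg, h'⟩
      exact ⟨⟨g, hΔ hg⟩, hg, h'⟩
  have he : ∀ s : S, e (Cl.mk (Δ.subgroupOf D) s) = Cl.mk Δ s := fun s => rfl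
  refine Nat.card_congr (e.subtypeEquiv fun C => ?_)
  constructor
  · intro h g hg s hs
    rw [← he] at hs
    have h1 := h ⟨g, hH hg⟩ hg s (e.injective hs)
    have h2 := congrArg e h1
    rw [he] at h2
    exact h2
  · intro h g hg s hs
    apply e.injective
    rw [he]
    refine h g hg s ?_
    rw [← hs, he]

theorem so_fx (S : Type) [MulAction Γ S] (Δ H : Subgroup Γ) [Δ.Normal] :
    numStable S Δ H = fx (Cl Δ S) H := by
  unfold numStable fx
  refine Nat.card_congr (Equiv.subtypeEquivRight fun C => ?_)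
  constructor
  · intro h g hg
    obtain ⟨s, rfl⟩ := mk_surj Δ S C
    exact h g hg s rfl
  · intro h g hg s hs
    rw [← smul_mk, hs]
    exact h g hg

theorem so_top (S : Type) [MulAction Γ S] (Δ : Subgroup Γ) [Δ.Normal] :
    numStable S Δ ⊤ = Nat.card {C : Cl Δ S // ∀ g : Γ, g • C = C} := by
  rw [so_fx]
  exact Nat.card_congr (Equiv.subtypeEquivRight fun C =>
    ⟨fun h g => h g trivial, fun h g _ => h g⟩)

/-- the case of a trivial action -/
theorem so_triv (G : Subgroup Γ) (S : Type) [MulAction Γ S] (hS : ∀ g ∈ G, ∀ s : S, g • s = s)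
    (D : Subgroup Γ) : numStable S G D = fx S D := by
  unfold numStable fx
  have h0 : ∀ s t : S, Cl.mk G s = Cl.mk G t ↔ s = t := by
    intro s t
    rw [mk_eq]
    constructor
    · rintro ⟨g, hg, h⟩
      rw [← h, hS g hg]
    · rintro rfl
      exact ⟨1, G.one_mem, one_smul _ _⟩
  symm
  refine Nat.card_congr (Equiv.ofBijective (fun s => ⟨Cl.mk G s.1, fun g hg t ht => ?_⟩) ⟨?_, ?_⟩)
  · rw [(h0 _ _).1 ht, s.2 g hg]
  · intro s t h
    exact Subtype.ext ((h0 _ _).1 (congrArg Subtype.val h))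
  · rintro ⟨C, hC⟩
    obtain ⟨s, rfl⟩ := mk_surj G S C
    exact ⟨⟨s, fun g hg => (h0 _ _).1 (hC g hg s rfl)⟩, rfl⟩

theorem so_self (S : Type) [MulAction Γ S] (Δ : Subgroup Γ) : numStable S Δ Δ = Nat.card (Cl Δ S) := by
  unfold numStable
  refine Nat.card_congr (Equiv.subtypeUnivEquiv fun C g hg s hs => ?_)
  rw [← hs]
  exact ((mk_eq Δ S).2 ⟨g, hg, rfl⟩).symm

/-- the classes of the classes -/
theorem so_cl (G : Subgroup Γ) [G.Normal] {Δ : Subgroup Γ} (hle : G ≤ Δ) (D : Subgroup Γ)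
    (W : Type) [MulAction Γ W] : numStable (Cl G W) Δ D = numStable W Δ D := by
  unfold numStable
  let f : Cl Δ W → Cl Δ (Cl G W) := Quotient.lift (fun w => Cl.mk Δ (Cl.mk G w)) (by
    rintro a b ⟨g, hg, h⟩
    rw [mk_eq]
    exact ⟨g, hg, by rw [smul_mk, h]⟩)
  have hf : ∀ w : W, f (Cl.mk Δ w) = Cl.mk Δ (Cl.mk G w) := fun w => rfl
  have hfb : Function.Bijective f := by
    constructor
    · intro x y hxy
      obtain ⟨a, rfl⟩ := mk_surj Δ W x
      obtain ⟨b, rfl⟩ := mk_surj Δ W y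
      rw [hf, hf] at hxy
      obtain ⟨g, hg, h⟩ := (mk_eq Δ _).1 hxy
      rw [smul_mk] at h
      obtain ⟨k, hk, h'⟩ := (mk_eq G _).1 h
      rw [mk_eq]
      exact ⟨k * g, Δ.mul_mem (hle hk) hg, by rw [mul_smul]; exact h'⟩
    · intro y
      obtain ⟨c, rfl⟩ := mk_surj Δ _ y
      obtain ⟨a, rfl⟩ := mk_surj G _ c
      exact ⟨Cl.mk Δ a, rfl⟩
  symm
  refine Nat.card_congr ((Equiv.ofBijective f hfb).subtypeEquiv fun C => ?_)
  rw [Equiv.ofBijective_apply]
  constructor
  · intro h g hg c hc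
    obtain ⟨w, rfl⟩ := mk_surj G _ c
    rw [smul_mk, ← hf]
    rw [← hf] at hc
    rw [h g hg w (hfb.1 hc)]
  · intro h g hg w hw
    apply hfb.1
    rw [hf]
    refine h g hg (Cl.mk G w) ?_
    rw [← hf, hw]

/-- the number of stable orbits as a sum over the points -/
theorem so_sum [Finite Γ] (S : Type) [Finite S] [MulAction Γ S] (Δ : Subgroup Γ) [Δ.Normal] :
    Nat.card Γ * numStable S Δ ⊤ = ∑ᶠ s : S, if Δ ⊔ MulAction.stabilizer Γ s = ⊤ then
        Nat.card (MulAction.stabilizer Γ s) else 0 := by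
  rw [so_top, card_fixed]

/-- the Frattini argument -/
theorem so_frat [Finite Γ] (S : Type) [Finite S] [MulAction Γ S] (Δ Δ' : Subgroup Γ) [Δ.Normal]
    [Δ'.Normal] (hle : Δ ≤ Δ') (h : ∀ H : Subgroup Γ, Δ ≤ H → H ⊔ Δ' = ⊤ → H = ⊤) :
    numStable S Δ ⊤ = numStable S Δ' ⊤ := by
  refine Nat.eq_of_mul_eq_mul_left (Nat.card_pos (α := Γ)) ?_
  rw [so_sum, so_sum]
  refine finsum_congr fun s => ?_
  by_cases h1 : Δ ⊔ MulAction.stabilizer Γ s = ⊤
  · rw [if_pos h1, if_pos]
    rw [eq_top_iff, ← h1]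
    exact sup_le_sup hle le_rfl
  · rw [if_neg h1, if_neg]
    intro h2
    apply h1
    refine h _ le_sup_left ?_
    rw [eq_top_iff, ← h2]
    exact sup_le le_sup_right (le_sup_right.trans le_sup_left)

/-- the same for subgroups -/
theorem so_frat' [Finite Γ] (S : Type) [Finite S] [MulAction Γ S] {Δ Δ' D : Subgroup Γ}
    (h1 : (Δ.subgroupOf D).Normal) (h2 : (Δ'.subgroupOf D).Normal) (hle : Δ ≤ Δ')
    (hD : Δ' ≤ D) (h : ∀ H : Subgroup Γ, Δ ≤ H → H ≤ D → H ⊔ Δ' = D → H = D) :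
    numStable S Δ D = numStable S Δ' D := by
  have h3 := so_frat (Γ := D) S (Δ.subgroupOf D) (Δ'.subgroupOf D) (fun x hx => hle hx) (by
    intro H hH hH'
    have h4 : Δ ≤ H.map D.subtype := by
      intro x hx
      exact ⟨⟨x, hD (hle hx)⟩, hH hx, rfl⟩
    have h5 := h (H.map D.subtype) h4 (Subgroup.map_subtype_le H) (by
      have h6 := congrArg (fun K : Subgroup D => K.map D.subtype) hH'
      simp only [Subgroup.map_sup, Subgroup.subgroupOf_map_subtype, ← MonoidHom.range_eq_map,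
        Subgroup.range_subtype, inf_eq_left.2 hD] at h6
      exact h6)
    rw [eq_top_iff]
    intro x _
    have h6 : (x : Γ) ∈ H.map D.subtype := by rw [h5]; exact x.2
    obtain ⟨y, hy, hyx⟩ := h6
    rwa [← Subtype.ext hyx])
  have h4 : (⊤ : Subgroup D) = D.subgroupOf D := (Subgroup.subgroupOf_self D).symm
  rw [h4, so_sub S (hle.trans hD) le_rfl, so_sub S hD le_rfl] at h3
  exact h3

end basic

end Pool.Agent.V7H17.NE
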