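import Pool.Agent.V7H17.NE.Sto

/-!
# The weights of a covering block and the stable orbits
-/

set_option autoImplicit false
set_option linter.unusedSectionVars false

open scoped Classical BigOperators

noncomputable section

namespace Pool.Agent.V7H17.NE

open Pool.Agent.N85.WM
open Pool.Agent.Y63.NV
open Pool.Agent.Y487.NV (wl)

attribute [local instance] Pool.Agent.Y487.NV.fsubL

variable {F : Type} [Field F] [IsAlgClosed F] {p : ℕ} [Fact p.Prime] [CharP F p]
  {Γ : Type} [Group Γ] [Finite Γ]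

theorem wsum_sto (G : Subgroup Γ) [G.Normal] (red : integralClosure ℤ ℂ →+* F)
    (hG : IsPGroup p (Γ ⧸ G)) {z : Γ → F} {c : F} (hz : InZ G z) (Y : Type) [Finite Y]
    [MulAction Γ Y] (hY : Hyp p red G z c Y) (ht : ∀ g ∈ G, ∀ y : Y, g • y = y)
    (N : Subgroup Γ) [N.Normal] (hle : G ≤ N) :
    Wsum p red N ⊤ z c = (Nat.card Γ : ℤ) * numStable Y N ⊤ := by
  have : Fintype Y := Fintype.ofFinite Y
  rw [Pool.Agent.Y487.NV.wsum_eq]
  have h1 : (∑ Q : Subgroup Γ, if IsPGroup p Q ∧ N ⊔ Q = ⊤ then wl p red z c Q else 0) =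
      ∑ D : Subgroup Γ, if G ≤ D ∧ N ⊔ D = ⊤ then AA p red G z c D else 0 := by
    unfold AA
    rw [fib_sum (fun R : Subgroup Γ => G ⊔ R) (fun R => IsPGroup p R)
      (fun E : Subgroup Γ => G ≤ E ∧ N ⊔ E = ⊤) (fun R => wl p red z c R)]
    refine Finset.sum_congr rfl fun Q _ => ?_
    have e1 : N ⊔ (G ⊔ Q) = N ⊔ Q := by rw [← sup_assoc, sup_eq_left.2 hle]
    by_cases hQ : IsPGroup p Q ∧ N ⊔ Q = ⊤
    · rw [if_pos hQ, if_pos ⟨hQ.1, le_sup_left, e1.trans hQ.2⟩]
    · rw [if_neg hQ, if_neg fun h => hQ ⟨h.1, e1.symm.trans h.2.2⟩]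
  have h2 : (∑ D : Subgroup Γ, if G ≤ D ∧ N ⊔ D = ⊤ then AA p red G z c D else 0) =
      ∑ y : Y, if N ⊔ MulAction.stabilizer Γ y = ⊤ then
        Nat.card (MulAction.stabilizer Γ y) else 0 := by
    have h3 : ∀ D : Subgroup Γ, (if G ≤ D ∧ N ⊔ D = ⊤ then AA p red G z c D else 0) =
        if G ≤ D ∧ N ⊔ D = ⊤ then (∑ y : Y, if True ∧ MulAction.stabilizer Γ y = D then
          Nat.card (MulAction.stabilizer Γ y) else 0) else 0 := by
      intro D
      by_cases hD : G ≤ D ∧ N ⊔ D = ⊤
      · rw [if_pos hD, if_pos hD, aa_aux red (Nat.card Γ) Γ G z c Y le_rfl hG hz hY _ D hD.1 rfl,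
          ← Finset.sum_filter]
        rw [Finset.sum_congr rfl (g := fun _ => Nat.card D) (fun y hy => by
          rw [(Finset.mem_filter.1 hy).2.2]), Finset.sum_const, smul_eq_mul, mul_comm]
        congr 1
        rw [Nat.card_eq_fintype_card, Fintype.card_subtype]
        congr 1
        ext y
        simp
      · rw [if_neg hD, if_neg hD]
    rw [Finset.sum_congr rfl fun D _ => h3 D,
      fib_sum (fun y : Y => MulAction.stabilizer Γ y) (fun _ => True)
      (fun E : Subgroup Γ => G ≤ E ∧ N ⊔ E = ⊤)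
      (fun y => Nat.card (MulAction.stabilizer Γ y))]
    refine Finset.sum_congr rfl fun y _ => ?_
    by_cases h : N ⊔ MulAction.stabilizer Γ y = ⊤
    · rw [if_pos h, if_pos ⟨trivial, fun g hg => ht g hg y, h⟩]
    · rw [if_neg h, if_neg fun h' => h h'.2.2]
  have h3 := so_sum Y N
  rw [finsum_eq_sum_of_fintype] at h3
  rw [h1, h2, ← h3]
  push_cast
  rfl

/-- the separating element for a covering block -/
theorem sepEl_up (G : Subgroup Γ) [G.Normal] (hG : IsPGroup p (Γ ⧸ G)) {B : (G → F) → F}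
    (hB : IsBlock B) {w : Γ → F} (hw : SepEl G B w) {N : Subgroup Γ} (hle : G ≤ N)
    {b : (N → F) → F} (hb : Covers hle B b) : SepEl N b w := by
  refine ⟨inz_mono hle hw.inz, covers_one hle hw hb, fun b' hb' hne => ?_⟩
  by_contra h0
  apply hne
  refine uniq_cov (G.subgroupOf N) (pq_mid G hG N) (isBlock_of hle hB) (hw.mid hle)
    hb.1 hb' (covers_one hle hw hb) ?_
  exact ((hw.mid hle).cov hb' h0 _ (hw.mid hle).inz).trans hw.one

/-- the covering block is invariant -/
theorem inv_up (G : Subgroup Γ) [G.Normal] (hG : IsPGroup p (Γ ⧸ G)) {B : (G → F) → F}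
    (hB : IsBlock B) {w : Γ → F} (hw : SepEl G B w) {N : Subgroup Γ} [N.Normal] (hle : G ≤ N)
    {b : (N → F) → F} (hb : Covers hle B b) : IsInvBlock N b := by
  intro g f f' hf hff
  have h1 : f = fun x => f' (cj N g x) := by
    funext x
    exact (hff x (cj N g x) rfl).symm
  have hf' : IsClassFun f' := by
    intro k x
    have h2 : ∀ u : N, f' u = f ((cj N g).symm u) := by
      intro u
      rw [h1]
      show f' u = f' (cj N g ((cj N g).symm u))
      rw [(cj N g).apply_symm_apply]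
    rw [h2, h2, map_mul, map_mul, map_inv, hf]
  -- the conjugate block
  have h2 : IsBlock (fun f : N → F => b (fun x : N => f ((cj N g).symm x))) :=
    isBlock_comp (cj N g) hb.1
  have h3 : b (fun x : N => (fun y : N => w y) ((cj N g).symm x)) = 1 := by
    have h4 : (fun x : N => (fun y : N => w y) ((cj N g).symm x)) = fun x : N => w x := by
      funext x
      show w (((cj N g).symm x : N) : Γ) = w x
      rw [cj_symm, cj_coe]
      exact hw.inz.conj g⁻¹ x
    rw [h4]
    exact covers_one hle hw hb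
  have h5 := uniq_cov (G.subgroupOf N) (pq_mid G hG N) (isBlock_of hle hB) (hw.mid hle)
    hb.1 h2 (covers_one hle hw hb) h3
  have h6 := h5 f hf
  show b f' = b f
  rw [h6]
  congr 1
  funext x
  rw [h1]
  show f' x = f' (cj N g ((cj N g).symm x))
  rw [(cj N g).apply_symm_apply]

/-- the right-hand side for the covering block -/
theorem rhs_sto (G : Subgroup Γ) [G.Normal] (red : integralClosure ℤ ℂ →+* F)
    (hG : IsPGroup p (Γ ⧸ G)) (B : (G → F) → F) (hB : IsBlock B)
    [hI : Fact (IsInvBlock G B)] {w : Γ → F} (hw : SepEl G B w) {N : Subgroup Γ} [N.Normal]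
    (hle : G ≤ N) {b : (N → F) → F} (hb : Covers hle B b) :
    rhs N p red b = numStable (Cl G (WT G p red B)) N ⊤ := by
  have h1 := wsum_sep (p := p) N red (sepEl_up G hG hB hw hle hb)
  rw [wsum_sto G red hG hw.inz (Cl G (WT G p red B)) (hyp_cl G red hG B hB hw)
    (fun g hg y => smul_cl G _ g hg y) N hle] at h1
  have hpos : (Nat.card Γ : ℤ) ≠ 0 := by exact_mod_cast Nat.card_pos.ne'
  have h2 := mul_left_cancel₀ hpos h1
  exact_mod_cast h2.symm

end Pool.Agent.V7H17.NE
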