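import Pool.Agent.V7H17.NE.TwoB
import Pool.Agent.V7H17.NE.StoW
import Pool.Agent.V7H17.NE.Comb

/-!
# The irreducible characters over `F` of a covering block and the stable orbits
-/

set_option autoImplicit false
set_option linter.unusedSectionVars false

open scoped Classical BigOperators

noncomputable section

namespace Pool.Agent.V7H17.NE

open Pool.Agent.N85.WM
open Pool.Agent.Y63.NV Pool.Agent.Y77.NV Pool.Agent.Y63.NV.B77

variable {F : Type} [Field F] [IsAlgClosed F] {p : ℕ} [Fact p.Prime] [CharP F p]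
  {Γ : Type} [Group Γ] [Finite Γ]

/-- the restrictions of the irreducible traces on which `z` acts as `c` -/
theorem basX (h1 : S_IRR) (h2 : S_PPT) (h3 : S_SPAN) (h4 : S_SCHUR) (G : Subgroup Γ) [G.Normal]
    (z : Γ → F) (c : F) (hz : InZ G z) :
    LinearIndependent F (fun φ : XX G z c => res p G G φ.1.1) ∧
    ∀ v, v ∈ Submodule.span F (Set.range (fun φ : XX G z c => res p G G φ.1.1)) ↔
      v ∈ VS (F := F) (S0 p G G) G ∧ v ∈ (Top p z (S0 p G G)).maxGenEigenspace c := by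
  have hEG : Ext p G G z :=
    ⟨le_rfl, fun _ hh _ hn => G.mul_mem (G.mul_mem hh hn) (G.inv_mem hh),
      fun h hh => ⟨0, by rwa [pow_zero, pow_one]⟩, fun h _ x => hz.conj h x, hz.supp⟩
  have : Finite (Irr F G) := irr_fin h1
  have : Fintype (Irr F G) := Fintype.ofFinite _
  have hsup : ∀ h ∈ G, ∃ n ∈ G, ∃ r ∈ (⊥ : Subgroup Γ), h = n * r := fun h hh =>
    ⟨h, hh, 1, Subgroup.one_mem _, by rw [mul_one]⟩
  have hbot : IsPGroup p (⊥ : Subgroup Γ) := IsPGroup.of_bot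
  have hinv : ∀ φ : Irr F G, IsInvUnder G φ.1 := by
    intro φ h hh x y hxy
    have h5 : y = ⟨h, hh⟩ * x * (⟨h, hh⟩ : G)⁻¹ := Subtype.ext hxy
    rw [h5, irr_conj φ.2]
  have hli : LinearIndependent F (fun φ : Irr F G => res p G G φ.1) :=
    (claimC hEG h1 h2 h3 bot_le hbot hsup).comp (fun φ : Irr F G => ⟨φ, hinv φ⟩)
      (fun a b h => congrArg Subtype.val h)
  have hsp : VS (F := F) (S0 p G G) G =
      Submodule.span F (Set.range (fun φ : Irr F G => res p G G φ.1)) := by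
    apply le_antisymm
    · intro θ hθ
      refine Submodule.span_mono ?_ (claimD hEG h1 h3 bot_le hbot hsup θ hθ)
      rintro _ ⟨φ, rfl⟩
      exact ⟨φ.1, rfl⟩
    · rw [Submodule.span_le]
      rintro _ ⟨φ, rfl⟩
      exact res_mem hEG (hinv φ)
  have hzc : IsClassFun (fun g : G => z g) := fun g x => hz.conj g x
  have h5 : ∀ φ : Irr F G, ∃ l : F, ∀ x : G, ∑ᶠ g : G, z g * φ.1 (g * x) = l * φ.1 x := by
    intro φ
    obtain ⟨_, B, _, hB⟩ := h4 F G φ.1 φ.2
    exact ⟨B (fun g : G => z g), hB _ hzc⟩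
  choose lam hlam using h5
  have hne : ∀ φ : Irr F G, ∃ x, φ.1 x ≠ 0 := fun φ => (h4 F G φ.1 φ.2).1
  have hlamc : ∀ φ : Irr F G, lam φ = c ↔ ∀ x : G, ∑ᶠ g : G, z g * φ.1 (g * x) = c * φ.1 x := by
    intro φ
    constructor
    · intro h x
      rw [hlam, h]
    · intro h
      obtain ⟨x, hx⟩ := hne φ
      exact mul_right_cancel₀ hx ((hlam φ x).symm.trans (h x))
  set T := Top p z (S0 p G G) with hT
  have hTb : ∀ φ : Irr F G, T (res p G G φ.1) = lam φ • res p G G φ.1 := by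
    intro φ
    funext x
    change Tfun p z (S0 p G G) (res p G G φ.1) x = lam φ * res p G G φ.1 x
    by_cases hx : x ∈ S0 p G G
    · rw [Tfun, if_pos hx, claimB hEG h2 φ (hinv φ) hx, hlam, res, dif_pos hx]
    · rw [Tfun, if_neg hx, res, dif_neg hx, mul_zero]
  have hpow : ∀ (k : ℕ) (φ : Irr F G), ((T - c • (1 : Module.End F (Γ → F))) ^ k)
      (res p G G φ.1) = (lam φ - c) ^ k • res p G G φ.1 := by
    intro k
    induction k with
    | zero => intro i; simp
    | succ k ih =>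
      intro i
      rw [pow_succ', Module.End.mul_apply, ih i, map_smul, LinearMap.sub_apply, hTb i,
        LinearMap.smul_apply, Module.End.one_apply, ← sub_smul, smul_smul, pow_succ]
  refine ⟨hli.comp _ (Subtype.val_injective (p := fun φ : Irr F G =>
      ∀ x : G, ∑ᶠ g : G, z g * φ.1 (g * x) = c * φ.1 x)), fun v => ⟨fun hv => ?_, ?_⟩⟩
  · have hv3 : v ∈ VS (F := F) (S0 p G G) G ⊓ T.maxGenEigenspace c := by
      refine (Submodule.span_le.2 ?_) hv
      rintro _ ⟨φ, rfl⟩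
      refine ⟨res_mem hEG (hinv φ.1), ?_⟩
      refine (Module.End.mem_maxGenEigenspace T c _).2 ⟨1, ?_⟩
      rw [hpow, (hlamc φ.1).2 φ.2, sub_self, pow_one, zero_smul]
    exact hv3
  · rintro ⟨hv4, hv2⟩
    rw [hsp] at hv4
    obtain ⟨a, rfl⟩ := (Submodule.mem_span_range_iff_exists_fun F).1 hv4
    obtain ⟨k, hk⟩ := (Module.End.mem_maxGenEigenspace T c _).1 hv2
    rw [map_sum] at hk
    simp only [map_smul, hpow, smul_smul] at hk
    have h0 := Fintype.linearIndependent_iff.1 hli _ hk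
    refine Submodule.sum_mem _ fun i _ => ?_
    by_cases hi : lam i = c
    · exact Submodule.smul_mem _ _ (Submodule.subset_span ⟨⟨i, (hlamc i).1 hi⟩, rfl⟩)
    · have h1 : a i = 0 := by
        rcases mul_eq_zero.1 (h0 i) with h | h
        · exact h
        · exact absurd (sub_eq_zero.1 (eq_zero_of_pow_eq_zero h)) hi
      rw [h1, zero_smul]
      exact Submodule.zero_mem _

/-- the same for the irreducible characters in a block -/
theorem basB (G : Subgroup Γ) [G.Normal] (B : (G → F) → F) {w : Γ → F} (hw : SepEl G B w) :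
    LinearIndependent F (fun φ : IB B => res p G G φ.1) ∧
    ∀ v, v ∈ Submodule.span F (Set.range (fun φ : IB B => res p G G φ.1)) ↔
      v ∈ VS (F := F) (S0 p G G) G ∧ v ∈ (Top p w (S0 p G G)).maxGenEigenspace 1 := by
  obtain ⟨h1, h2⟩ := basX (p := p) Pool.Agent.Y914.NV.irr Pool.Agent.Y705.NV.ppt
    (fun p _ F _ _ _ N _ _ f hf hf' => Pool.Agent.Y275.NV.wed F N f hf
      (Pool.Agent.Y705.NV.nil p F N f hf hf'))
    (Pool.Agent.Y705.NV.schur Pool.Agent.Y914.NV.irr) G w (1 : F) hw.inz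
  have h3 : (fun φ : IB B => res p G G φ.1) =
      (fun φ : XX G w (1 : F) => res p G G φ.1.1) ∘ (xxE G B hw).symm := rfl
  refine ⟨?_, fun v => ?_⟩
  · rw [h3]
    exact h1.comp _ (xxE G B hw).symm.injective
  · rw [h3, (xxE G B hw).symm.surjective.range_comp]
    exact h2 v

theorem mem_S0 (N : Subgroup Γ) (x : Γ) : x ∈ S0 p N N ↔ x ∈ N ∧ ¬ p ∣ orderOf x :=
  ⟨fun h => ⟨h.1, h.2.1⟩, fun h => ⟨h.1, h.2, fun k hk => ⟨k, hk, rfl⟩⟩⟩

/-- the conjugation of functions -/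
def cjL (F : Type) [Field F] {Γ : Type} [Group Γ] (γ : Γ) : (Γ → F) →ₗ[F] (Γ → F) :=
  LinearMap.funLeft F F (fun x => γ⁻¹ * x * γ)

theorem cjL_apply (γ : Γ) (θ : Γ → F) (x : Γ) : cjL F γ θ x = θ (γ⁻¹ * x * γ) := rfl

theorem cjL_res (G : Subgroup Γ) [G.Normal] (B : (G → F) → F) [Fact (IsInvBlock G B)] (γ : Γ)
    (φ : IB B) : cjL F γ (res p G G φ.1) = res p G G (γ • φ).1 := by
  funext x
  have hS : γ⁻¹ * x * γ ∈ S0 p G G ↔ x ∈ S0 p G G := by
    rw [mem_S0, mem_S0]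
    have h1 : orderOf (γ⁻¹ * x * γ) = orderOf x := by
      have h2 := orderOf_injective (MulAut.conj γ⁻¹).toMonoidHom (MulAut.conj γ⁻¹).injective x
      simpa using h2
    rw [h1]
    refine and_congr_left fun _ => ⟨fun h => ?_, fun h => ?_⟩
    · have h2 := (inferInstance : G.Normal).conj_mem _ h γ
      have h3 : γ * (γ⁻¹ * x * γ) * γ⁻¹ = x := by group
      rwa [h3] at h2
    · have h2 := (inferInstance : G.Normal).conj_mem _ h γ⁻¹
      rwa [inv_inv] at h2
  rw [cjL_apply]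
  by_cases hx : x ∈ S0 p G G
  · have hx' := hS.2 hx
    rw [res, dif_pos hx', res, dif_pos hx, IB_smul]
    refine congrArg φ.1 (Subtype.ext ?_)
    show γ⁻¹ * x * γ = (((cj G γ).symm ⟨x, hx.1⟩ : G) : Γ)
    rw [cj_symm, cj_coe, inv_inv]
  · have hx' : ¬ γ⁻¹ * x * γ ∈ S0 p G G := fun h => hx (hS.1 h)
    rw [res, dif_neg hx', res, dif_neg hx]

/-- **The invariant irreducible characters of a covering block.** -/
theorem ibr_sto (G : Subgroup Γ) [G.Normal] (hG : IsPGroup p (Γ ⧸ G)) (B : (G → F) → F)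
    (hB : IsBlock B) [hI : Fact (IsInvBlock G B)] {w : Γ → F} (hw : SepEl G B w)
    {N : Subgroup Γ} [N.Normal] (hle : G ≤ N) {b : (N → F) → F} (hb : Covers hle B b) :
    numIBr N b = numStable (IB B) N ⊤ := by
  have hI' : Fact (IsInvBlock N b) := ⟨inv_up G hG hB hw hle hb⟩
  have hfin : Finite (IB B) := finite_IB B
  have hfin' : Finite (IB b) := finite_IB b
  have hwN := sepEl_up G hG hB hw hle hb
  obtain ⟨a1, a2⟩ := basB (p := p) G B hw
  obtain ⟨b1, b2⟩ := basB (p := p) N b hwN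
  rw [numIBr_fix]
  refine two_perm (p := p) N (pq_of_le hG hle) (IB B) (IB b) (fun g hg φ => IB_triv N b g hg φ)
    (cjL F) (fun φ => res p G G φ.1) (fun φ => res p N N φ.1) a1 b1
    (fun γ φ => cjL_res G B γ φ) (fun γ φ => cjL_res N b γ φ) ?_
  have hS : S0 p N N = S0 p G G := by
    ext x
    rw [mem_S0, mem_S0]
    exact ⟨fun h => ⟨reg_memP G hG x h.2, h.2⟩, fun h => ⟨hle h.1, h.2⟩⟩
  intro v
  rw [a2, b2, hS]
  constructor
  · rintro ⟨h1, h2⟩
    refine ⟨⟨⟨h1.1, fun j hj x => h1.2 j (hle hj) x⟩, h2⟩, fun δ hδ => ?_⟩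
    funext x
    rw [cjL_apply]
    have h3 := h1.2 δ⁻¹ (N.inv_mem hδ) x
    rwa [inv_inv] at h3
  · rintro ⟨⟨h1, h2⟩, h3⟩
    refine ⟨⟨h1.1, fun j hj x => ?_⟩, h2⟩
    have h4 := congrFun (h3 j⁻¹ (N.inv_mem hj)) x
    rw [cjL_apply, inv_inv] at h4
    exact h4

end Pool.Agent.V7H17.NE
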