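import Pool.Agent.V7H17.NE.Cnt

/-!
# Transport to the intermediate groups
-/

set_option autoImplicit false
set_option linter.unusedSectionVars false

open scoped Classical

noncomputable section

namespace Pool.Agent.V7H17.NE

open Pool.Agent.N85.WM
open Pool.Agent.Y63.NV
open Pool.Agent.Y63.AWC (IsIrreducibleCharacter pSubgroupSetoid)
open Pool.Agent.Y210.NV2 (irrTrace_comp)

/-! ### blocks and isomorphisms -/

section iso

variable {F G H : Type} [Field F] [Group G] [Group H] (e : G ≃* H)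

theorem cls_comp {f : H → F} (hf : IsClassFun f) : IsClassFun (fun x => f (e x)) := by
  intro k x
  show f (e (k * x * k⁻¹)) = f (e x)
  rw [map_mul, map_mul, map_inv, hf]

theorem conv_comp (f g : G → F) (y : H) :
    conv f g (e.symm y) = conv (fun x => f (e.symm x)) (fun x => g (e.symm x)) y := by
  unfold conv
  rw [← finsum_comp_equiv e.symm.toEquiv]
  refine finsum_congr fun x => ?_
  show f (e.symm x) * g ((e.symm x)⁻¹ * e.symm y) = f (e.symm x) * g (e.symm (x⁻¹ * y))
  rw [map_mul, map_inv]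

theorem isBlock_comp {B : (H → F) → F} (hB : IsBlock B) :
    IsBlock (fun f : G → F => B (fun x : H => f (e.symm x))) := by
  refine ⟨fun f g hf hg => hB.add _ _ (cls_comp e.symm hf) (cls_comp e.symm hg),
    fun a f hf => hB.smul a _ (cls_comp e.symm hf), ?_, fun f g hf hg => ?_⟩
  · refine Eq.trans (congrArg B ?_) hB.one
    funext x
    by_cases hx : x = 1
    · subst hx
      rw [map_one, Pi.single_eq_same, Pi.single_eq_same]
    · rw [Pi.single_eq_of_ne hx, Pi.single_eq_of_ne]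
      intro h
      exact hx (by rw [← e.apply_symm_apply x, h, map_one])
  · refine Eq.trans (congrArg B ?_) (hB.mul _ _ (cls_comp e.symm hf) (cls_comp e.symm hg))
    funext y
    exact conv_comp e f g y

/-- the condition for an irreducible character to be in the block `B` -/
def InB (B : (G → F) → F) (φ : G → F) : Prop :=
  IsIrrTrace φ ∧ ∀ f : G → F, IsClassFun f → ∀ x : G, ∑ᶠ g : G, f g * φ (g * x) = B f * φ x

theorem inB_comp {B : (H → F) → F} {φ : H → F} (h : InB B φ) :
    InB (fun f : G → F => B (fun x : H => f (e.symm x))) (fun x => φ (e x)) := by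
  refine ⟨irrTrace_comp e h.1, fun f hf x => ?_⟩
  rw [← h.2 _ (cls_comp e.symm hf) (e x), ← finsum_comp_equiv e.toEquiv]
  refine finsum_congr fun g => ?_
  show f g * φ (e (g * x)) = f (e.symm (e g)) * φ (e g * e x)
  rw [e.symm_apply_apply, map_mul]

end iso

/-! ### the action on the irreducible characters -/

section act

variable {F Γ : Type} [Field F] [Group Γ] (G : Subgroup Γ) [G.Normal]

/-- the irreducible characters over `F` in the block `B` -/
def IB {H : Type} [Group H] (B : (H → F) → F) : Type := {φ : H → F // InB B φ}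

theorem inB_cj {B : (G → F) → F} (hI : IsInvBlock G B) (g : Γ) {φ : G → F} (h : InB B φ) :
    InB B (fun x => φ ((cj G g).symm x)) := by
  have h1 := inB_comp (cj G g).symm h
  refine ⟨h1.1, fun f hf x => ?_⟩
  rw [h1.2 f hf x]
  congr 1
  exact inv_fun G hI g f hf

instance instIB (B : (G → F) → F) [hI : Fact (IsInvBlock G B)] : MulAction Γ (IB B) where
  smul g φ := ⟨fun x => φ.1 ((cj G g).symm x), inB_cj G hI.out g φ.2⟩
  one_smul φ := by
    apply Subtype.ext
    show (fun x => φ.1 ((cj G 1).symm x)) = φ.1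
    rw [cj_one]
    rfl
  mul_smul g h φ := by
    apply Subtype.ext
    show (fun x => φ.1 ((cj G (g * h)).symm x)) =
      fun x => φ.1 ((cj G h).symm ((cj G g).symm x))
    rw [cj_mul]
    rfl

theorem IB_smul (B : (G → F) → F) [Fact (IsInvBlock G B)] (g : Γ) (φ : IB B) (x : G) :
    (g • φ).1 x = φ.1 ((cj G g).symm x) := rfl

theorem IB_fix (B : (G → F) → F) [Fact (IsInvBlock G B)] (g : Γ) (φ : IB B) :
    g • φ = φ ↔ ∀ x y : G, (y : Γ) = g * x * g⁻¹ → φ.1 y = φ.1 x := by
  constructor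
  · intro h x y hxy
    have h1 : y = cj G g x := Subtype.ext hxy
    have h2 := congrFun (congrArg Subtype.val h) y
    rw [← h2, IB_smul, h1, (cj G g).symm_apply_apply]
  · intro h
    apply Subtype.ext
    funext y
    rw [IB_smul]
    refine (h ((cj G g).symm y) y ?_).symm
    have h1 : y = cj G g ((cj G g).symm y) := ((cj G g).apply_symm_apply y).symm
    conv_lhs => rw [h1]
    rfl

/-- `G` acts trivially on its irreducible characters -/
theorem IB_triv (B : (G → F) → F) [Fact (IsInvBlock G B)] (g : Γ) (hg : g ∈ G) (φ : IB B) :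
    g • φ = φ := by
  rw [IB_fix]
  intro x y hxy
  obtain ⟨V, _, _, _, ρ, _, hρ⟩ := φ.2.1
  have : y = ⟨g, hg⟩ * x * ⟨g, hg⟩⁻¹ := Subtype.ext hxy
  rw [hρ, this]
  exact ρ.char_conj x ⟨g, hg⟩

theorem finite_IB [IsAlgClosed F] {H : Type} [Group H] [Finite H] (B : (H → F) → F) :
    Finite (IB B) := by
  have h1 : Finite {φ : H → F // IsIrrTrace φ} := (Pool.Agent.Y914.NV.irr F H).1.to_subtype
  refine Finite.of_injective (β := {φ : H → F // IsIrrTrace φ}) (fun φ => ⟨φ.1, φ.2.1⟩) ?_
  intro φ φ' h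
  have h2 : φ.1 = φ'.1 := congrArg (fun t : {φ : H → F // IsIrrTrace φ} => t.1) h
  exact Subtype.ext h2

theorem numIBr_fix (B : (G → F) → F) [Fact (IsInvBlock G B)] :
    numIBr G B = Nat.card {φ : IB B // ∀ g : Γ, g • φ = φ} := by
  unfold numIBr
  refine Nat.card_congr
    { toFun := fun φ => ⟨⟨φ.1, φ.2.1, φ.2.2.2⟩, fun g => (IB_fix G B g _).2
        fun x y hxy => φ.2.2.1 g trivial x y hxy⟩
      invFun := fun φ => ⟨φ.1.1, φ.1.2.1, fun g _ x y hxy => (IB_fix G B g φ.1).1 (φ.2 g) x y hxy,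
        φ.1.2.2⟩
      left_inv := fun φ => rfl
      right_inv := fun φ => rfl }

end act

/-! ### intermediate groups -/

section mid

variable {F Γ : Type} [Field F] [Group Γ] {G : Subgroup Γ} [hGn : G.Normal] {Δ : Subgroup Γ}
  (hle : G ≤ Δ)

/-- the block `B` of `G` as a block of the subgroup `G` of `Δ` -/
def blkOf (B : (G → F) → F) : ((G.subgroupOf Δ) → F) → F :=
  fun f => B (fun x : G => f ⟨⟨x, hle x.2⟩, x.2⟩)

/-- the isomorphism -/
def eps : G.subgroupOf Δ ≃* G := Subgroup.subgroupOfEquivOfLe hle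

theorem eps_coe (x : G.subgroupOf Δ) : ((eps hle x : G) : Γ) = (x : Δ) := rfl

theorem eps_symm_coe (x : G) : (((eps hle).symm x : G.subgroupOf Δ) : Δ) = ⟨x, hle x.2⟩ := rfl

theorem blkOf_eq (B : (G → F) → F) :
    blkOf hle B = fun f : (G.subgroupOf Δ) → F => B (fun x : G => f ((eps hle).symm x)) := rfl

theorem cj_eps (δ : Δ) : (cj (G.subgroupOf Δ) δ).trans (eps hle) = (eps hle).trans (cj G δ) := by
  ext x
  rfl

theorem isBlock_of {B : (G → F) → F} (hB : IsBlock B) : IsBlock (blkOf hle B) :=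
  isBlock_comp (eps hle) hB

theorem isInv_of {B : (G → F) → F} (hI : IsInvBlock G B) :
    IsInvBlock (G.subgroupOf Δ) (blkOf hle B) := by
  intro g f f' hf hff
  refine hI g _ _ (cls_comp (eps hle).symm hf) fun x y hxy => ?_
  refine hff ((eps hle).symm x) ((eps hle).symm y) ?_
  apply Subtype.ext
  exact hxy

theorem isBW_of [Finite Γ] (p : ℕ) (red : integralClosure ℤ ℂ →+* F) (B : (G → F) → F)
    (w : Pr (G.subgroupOf Δ)) (hw : IsBW (G.subgroupOf Δ) p red (blkOf hle B) w) :
    IsBW G p red B (mapW (eps hle) w) := by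
  refine ⟨isW_map (eps hle) hw.1, fun f hf => ?_⟩
  rw [wcv_map (eps hle) red hw.1 f hf, hw.2 _ (cls_comp (eps hle) hf)]
  rfl

theorem isBW_of' [Finite Γ] (p : ℕ) (red : integralClosure ℤ ℂ →+* F) (B : (G → F) → F)
    (w : Pr G) (hw : IsBW G p red B w) :
    IsBW (G.subgroupOf Δ) p red (blkOf hle B) (mapW (eps hle).symm w) := by
  refine ⟨isW_map (eps hle).symm hw.1, fun f hf => ?_⟩
  rw [wcv_map (eps hle).symm red hw.1 f hf, hw.2 _ (cls_comp (eps hle).symm hf)]
  rfl

/-- the bijection of the weights -/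
def WTe [Finite Γ] (p : ℕ) (red : integralClosure ℤ ℂ →+* F) (B : (G → F) → F) :
    WT (G.subgroupOf Δ) p red (blkOf hle B) ≃ WT G p red B where
  toFun w := ⟨mapW (eps hle) w.1, isBW_of hle p red B w.1 w.2⟩
  invFun w := ⟨mapW (eps hle).symm w.1, isBW_of' hle p red B w.1 w.2⟩
  left_inv _ := Subtype.ext (mapW_symm _ _)
  right_inv _ := Subtype.ext (mapW_symm' _ _)

theorem WTe_smul [Finite Γ] (p : ℕ) (red : integralClosure ℤ ℂ →+* F) (B : (G → F) → F)
    [Fact (IsInvBlock G B)] [Fact (IsInvBlock (G.subgroupOf Δ) (blkOf hle B))] (δ : Δ)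
    (w : WT (G.subgroupOf Δ) p red (blkOf hle B)) :
    WTe hle p red B (δ • w) = (δ : Γ) • WTe hle p red B w := by
  apply Subtype.ext
  show mapW (eps hle) (mapW (cj (G.subgroupOf Δ) δ) w.1) = mapW (cj G δ) (mapW (eps hle) w.1)
  rw [← mapW_trans, ← mapW_trans, cj_eps]

theorem count_mid [Finite Γ] (p : ℕ) (red : integralClosure ℤ ℂ →+* F) (B : (G → F) → F)
    [Fact (IsInvBlock G B)] [Fact (IsInvBlock (G.subgroupOf Δ) (blkOf hle B))] :
    Nat.card {C : Cl (G.subgroupOf Δ) (WT (G.subgroupOf Δ) p red (blkOf hle B)) //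
      ∀ δ : Δ, δ • C = C} =
    Nat.card {C : Cl G (WT G p red B) // ∀ g ∈ Δ, g • C = C} := by
  let E : Cl (G.subgroupOf Δ) (WT (G.subgroupOf Δ) p red (blkOf hle B)) ≃
      Cl G (WT G p red B) := by
    refine Quotient.congr (WTe hle p red B) ?_
    intro w w'
    constructor
    · rintro ⟨g, hg, rfl⟩
      exact ⟨g, hg, (WTe_smul hle p red B g w).symm⟩
    · rintro ⟨g, hg, h⟩
      refine ⟨⟨g, hle hg⟩, hg, ?_⟩
      apply (WTe hle p red B).injective
      rw [WTe_smul]
      exact h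
  have hE : ∀ (δ : Δ) (C : Cl (G.subgroupOf Δ) (WT (G.subgroupOf Δ) p red (blkOf hle B))),
      E (δ • C) = (δ : Γ) • E C := by
    intro δ C
    obtain ⟨w, rfl⟩ := mk_surj _ _ C
    show Cl.mk G (WTe hle p red B (δ • w)) = Cl.mk G ((δ : Γ) • WTe hle p red B w)
    rw [WTe_smul]
  refine Nat.card_congr (E.subtypeEquiv fun C => ?_)
  constructor
  · intro h g hg
    rw [← hE ⟨g, hg⟩, h]
  · intro h δ
    apply E.injective
    rw [hE]
    exact h δ δ.2

theorem numIBr_mid (B : (G → F) → F) [Fact (IsInvBlock G B)] :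
    numIBr (G.subgroupOf Δ) (blkOf hle B) = Nat.card {φ : IB B // ∀ g ∈ Δ, g • φ = φ} := by
  unfold numIBr
  refine Nat.card_congr
    { toFun := fun φ => ⟨⟨fun x => φ.1 ((eps hle).symm x), ?_⟩, ?_⟩
      invFun := fun φ => ⟨fun x => φ.1.1 (eps hle x), ?_⟩
      left_inv := ?_
      right_inv := ?_ }
  · exact inB_comp (eps hle).symm ⟨φ.2.1, φ.2.2.2⟩
  · intro g hg
    refine (IB_fix G B g _).2 fun x y hxy => ?_
    exact φ.2.2.1 ⟨g, hg⟩ trivial _ _ (Subtype.ext hxy)
  · have h1 := inB_comp (eps hle) φ.1.2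
    refine ⟨h1.1, ?_, h1.2⟩
    intro g _ x y hxy
    exact (IB_fix G B g φ.1).1 (φ.2 g g.2) _ _ (congrArg Subtype.val hxy)
  · intro φ
    rfl
  · intro φ
    rfl

end mid

end Pool.Agent.V7H17.NE
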