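import Pool.Agent.V7H17.NE.Sto

/-!
# Two bases which are permuted by a `p`-group in characteristic `p`
-/

set_option autoImplicit false
set_option linter.unusedSectionVars false

open scoped Classical BigOperators

noncomputable section

namespace Pool.Agent.V7H17.NE

section abs

variable {F M Γ : Type} [Field F] [AddCommGroup M] [Module F M] [Group Γ] [Finite Γ] {p : ℕ}
  [Fact p.Prime] [CharP F p]

/-- the sum of an invariant function is the sum over the fixed points -/
theorem inv_sum (N : Subgroup Γ) [N.Normal] (hN : IsPGroup p (Γ ⧸ N)) (Z : Type) [Fintype Z]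
    [MulAction Γ Z] (hZ : ∀ g ∈ N, ∀ z : Z, g • z = z) (h : Z → F)
    (hh : ∀ (g : Γ) (z : Z), h (g • z) = h z) :
    ∑ z, h z = ∑ z : {z : Z // ∀ g : Γ, g • z = z}, h z.1 := by
  have h0 : ∑ z : {z : Z // ∀ g : Γ, g • z = z}, h z.1 =
      ∑ z ∈ Finset.univ.filter (fun z : Z => ∀ g : Γ, g • z = z), h z :=
    (Finset.sum_subtype (p := fun z : Z => ∀ g : Γ, g • z = z)
      (Finset.univ.filter (fun z : Z => ∀ g : Γ, g • z = z)) (by simp) h).symm
  rw [h0, ← Finset.sum_fiberwise_of_maps_to (s := Finset.univ) (t := Finset.univ.image h)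
    (g := h) (fun z _ => Finset.mem_image_of_mem h (Finset.mem_univ z)),
    ← Finset.sum_fiberwise_of_maps_to
      (s := Finset.univ.filter (fun z : Z => ∀ g : Γ, g • z = z)) (t := Finset.univ.image h)
    (g := h) (fun z _ => Finset.mem_image_of_mem h (Finset.mem_univ z))]
  refine Finset.sum_congr rfl fun c _ => ?_
  rw [Finset.sum_congr rfl (g := fun _ => c) (fun z hz => (Finset.mem_filter.1 hz).2),
    Finset.sum_congr (s₂ := (Finset.univ.filter (fun z : Z => ∀ g : Γ, g • z = z)).filter
      (fun z => h z = c)) rfl (g := fun _ => c) (fun z hz => (Finset.mem_filter.1 hz).2),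
    Finset.sum_const, Finset.sum_const, nsmul_eq_mul, nsmul_eq_mul]
  congr 1
  rw [CharP.natCast_eq_natCast F p]
  let _ : MulAction Γ {z : Z // h z = c} :=
    { smul := fun g z => ⟨g • z.1, by rw [hh, z.2]⟩
      one_smul := fun z => Subtype.ext (one_smul Γ z.1)
      mul_smul := fun a b z => Subtype.ext (mul_smul a b z.1) }
  have h1 := fix_modEq N hN (S := {z : Z // h z = c}) (fun g hg z => Subtype.ext (hZ g hg z.1))
  have e1 : Nat.card {z : Z // h z = c} = (Finset.univ.filter fun z => h z = c).card := by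
    rw [Nat.card_eq_fintype_card, Fintype.card_subtype]
  have e2 : Nat.card {s : {z : Z // h z = c} // ∀ g : Γ, g • s = s} =
      ((Finset.univ.filter (fun z : Z => ∀ g : Γ, g • z = z)).filter (fun z => h z = c)).card := by
    rw [Finset.filter_filter, ← Fintype.card_subtype, ← Nat.card_eq_fintype_card]
    refine Nat.card_congr
      { toFun := fun s => ⟨s.1.1, fun g => congrArg Subtype.val (s.2 g), s.1.2⟩
        invFun := fun z => ⟨⟨z.1, z.2.2⟩, fun g => Subtype.ext (z.2.1 g)⟩
        left_inv := fun s => rfl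
        right_inv := fun z => rfl }
  rw [e1, e2] at h1
  exact h1

/-- the two bases -/
theorem two_bases (N : Subgroup Γ) [N.Normal] (hN : IsPGroup p (Γ ⧸ N)) (Y Z : Type) [Finite Y]
    [Finite Z] [MulAction Γ Y] [MulAction Γ Z] (hY : ∀ g ∈ N, ∀ y : Y, g • y = y)
    (hZ : ∀ g ∈ N, ∀ z : Z, g • z = z) (cj : Γ → M →ₗ[F] M) (f : Y → M) (g : Z → M)
    (hf : LinearIndependent F f) (hg : LinearIndependent F g)
    (hfc : ∀ γ y, cj γ (f y) = f (γ • y)) (hgc : ∀ γ z, cj γ (g z) = g (γ • z))
    (hs : Submodule.span F (Set.range f) = Submodule.span F (Set.range g)) :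
    Nat.card {y : Y // ∀ γ : Γ, γ • y = y} = Nat.card {z : Z // ∀ γ : Γ, γ • z = z} := by
  have : Fintype Y := Fintype.ofFinite Y
  have : Fintype Z := Fintype.ofFinite Z
  have ha : ∀ y, ∃ a : Z → F, ∑ z, a z • g z = f y := fun y =>
    (Submodule.mem_span_range_iff_exists_fun F).1 (by
      rw [← hs]
      exact Submodule.subset_span ⟨y, rfl⟩)
  have hb : ∀ z, ∃ b : Y → F, ∑ y, b y • f y = g z := fun z =>
    (Submodule.mem_span_range_iff_exists_fun F).1 (by
      rw [hs]
      exact Submodule.subset_span ⟨z, rfl⟩)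
  choose a ha using ha
  choose b hb using hb
  -- uniqueness of coefficients
  have huf : ∀ c d : Y → F, ∑ y, c y • f y = ∑ y, d y • f y → c = d := by
    intro c d h
    funext y
    have h1 := Fintype.linearIndependent_iff.1 hf (fun y => c y - d y) (by
      simp only [sub_smul]
      rw [Finset.sum_sub_distrib, h, sub_self]) y
    exact sub_eq_zero.1 h1
  have hug : ∀ c d : Z → F, ∑ z, c z • g z = ∑ z, d z • g z → c = d := by
    intro c d h
    funext y
    have h1 := Fintype.linearIndependent_iff.1 hg (fun y => c y - d y) (by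
      simp only [sub_smul]
      rw [Finset.sum_sub_distrib, h, sub_self]) y
    exact sub_eq_zero.1 h1
  have hab : ∀ y y', ∑ z, a y z * b z y' = if y = y' then 1 else 0 := by
    intro y y'
    have h1 := huf (fun y' => ∑ z, a y z * b z y') (fun y' => if y = y' then 1 else 0) (by
      simp only [Finset.sum_smul, mul_smul]
      rw [Finset.sum_comm]
      simp only [← Finset.smul_sum, hb, ha, ite_smul, one_smul, zero_smul]
      rw [Finset.sum_ite_eq Finset.univ y, if_pos (Finset.mem_univ _)])
    exact congrFun h1 y'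
  have hba : ∀ z z', ∑ y, b z y * a y z' = if z = z' then 1 else 0 := by
    intro z z'
    have h1 := hug (fun z' => ∑ y, b z y * a y z') (fun z' => if z = z' then 1 else 0) (by
      simp only [Finset.sum_smul, mul_smul]
      rw [Finset.sum_comm]
      simp only [← Finset.smul_sum, hb, ha, ite_smul, one_smul, zero_smul]
      rw [Finset.sum_ite_eq Finset.univ z, if_pos (Finset.mem_univ _)])
    exact congrFun h1 z'
  have hae : ∀ (γ : Γ) y z, a (γ • y) (γ • z) = a y z := by
    intro γ y z
    have h1 := congrArg (cj γ) (ha y)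
    rw [hfc, ← ha (γ • y), map_sum] at h1
    simp only [map_smul, hgc] at h1
    rw [← Equiv.sum_comp (MulAction.toPerm γ) (fun z => a (γ • y) z • g z)] at h1
    have h2 := Fintype.linearIndependent_iff.1 (hg.comp _ (MulAction.injective γ))
      (fun z => a y z - a (γ • y) (γ • z)) (by
        simp only [sub_smul, Function.comp_apply]
        rw [Finset.sum_sub_distrib, sub_eq_zero]
        exact h1) z
    exact (sub_eq_zero.1 h2).symm
  have hbe : ∀ (γ : Γ) z y, b (γ • z) (γ • y) = b z y := by
    intro γ z y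
    have h1 := congrArg (cj γ) (hb z)
    rw [hgc, ← hb (γ • z), map_sum] at h1
    simp only [map_smul, hfc] at h1
    rw [← Equiv.sum_comp (MulAction.toPerm γ) (fun y => b (γ • z) y • f y)] at h1
    have h2 := Fintype.linearIndependent_iff.1 (hf.comp _ (MulAction.injective γ))
      (fun y => b z y - b (γ • z) (γ • y)) (by
        simp only [sub_smul, Function.comp_apply]
        rw [Finset.sum_sub_distrib, sub_eq_zero]
        exact h1) y
    exact (sub_eq_zero.1 h2).symm
  let A : Matrix {y : Y // ∀ γ : Γ, γ • y = y} {z : Z // ∀ γ : Γ, γ • z = z} F :=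
    fun y z => a y.1 z.1
  let Bm : Matrix {z : Z // ∀ γ : Γ, γ • z = z} {y : Y // ∀ γ : Γ, γ • y = y} F :=
    fun z y => b z.1 y.1
  have hAB : A * Bm = 1 := by
    ext y y'
    rw [Matrix.mul_apply, Matrix.one_apply]
    have h1 := inv_sum N hN Z hZ (fun z => a y.1 z * b z y'.1) (by
      intro γ z
      show a y.1 (γ • z) * b (γ • z) y'.1 = a y.1 z * b z y'.1
      have e1 := hae γ y.1 z
      have e2 := hbe γ z y'.1
      rw [y.2] at e1
      rw [y'.2] at e2
      rw [e1, e2])
    rw [hab] at h1
    refine h1.symm.trans ?_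
    by_cases h : y = y'
    · rw [if_pos h, if_pos (congrArg Subtype.val h)]
    · rw [if_neg h, if_neg fun h' => h (Subtype.ext h')]
  have hBA : Bm * A = 1 := by
    ext z z'
    rw [Matrix.mul_apply, Matrix.one_apply]
    have h1 := inv_sum N hN Y hY (fun y => b z.1 y * a y z'.1) (by
      intro γ y
      show b z.1 (γ • y) * a (γ • y) z'.1 = b z.1 y * a y z'.1
      have e1 := hae γ y z'.1
      have e2 := hbe γ z.1 y
      rw [z'.2] at e1
      rw [z.2] at e2
      rw [e1, e2])
    rw [hba] at h1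
    refine h1.symm.trans ?_
    by_cases h : z = z'
    · rw [if_pos h, if_pos (congrArg Subtype.val h)]
    · rw [if_neg h, if_neg fun h' => h (Subtype.ext h')]
  have e := Matrix.toLin'OfInv hAB hBA
  have h1 := e.finrank_eq
  rw [Module.finrank_fintype_fun_eq_card, Module.finrank_fintype_fun_eq_card] at h1
  rw [Nat.card_eq_fintype_card, Nat.card_eq_fintype_card]
  first | exact h1 | exact h1.symm

/-- the orbit sums -/
theorem orb_basis (Δ : Subgroup Γ) [Δ.Normal] (X : Type) [Finite X] [MulAction Γ X]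
    (cj : Γ → M →ₗ[F] M) (e : X → M) (he : LinearIndependent F e)
    (hc : ∀ γ x, cj γ (e x) = e (γ • x)) :
    ∃ e' : Cl Δ X → M, LinearIndependent F e' ∧ (∀ γ C, cj γ (e' C) = e' (γ • C)) ∧
      ∀ v, v ∈ Submodule.span F (Set.range e') ↔
        v ∈ Submodule.span F (Set.range e) ∧ ∀ δ ∈ Δ, cj δ v = v := by
  have : Fintype X := Fintype.ofFinite X
  have : Fintype (Cl Δ X) := Fintype.ofFinite _
  let e' : Cl Δ X → M := fun C => ∑ x ∈ Finset.univ.filter (fun x => Cl.mk Δ x = C), e x
  have key : ∀ a : Cl Δ X → F, ∑ C, a C • e' C = ∑ x, a (Cl.mk Δ x) • e x := by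
    intro a
    rw [← Finset.sum_fiberwise Finset.univ (fun x : X => Cl.mk Δ x)
      (fun x => a (Cl.mk Δ x) • e x)]
    refine Finset.sum_congr rfl fun C _ => ?_
    rw [Finset.smul_sum]
    refine Finset.sum_congr rfl fun x hx => ?_
    rw [(Finset.mem_filter.1 hx).2]
  have hec : ∀ γ C, cj γ (e' C) = e' (γ • C) := by
    intro γ C
    show cj γ (∑ x ∈ Finset.univ.filter (fun x => Cl.mk Δ x = C), e x) =
      ∑ x ∈ Finset.univ.filter (fun x => Cl.mk Δ x = γ • C), e x
    rw [map_sum]
    refine Finset.sum_nbij' (fun x => γ • x) (fun x => γ⁻¹ • x) ?_ ?_ ?_ ?_ ?_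
    · intro x hx
      rw [Finset.mem_filter] at hx ⊢
      refine ⟨Finset.mem_univ _, ?_⟩
      rw [← smul_mk, hx.2]
    · intro x hx
      rw [Finset.mem_filter] at hx ⊢
      refine ⟨Finset.mem_univ _, ?_⟩
      rw [← smul_mk, hx.2, inv_smul_smul]
    · intro x _
      exact inv_smul_smul γ x
    · intro x _
      exact smul_inv_smul γ x
    · intro x _
      exact hc γ x
  refine ⟨e', ?_, hec, ?_⟩
  · rw [Fintype.linearIndependent_iff]
    intro a ha C
    rw [key] at ha
    obtain ⟨x, rfl⟩ := mk_surj Δ X C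
    exact Fintype.linearIndependent_iff.1 he _ ha x
  · intro v
    constructor
    · intro hv
      obtain ⟨a, rfl⟩ := (Submodule.mem_span_range_iff_exists_fun F).1 hv
      refine ⟨?_, fun δ hδ => ?_⟩
      · rw [key]
        exact Submodule.sum_mem _ fun x _ =>
          Submodule.smul_mem _ _ (Submodule.subset_span ⟨x, rfl⟩)
      · rw [map_sum]
        refine Finset.sum_congr rfl fun C _ => ?_
        rw [map_smul, hec, smul_cl Δ X δ hδ]
    · rintro ⟨hv, hδ⟩
      obtain ⟨a, rfl⟩ := (Submodule.mem_span_range_iff_exists_fun F).1 hv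
      have ha : ∀ δ ∈ Δ, ∀ x : X, a (δ • x) = a x := by
        intro δ hδ' x
        have h1 := hδ δ hδ'
        rw [map_sum, ← Equiv.sum_comp (MulAction.toPerm δ) (fun i => a i • e i),
          ← sub_eq_zero, ← Finset.sum_sub_distrib] at h1
        have h2 := Fintype.linearIndependent_iff.1
          (he.comp _ (MulAction.injective δ)) (fun i => a i - a (δ • i)) (by
            rw [← h1]
            refine Finset.sum_congr rfl fun j _ => ?_
            rw [map_smul, hc, sub_smul]
            rfl) x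
        exact (sub_eq_zero.1 h2).symm
      have hq : ∀ x : X, a (Quotient.out (s := clSetoid Δ X) (Cl.mk Δ x)) = a x := by
        intro x
        have h1 : Cl.mk Δ (Quotient.out (s := clSetoid Δ X) (Cl.mk Δ x)) = Cl.mk Δ x :=
          Quotient.out_eq (s := clSetoid Δ X) (Cl.mk Δ x)
        obtain ⟨g, hg, h2⟩ := (mk_eq Δ X).1 h1
        have h3 := ha g hg (Quotient.out (s := clSetoid Δ X) (Cl.mk Δ x))
        rw [h2] at h3
        exact h3.symm
      have h4 : ∑ x, a x • e x = ∑ C : Cl Δ X, a (Quotient.out (s := clSetoid Δ X) C) • e' C := by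
        rw [key (fun C => a (Quotient.out (s := clSetoid Δ X) C))]
        exact Finset.sum_congr rfl fun x _ => by rw [hq]
      rw [h4]
      exact Submodule.sum_mem _ fun C _ =>
        Submodule.smul_mem _ _ (Submodule.subset_span ⟨C, rfl⟩)

/-- the fixed points of a basis of the space of the invariants -/
theorem two_perm (Δ : Subgroup Γ) [Δ.Normal] (hp : IsPGroup p (Γ ⧸ Δ)) (X Y : Type) [Finite X]
    [Finite Y] [MulAction Γ X] [MulAction Γ Y] (hY : ∀ g ∈ Δ, ∀ y : Y, g • y = y)
    (cj : Γ → M →ₗ[F] M) (e : X → M) (f : Y → M) (he : LinearIndependent F e)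
    (hf : LinearIndependent F f) (hec : ∀ γ x, cj γ (e x) = e (γ • x))
    (hfc : ∀ γ y, cj γ (f y) = f (γ • y))
    (hs : ∀ v, v ∈ Submodule.span F (Set.range f) ↔
      v ∈ Submodule.span F (Set.range e) ∧ ∀ δ ∈ Δ, cj δ v = v) :
    Nat.card {y : Y // ∀ γ : Γ, γ • y = y} = numStable X Δ ⊤ := by
  obtain ⟨e', h1, h2, h3⟩ := orb_basis Δ X cj e he hec
  rw [so_top]
  refine two_bases Δ hp Y (Cl Δ X) hY (fun g hg C => smul_cl Δ X g hg C) cj f e' hf h1 hfc h2 ?_
  ext v
  rw [h3, hs]

end abs

end Pool.Agent.V7H17.NE
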