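import Pool.Agent.V7H17.NE.SepE

/-!
# The block of `Γ` which covers an invariant block
-/

set_option autoImplicit false
set_option linter.unusedSectionVars false

open scoped Classical BigOperators

noncomputable section

namespace Pool.Agent.V7H17.NE

open Pool.Agent.N85.WM
open Pool.Agent.Y63.NV
open Pool.Agent.V7H23.AW (nil_of exists_irr)

section idx

variable {Γ : Type} [Group Γ] [Finite Γ] {p : ℕ} [Fact p.Prime]

/-- proper intermediate groups are contained in normal subgroups of index `p` -/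
theorem exists_idx (G : Subgroup Γ) [G.Normal] (hp : IsPGroup p (Γ ⧸ G)) (D : Subgroup Γ)
    (hD : G ≤ D) (hne : D ≠ ⊤) :
    ∃ M : Subgroup Γ, M.Normal ∧ D ≤ M ∧ Nat.card (Γ ⧸ M) = p := by
  have hpr : p.Prime := Fact.out
  obtain ⟨k, hk⟩ := IsPGroup.iff_card.1 hp
  have hDc : (D.map (QuotientGroup.mk' G)).comap (QuotientGroup.mk' G) = D := by
    rw [Subgroup.comap_map_eq, QuotientGroup.ker_mk', sup_eq_left]
    exact hD
  obtain ⟨j, hjk, hj⟩ := (Nat.dvd_prime_pow hpr).1
    (hk ▸ Subgroup.card_subgroup_dvd_card (D.map (QuotientGroup.mk' G)))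
  have hlt : j < k := by
    rcases Nat.lt_or_ge j k with h | h
    · exact h
    · exfalso
      have hjk' : j = k := le_antisymm hjk h
      apply hne
      have h1 : D.map (QuotientGroup.mk' G) = ⊤ := by
        apply Subgroup.eq_top_of_card_eq
        rw [hj, hk, hjk']
      rw [← hDc, h1, Subgroup.comap_top]
  obtain ⟨K, hK, hDK⟩ := Sylow.exists_subgroup_card_pow_prime_le (G := Γ ⧸ G) (p := p)
    (n := j) (m := k - 1) (by rw [hk]; exact pow_dvd_pow p (Nat.sub_le k 1))
    (D.map (QuotientGroup.mk' G)) hj (by omega)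
  have hi : K.index = p := by
    have e1 := K.card_mul_index
    rw [hK, hk] at e1
    have e2 : p ^ k = p ^ (k - 1) * p := by
      rw [← pow_succ]
      congr 1
      omega
    rw [e2] at e1
    exact Nat.eq_of_mul_eq_mul_left (pow_pos hpr.pos _) e1
  have hKn : K.Normal := Subgroup.normal_of_index_eq_minFac_card (by
    rw [hi, hk, hpr.pow_minFac (by omega)])
  refine ⟨K.comap (QuotientGroup.mk' G), hKn.comap _, ?_, ?_⟩
  · rw [← hDc]
    exact Subgroup.comap_mono hDK
  · show (K.comap (QuotientGroup.mk' G)).index = p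
    rw [Subgroup.index_comap_of_surjective _ (QuotientGroup.mk'_surjective G), hi]

end idx

section uniq

variable {F : Type} [Field F] [IsAlgClosed F] {p : ℕ} [Fact p.Prime] [CharP F p]

/-- the existence of covering blocks -/
theorem ex_cov {Γ : Type} [Group Γ] [Finite Γ] (G : Subgroup Γ) [G.Normal]
    (hp : IsPGroup p (Γ ⧸ G)) {B : (G → F) → F} (hB : IsBlock B) {w : Γ → F}
    (hw : SepEl G B w) : ∃ b : (Γ → F) → F, IsBlock b ∧ b w = 1 := by
  obtain ⟨φ, hφ⟩ := exists_irr hB
  have h1 := orbitsP (p := p) Pool.Agent.Y914.NV.irr Pool.Agent.Y705.NV.ppt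
    (fun p _ F _ _ _ N _ _ f hf hf' => Pool.Agent.Y275.NV.wed F N f hf
      (Pool.Agent.Y705.NV.nil p F N f hf hf'))
    (Pool.Agent.Y705.NV.schur Pool.Agent.Y914.NV.irr) G w (1 : F) hw.inz hp
  let _ := Pool.Agent.Y63.NV.B77.actX G w (1 : F) hw.inz
  have hfin : Finite (Pool.Agent.Y63.NV.B77.Irr F G) :=
    Pool.Agent.Y63.NV.B77.irr_fin Pool.Agent.Y914.NV.irr
  have h2 : 0 < Nat.card (Quotient (MulAction.orbitRel Γ
      (Pool.Agent.Y63.NV.B77.XX G w (1 : F)))) := by
    have h3 : Nonempty (Quotient (MulAction.orbitRel Γ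
        (Pool.Agent.Y63.NV.B77.XX G w (1 : F)))) := by
      refine ⟨Quotient.mk _ ⟨φ, ?_⟩⟩
      refine (blkOf_iff φ (inz_cls hw.inz) (1 : F)).2 ?_
      rw [hφ _ (inz_cls hw.inz)]
      exact hw.one
    exact Nat.card_pos
  rw [← h1, lnum_top hw.inz.conj] at h2
  obtain ⟨⟨ψ, hψ⟩⟩ := (Nat.card_pos_iff.1 h2).1
  exact ⟨Pool.Agent.N85.WM.blkOf ψ, blkOf_block ψ, hψ⟩

/-- the uniqueness of covering blocks -/
theorem uniq_aux (n : ℕ) : ∀ (Γ : Type) [Group Γ] [Finite Γ] (G : Subgroup Γ) [G.Normal]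
    (_ : IsPGroup p (Γ ⧸ G)) (B : (G → F) → F) (_ : IsBlock B) (w : Γ → F)
    (_ : SepEl G B w), Nat.card Γ ≤ n → ∀ b b' : (Γ → F) → F, IsBlock b → IsBlock b' →
    b w = 1 → b' w = 1 → BEq b b' := by
  induction n with
  | zero =>
    intro Γ _ _ G _ _ B _ w _ hn
    have := Nat.card_pos (α := Γ)
    omega
  | succ n ih =>
    intro Γ _ _ G _ hp B hB w hw hn b b' hb hb' h h'
    by_cases hG : G = ⊤
    · intro f hf
      have hz : InZ G f := ⟨hf, fun x hx => absurd (by rw [hG]; trivial) hx⟩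
      rw [hw.cov hb (by rw [h]; exact one_ne_zero) f hz,
        hw.cov hb' (by rw [h']; exact one_ne_zero) f hz]
    · obtain ⟨M, hMn, hGM, hM⟩ := exists_idx G hp G le_rfl hG
      have hpM : IsPGroup p (M ⧸ G.subgroupOf M) := pq_mid G hp M
      have hlt : Nat.card M < Nat.card Γ := by
        have e1 := M.card_mul_index
        have e2 : 2 ≤ p := (Fact.out : p.Prime).two_le
        have e3 : 0 < Nat.card M := Nat.card_pos
        have e4 : M.index = p := hM
        rw [e4] at e1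
        nlinarith
      obtain ⟨β, hβ, hβ1⟩ := ex_cov (G.subgroupOf M) hpM (isBlock_of hGM hB) (hw.mid hGM)
      have hwM : SepEl M β w := by
        refine ⟨inz_mono hGM hw.inz, hβ1, fun β' hβ' hne => ?_⟩
        by_contra h0
        apply hne
        refine ih M (G.subgroupOf M) hpM (blkOf hGM B) (isBlock_of hGM hB) _ (hw.mid hGM)
          (by omega) β β' hβ hβ' hβ1 ?_
        have h1 := (hw.mid hGM).cov hβ' h0 _ (hw.mid hGM).inz
        exact h1.trans hw.one
      intro f hf
      refine Pool.Agent.Y63.NV.B286.frob p hM hb hb' (fun z hz => ?_) f hf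
      rw [hwM.cov hb (by rw [h]; exact one_ne_zero) z hz,
        hwM.cov hb' (by rw [h']; exact one_ne_zero) z hz]

theorem uniq_cov {Γ : Type} [Group Γ] [Finite Γ] (G : Subgroup Γ) [G.Normal]
    (hp : IsPGroup p (Γ ⧸ G)) {B : (G → F) → F} (hB : IsBlock B) {w : Γ → F}
    (hw : SepEl G B w) {b b' : (Γ → F) → F} (hb : IsBlock b) (hb' : IsBlock b')
    (h : b w = 1) (h' : b' w = 1) : BEq b b' :=
  uniq_aux _ Γ G hp B hB w hw le_rfl b b' hb hb' h h'

end uniq

end Pool.Agent.V7H17.NE
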