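import Pool.Agent.V7H17.NE.UniqC

/-!
# The weights of `Γ` by the subgroups generated by `G` and `Q`
-/

set_option autoImplicit false
set_option linter.unusedSectionVars false

open scoped Classical BigOperators

noncomputable section

namespace Pool.Agent.V7H17.NE

open Pool.Agent.N85.WM
open Pool.Agent.Y63.NV
open Pool.Agent.Y487.NV (fib nw_gen card_gen wl wsum_eq local_eqL)

attribute [local instance] Pool.Agent.Y487.NV.fsubL

section tr

variable {F A A' : Type} [Field F] [Group A] [Group A'] [Finite A] [Finite A'] {p : ℕ}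

theorem wl_equiv (red : integralClosure ℤ ℂ →+* F) (e : A ≃* A') {z' : A' → F}
    (hz' : IsClassFun z') (c : F) (Q : Subgroup A) :
    wl p red (fun x => z' (e x)) c Q = wl p red z' c (Q.map e.toMonoidHom) := by
  obtain ⟨j, hj⟩ : ∃ j : Subgroup.normalizer (Q : Set A) →* A', ∀ x, j x = e x :=
    ⟨e.toMonoidHom.comp (Subgroup.subtype _), fun x => rfl⟩
  have hji : Function.Injective j := by
    intro x y hxy
    rw [hj, hj] at hxy
    exact Subtype.ext (e.injective hxy)
  have hnm := Pool.Agent.Y63.AWC.normalizer_map e Q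
  have hV : ∀ n : A', (MonoidHom.id A') n ∈
      Subgroup.normalizer ((Q.map e.toMonoidHom : Subgroup A') : Set A') ↔ n ∈ j.range := by
    intro n
    rw [MonoidHom.id_apply, ← hnm]
    constructor
    · rintro ⟨x, hx, rfl⟩
      exact ⟨⟨x, hx⟩, hj _⟩
    · rintro ⟨x, rfl⟩
      rw [hj]
      exact ⟨x, x.2, rfl⟩
  have hs : Function.Surjective (MonoidHom.id A') := Function.surjective_id
  have e1 := card_gen (MonoidHom.id A') hs j hji _ hV
  have e2 := nw_gen p red (MonoidHom.id A') hs z' j hji _ hV
    (Q.subgroupOf (Subgroup.normalizer (Q : Set A)))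
    ((Q.map e.toMonoidHom).subgroupOf
      (Subgroup.normalizer ((Q.map e.toMonoidHom : Subgroup A') : Set A'))) (by
      intro a h
      rw [Subgroup.mem_subgroupOf, Subgroup.mem_subgroupOf]
      change _ ↔ j a ∈ Q.map e.toMonoidHom
      rw [hj, mem_map_e, e.symm_apply_apply]) (fun x => z' (e x)) (fun a => by rw [hj]) (by
      intro g x
      change z' (e (g * x * (g : A)⁻¹)) = z' (e x)
      rw [map_mul, map_mul, map_inv]
      exact hz' _ _) c
  have e3 : ∀ y : A', fib (MonoidHom.id A') z' y = z' y := by
    intro y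
    unfold fib
    rw [finsum_eq_single _ y]
    · rw [if_pos (MonoidHom.id_apply A' y)]
    · intro x hx
      rw [if_neg]
      rw [MonoidHom.id_apply]
      exact hx
  simp only [e3] at e2
  have e4 : (MonoidHom.id A').ker = ⊥ := by
    rw [MonoidHom.ker_eq_bot_iff]
    exact Function.injective_id
  rw [e4, Subgroup.card_bot, one_mul] at e1
  unfold wl
  rw [e2, e1]

theorem sum_wl_equiv (red : integralClosure ℤ ℂ →+* F) (e : A ≃* A') {z' : A' → F}
    (hz' : IsClassFun z') (c : F) (P : Subgroup A → Prop) (P' : Subgroup A' → Prop)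
    [DecidablePred P] [DecidablePred P'] (hP : ∀ Q, P Q ↔ P' (Q.map e.toMonoidHom)) :
    (∑ Q : Subgroup A, if P Q then wl p red (fun x => z' (e x)) c Q else 0) =
      ∑ Q : Subgroup A', if P' Q then wl p red z' c Q else 0 := by
  rw [← (MulEquiv.mapSubgroup e).toEquiv.sum_comp]
  refine Finset.sum_congr rfl fun Q _ => ?_
  change _ = if P' (Q.map e.toMonoidHom) then wl p red z' c (Q.map e.toMonoidHom) else 0
  rw [wl_equiv red e hz' c Q]
  by_cases h : P Q
  · rw [if_pos h, if_pos ((hP Q).1 h)]
  · rw [if_neg h, if_neg fun h' => h ((hP Q).2 h')]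

end tr

section ind

variable {F : Type} [Field F] [IsAlgClosed F] {p : ℕ} [Fact p.Prime] [CharP F p]

/-- the weighted number of the weights `Q` of `Γ` with `GQ = D` -/
def AA (p : ℕ) {F : Type} [Field F] (red : integralClosure ℤ ℂ →+* F) {Γ : Type} [Group Γ]
    [Finite Γ] (G : Subgroup Γ) (z : Γ → F) (c : F) (D : Subgroup Γ) : ℕ :=
  ∑ Q : Subgroup Γ, if IsPGroup p Q ∧ G ⊔ Q = D then wl p red z c Q else 0

/-- the hypothesis on the numbers of fixed points -/
def Hyp (p : ℕ) {F : Type} [Field F] (red : integralClosure ℤ ℂ →+* F) {Γ : Type} [Group Γ]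
    (G : Subgroup Γ) (z : Γ → F) (c : F) (Y : Type) [MulAction Γ Y] : Prop :=
  ∀ (D : Type) [Group D] [Finite D] (ι : D →* Γ), Function.Injective ι → G ≤ ι.range →
    (∑ Q : Subgroup D, if IsPGroup p Q ∧ G.comap ι ⊔ Q = ⊤ then
      wl p red (fun x => z (ι x)) c Q else 0) =
      Nat.card D * Nat.card {y : Y // ∀ d : D, ι d • y = y}

/-- the modular law -/
theorem modular {Γ : Type} [Group Γ] (G M R : Subgroup Γ) [G.Normal] (hGM : G ≤ M) :
    (G ⊔ R) ⊓ M = G ⊔ R ⊓ M := by
  apply le_antisymm
  · rintro x ⟨hx, hxM⟩
    have h1 : x ∈ ((G ⊔ R : Subgroup Γ) : Set Γ) := hx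
    rw [Subgroup.normal_mul, Set.mem_mul] at h1
    obtain ⟨g, hg, r, hr, rfl⟩ := h1
    refine Subgroup.mul_mem_sup hg ⟨hr, ?_⟩
    have h2 := M.mul_mem (M.inv_mem (hGM hg)) hxM
    rwa [inv_mul_cancel_left] at h2
  · exact le_inf (sup_le_sup le_rfl inf_le_left) (sup_le hGM inf_le_right)

theorem sup_sub {Γ : Type} [Group Γ] (G M R : Subgroup Γ) [G.Normal] (hGM : G ≤ M)
    (D : Subgroup Γ) (hDM : D ≤ M) :
    G.subgroupOf M ⊔ R.subgroupOf M = D.subgroupOf M ↔ (G ⊔ R) ⊓ M = D := by
  have h1 : (G.subgroupOf M ⊔ R.subgroupOf M).map M.subtype = G ⊔ R ⊓ M := by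
    rw [Subgroup.map_sup, Subgroup.subgroupOf_map_subtype, Subgroup.subgroupOf_map_subtype,
      inf_eq_left.2 hGM]
  have h2 : (D.subgroupOf M).map M.subtype = D := by
    rw [Subgroup.subgroupOf_map_subtype, inf_eq_left.2 hDM]
  rw [modular G M R hGM, ← h1]
  constructor
  · intro h
    rw [h, h2]
  · intro h
    apply Subgroup.map_injective M.subtype_injective
    rw [h, h2]

theorem top_or {Γ : Type} [Group Γ] [Finite Γ] {p : ℕ} (hp : p.Prime) (M : Subgroup Γ) [M.Normal]
    (hM : Nat.card (Γ ⧸ M) = p) (E : Subgroup Γ) : E ≤ M ∨ M ⊔ E = ⊤ := by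
  by_cases h : E ≤ M
  · exact Or.inl h
  · right
    exact Pool.Agent.Y487.NV.sup_eq_top M hp hM E h

theorem not_both {Γ : Type} [Group Γ] {p : ℕ} (hp : p.Prime) (M : Subgroup Γ)
    (hM : Nat.card (Γ ⧸ M) = p) (E : Subgroup Γ) (h1 : E ≤ M) (h2 : M ⊔ E = ⊤) : False := by
  rw [sup_eq_left.2 h1] at h2
  have h3 : M.index = p := hM
  rw [h2, Subgroup.index_top] at h3
  exact hp.one_lt.ne h3

theorem card_mid {Γ : Type} [Group Γ] [Finite Γ] {p : ℕ} (M : Subgroup Γ) [M.Normal]
    (hM : Nat.card (Γ ⧸ M) = p) (E D : Subgroup Γ) (h1 : M ⊔ E = ⊤) (h2 : E ⊓ M = D) :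
    Nat.card E = p * Nat.card D := by
  have h3 : M.relIndex E = p := by
    have h4 := Subgroup.relIndex_sup_left (K := M) (H := E)
    rw [h1, Subgroup.relIndex_top_right] at h4
    rw [← h4]
    exact hM
  have h5 := (M.subgroupOf E).card_mul_index
  have h6 : Nat.card (M.subgroupOf E) = Nat.card D := by
    rw [← h2]
    refine Nat.card_congr
      { toFun := fun x => ⟨x.1, x.1.2, x.2⟩
        invFun := fun x => ⟨⟨x.1, x.2.1⟩, x.2.2⟩
        left_inv := fun x => rfl
        right_inv := fun x => rfl }
  have h7 : (M.subgroupOf E).index = p := h3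
  rw [h6, h7] at h5
  rw [← h5, mul_comm]

/-- sums over fibres -/
theorem fib_sum {α β : Type} [Fintype α] [Fintype β] (f : α → β) (P : α → Prop) (R : β → Prop)
    (v : α → ℕ) [∀ b, Decidable (R b)] [∀ a b, Decidable (P a ∧ f a = b)]
    [∀ a, Decidable (P a ∧ R (f a))] : (∑ b : β, if R b then (∑ a : α, if P a ∧ f a = b then v a else 0) else 0) =
      ∑ a : α, if P a ∧ R (f a) then v a else 0 := by
  have h1 : ∀ b : β, (if R b then (∑ a : α, if P a ∧ f a = b then v a else 0) else 0) =
      ∑ a : α, if f a = b then (if P a ∧ R (f a) then v a else 0) else 0 := by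
    intro b
    by_cases hb : R b
    · rw [if_pos hb]
      refine Finset.sum_congr rfl fun a _ => ?_
      by_cases ha : f a = b
      · rw [if_pos ha]
        by_cases hP : P a
        · rw [if_pos ⟨hP, ha⟩, if_pos ⟨hP, by rw [ha]; exact hb⟩]
        · rw [if_neg fun h => hP h.1, if_neg fun h => hP h.1]
      · rw [if_neg ha, if_neg fun h => ha h.2]
    · rw [if_neg hb]
      refine (Finset.sum_eq_zero fun a _ => ?_).symm
      by_cases ha : f a = b
      · rw [if_pos ha, if_neg fun h => hb (by rw [← ha]; exact h.2)]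
      · rw [if_neg ha]
  rw [Finset.sum_congr rfl fun b _ => h1 b, Finset.sum_comm]
  refine Finset.sum_congr rfl fun a _ => ?_
  rw [Finset.sum_ite_eq Finset.univ (f a), if_pos (Finset.mem_univ _)]

theorem fib_card {Y β : Type} [Finite Y] [Fintype β] (s : Y → β) (R : β → Prop)
    [∀ b, Decidable (R b)] :
    (∑ b : β, if R b then Nat.card {y : Y // s y = b} else 0) = Nat.card {y : Y // R (s y)} := by
  have : Fintype Y := Fintype.ofFinite Y
  have h1 : ∀ b : β, Nat.card {y : Y // s y = b} = ∑ y : Y, if True ∧ s y = b then 1 else 0 := by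
    intro b
    simp only [true_and]
    rw [Nat.card_eq_fintype_card, Fintype.card_subtype, Finset.card_filter]
  rw [Finset.sum_congr rfl fun b _ => by rw [h1 b], fib_sum]
  simp only [true_and]
  rw [Nat.card_eq_fintype_card, Fintype.card_subtype, Finset.card_filter]

theorem Hyp.mid (red : integralClosure ℤ ℂ →+* F) {Γ : Type} [Group Γ] {G : Subgroup Γ}
    {z : Γ → F} {c : F} {Y : Type} [MulAction Γ Y] (h : Hyp p red G z c Y) {M : Subgroup Γ}
    (hGM : G ≤ M) : Hyp p red (G.subgroupOf M) (fun x : M => z x) c Y := by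
  intro D _ _ ι hι hG
  exact h D (M.subtype.comp ι) (M.subtype_injective.comp hι) (by
    intro x hx
    obtain ⟨d, hd⟩ := hG (show (⟨x, hGM hx⟩ : M) ∈ G.subgroupOf M from hx)
    exact ⟨d, congrArg Subtype.val hd⟩)

/-- **The weights of `Γ` by the subgroups `GQ`.** -/
theorem aa_aux (red : integralClosure ℤ ℂ →+* F) (n : ℕ) : ∀ (Γ : Type) [Group Γ] [Finite Γ]
    (G : Subgroup Γ) [G.Normal] (z : Γ → F) (c : F) (Y : Type) [Finite Y] [MulAction Γ Y],
    Nat.card Γ ≤ n → IsPGroup p (Γ ⧸ G) → InZ G z → Hyp p red G z c Y →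
    ∀ (m : ℕ) (D : Subgroup Γ), G ≤ D → Nat.card Γ - Nat.card D = m →
      AA p red G z c D = Nat.card D * Nat.card {y : Y // MulAction.stabilizer Γ y = D} := by
  have hpr : p.Prime := Fact.out
  induction n with
  | zero =>
    intro Γ _ _ G _ z c Y _ _ hn
    have := Nat.card_pos (α := Γ)
    omega
  | succ n ih =>
    intro Γ _ _ G _ z c Y _ _ hn hp hz hY m
    induction m using Nat.strong_induction_on with
    | _ m ihm =>
      intro D hD hm
      by_cases hDt : D = ⊤
      · subst hDt
        have h1 := hY Γ (MonoidHom.id Γ) Function.injective_id (by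
          rw [MonoidHom.range_eq_top.2 Function.surjective_id]
          exact le_top)
        rw [Subgroup.comap_id] at h1
        rw [Subgroup.card_top]
        refine Eq.trans h1 ?_
        congr 1
        refine Nat.card_congr (Equiv.subtypeEquivRight fun y => ?_)
        constructor
        · intro h
          rw [eq_top_iff]
          intro g _
          exact h g
        · intro h g
          have h2 : g ∈ MulAction.stabilizer Γ y := by rw [h]; trivial
          exact h2
      · obtain ⟨M, hMn, hDM, hM⟩ := exists_idx G hp D hD hDt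
        have hGM : G ≤ M := hD.trans hDM
        have hpM : IsPGroup p (M ⧸ G.subgroupOf M) := pq_mid G hp M
        have hlt : Nat.card M < Nat.card Γ := by
          have e1 := M.card_mul_index
          have e2 : 2 ≤ p := hpr.two_le
          have e3 : 0 < Nat.card M := Nat.card_pos
          have e4 : M.index = p := hM
          rw [e4] at e1
          nlinarith
        have hDc : 0 < Nat.card D := Nat.card_pos
        -- the local equations
        have key : ∀ Q₁ : Subgroup M, IsPGroup p Q₁ →
            p * wl p red z c (Q₁.map M.subtype) + (∑ R : Subgroup Γ,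
              if (IsPGroup p R ∧ M ⊔ R = ⊤) ∧ R.subgroupOf M = Q₁ then wl p red z c R else 0) =
            p * wl p red (fun x : M => z x) c Q₁ := by
          intro Q₁ hQ₁
          have h1 := local_eqL dgnL' Pool.Agent.Y809.NV.clifL red M z c (inz_mono hGM hz) hM Q₁ hQ₁
          simp only [and_assoc]
          exact h1
        have s0 : p * (∑ Q₁ : Subgroup M, if IsPGroup p Q₁ ∧
              G.subgroupOf M ⊔ Q₁ = D.subgroupOf M then wl p red z c (Q₁.map M.subtype) else 0) +
            (∑ Q₁ : Subgroup M, if IsPGroup p Q₁ ∧ G.subgroupOf M ⊔ Q₁ = D.subgroupOf M then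
              (∑ R : Subgroup Γ, if (IsPGroup p R ∧ M ⊔ R = ⊤) ∧ R.subgroupOf M = Q₁ then
                wl p red z c R else 0) else 0) =
            p * AA p red (G.subgroupOf M) (fun x : M => z x) c (D.subgroupOf M) := by
          unfold AA
          rw [Finset.mul_sum, Finset.mul_sum, ← Finset.sum_add_distrib]
          refine Finset.sum_congr rfl fun Q₁ _ => ?_
          by_cases hQ₁ : IsPGroup p Q₁ ∧ G.subgroupOf M ⊔ Q₁ = D.subgroupOf M
          · rw [if_pos hQ₁, if_pos hQ₁, if_pos hQ₁]
            exact key Q₁ hQ₁.1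
          · rw [if_neg hQ₁, if_neg hQ₁, if_neg hQ₁, mul_zero, add_zero]
        have s1 : (∑ Q₁ : Subgroup M, if IsPGroup p Q₁ ∧
              G.subgroupOf M ⊔ Q₁ = D.subgroupOf M then wl p red z c (Q₁.map M.subtype) else 0) =
            AA p red G z c D := by
          unfold AA
          rw [← Finset.sum_filter, ← Finset.sum_filter]
          refine Finset.sum_nbij' (fun Q₁ => Q₁.map M.subtype) (fun Q => Q.subgroupOf M)
            ?_ ?_ ?_ ?_ ?_
          · intro Q₁ hQ₁
            rw [Finset.mem_filter] at hQ₁ ⊢
            refine ⟨Finset.mem_univ _, hQ₁.2.1.map _, ?_⟩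
            have e1 : (Q₁.map M.subtype).subgroupOf M = Q₁ :=
              Subgroup.comap_map_eq_self_of_injective M.subtype_injective Q₁
            have e2 := (sup_sub G M (Q₁.map M.subtype) hGM D hDM).1 (by rw [e1]; exact hQ₁.2.2)
            rw [inf_eq_left.2 (sup_le hGM (Subgroup.map_subtype_le Q₁))] at e2
            exact e2
          · intro Q hQ
            rw [Finset.mem_filter] at hQ ⊢
            refine ⟨Finset.mem_univ _, IsPGroup.comap_subtype hQ.2.1, ?_⟩
            rw [sup_sub G M Q hGM D hDM, hQ.2.2]
            exact inf_eq_left.2 hDM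
          · intro Q₁ _
            exact Subgroup.comap_map_eq_self_of_injective M.subtype_injective Q₁
          · intro Q hQ
            rw [Finset.mem_filter] at hQ
            rw [Subgroup.subgroupOf_map_subtype, inf_eq_left]
            exact (le_sup_right.trans hQ.2.2.le).trans hDM
          · intro Q₁ _
            rfl
        have s2 : (∑ Q₁ : Subgroup M, if IsPGroup p Q₁ ∧ G.subgroupOf M ⊔ Q₁ = D.subgroupOf M then
              (∑ R : Subgroup Γ, if (IsPGroup p R ∧ M ⊔ R = ⊤) ∧ R.subgroupOf M = Q₁ then
                wl p red z c R else 0) else 0) =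
            ∑ E : Subgroup Γ, if M ⊔ E = ⊤ ∧ E ⊓ M = D then AA p red G z c E else 0 := by
          unfold AA
          rw [fib_sum (fun R : Subgroup Γ => R.subgroupOf M)
            (fun R => IsPGroup p R ∧ M ⊔ R = ⊤)
            (fun Q₁ : Subgroup M => IsPGroup p Q₁ ∧ G.subgroupOf M ⊔ Q₁ = D.subgroupOf M)
            (fun R => wl p red z c R),
            fib_sum (fun R : Subgroup Γ => G ⊔ R) (fun R => IsPGroup p R)
            (fun E : Subgroup Γ => M ⊔ E = ⊤ ∧ E ⊓ M = D) (fun R => wl p red z c R)]
          refine Finset.sum_congr rfl fun R _ => ?_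
          have e1 : M ⊔ (G ⊔ R) = M ⊔ R := by
            rw [← sup_assoc, sup_eq_left.2 hGM]
          have e2 : ((IsPGroup p R ∧ M ⊔ R = ⊤) ∧ IsPGroup p (R.subgroupOf M) ∧
              G.subgroupOf M ⊔ R.subgroupOf M = D.subgroupOf M) ↔
              (IsPGroup p R ∧ M ⊔ (G ⊔ R) = ⊤ ∧ (G ⊔ R) ⊓ M = D) := by
            rw [e1, sup_sub G M R hGM D hDM]
            constructor
            · rintro ⟨⟨h1, h2⟩, -, h3⟩
              exact ⟨h1, h2, h3⟩
            · rintro ⟨h1, h2, h3⟩
              exact ⟨⟨h1, h2⟩, IsPGroup.comap_subtype h1, h3⟩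
          by_cases h : IsPGroup p R ∧ M ⊔ (G ⊔ R) = ⊤ ∧ (G ⊔ R) ⊓ M = D
          · rw [if_pos h, if_pos (e2.2 h)]
          · rw [if_neg h, if_neg fun h' => h (e2.1 h')]
        have s3 : (∑ E : Subgroup Γ, if M ⊔ E = ⊤ ∧ E ⊓ M = D then AA p red G z c E else 0) =
            p * Nat.card D * Nat.card {y : Y // M ⊔ MulAction.stabilizer Γ y = ⊤ ∧
              MulAction.stabilizer Γ y ⊓ M = D} := by
          rw [← fib_card (fun y : Y => MulAction.stabilizer Γ y)
            (fun E : Subgroup Γ => M ⊔ E = ⊤ ∧ E ⊓ M = D), Finset.mul_sum]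
          refine Finset.sum_congr rfl fun E _ => ?_
          by_cases hE : M ⊔ E = ⊤ ∧ E ⊓ M = D
          · rw [if_pos hE, if_pos hE]
            have e1 := card_mid M hM E D hE.1 hE.2
            have e2 : Nat.card E ≤ Nat.card Γ := Subgroup.card_le_card_group E
            have e3 : 2 ≤ p := hpr.two_le
            have e4 : Nat.card D < Nat.card E := by
              rw [e1]
              nlinarith
            have e5 := ihm (Nat.card Γ - Nat.card E) (by omega) E
              (hD.trans (by rw [← hE.2]; exact inf_le_left)) rfl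
            rw [e5, e1]
          · rw [if_neg hE, if_neg hE, mul_zero]
        have s4 := ih M (G.subgroupOf M) (fun x : M => z x) c Y (by omega) hpM
          ⟨fun g x => hz.conj g x, fun x hx => hz.supp x hx⟩ (hY.mid red hGM)
          (Nat.card M - Nat.card (D.subgroupOf M)) (D.subgroupOf M)
          (fun x hx => hD hx) rfl
        have s5 : Nat.card (D.subgroupOf M) = Nat.card D :=
          Nat.card_congr (Subgroup.subgroupOfEquivOfLe hDM).toEquiv
        have s6 : Nat.card {y : Y // MulAction.stabilizer M y = D.subgroupOf M} =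
            Nat.card {y : Y // MulAction.stabilizer Γ y = D} +
              Nat.card {y : Y // M ⊔ MulAction.stabilizer Γ y = ⊤ ∧
                MulAction.stabilizer Γ y ⊓ M = D} := by
          have e1 : ∀ y : Y, MulAction.stabilizer M y = D.subgroupOf M ↔
              MulAction.stabilizer Γ y ⊓ M = D := by
            intro y
            constructor
            · intro h
              ext x
              constructor
              · rintro ⟨h1, h2⟩
                have h3 : (⟨x, h2⟩ : M) ∈ MulAction.stabilizer M y := h1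
                rw [h] at h3
                exact h3
              · intro h1
                have h3 : (⟨x, hDM h1⟩ : M) ∈ MulAction.stabilizer M y := by rw [h]; exact h1
                exact ⟨h3, hDM h1⟩
            · intro h
              ext x
              constructor
              · intro h1
                have h3 : (x : Γ) ∈ MulAction.stabilizer Γ y ⊓ M := ⟨h1, x.2⟩
                rw [h] at h3
                exact h3
              · intro h1
                have h3 : (x : Γ) ∈ MulAction.stabilizer Γ y ⊓ M := by rw [h]; exact h1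
                exact h3.1
          have : Fintype Y := Fintype.ofFinite Y
          rw [Nat.card_eq_fintype_card, Nat.card_eq_fintype_card, Nat.card_eq_fintype_card,
            Fintype.card_subtype, Fintype.card_subtype, Fintype.card_subtype,
            ← Finset.card_union_of_disjoint]
          · congr 1
            ext y
            rw [Finset.mem_union, Finset.mem_filter, Finset.mem_filter, Finset.mem_filter, e1]
            simp only [Finset.mem_univ, true_and]
            constructor
            · intro h
              rcases top_or hpr M hM (MulAction.stabilizer Γ y) with h1 | h1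
              · left
                rw [inf_eq_left.2 h1] at h
                exact h
              · exact Or.inr ⟨h1, h⟩
            · rintro (h | h)
              · rw [h]
                exact inf_eq_left.2 hDM
              · exact h.2
          · rw [Finset.disjoint_left]
            intro y h1 h2
            rw [Finset.mem_filter] at h1 h2
            refine not_both hpr M hM (MulAction.stabilizer Γ y) ?_ h2.2.1
            rw [h1.2]
            exact hDM
        rw [s1, s2, s3, s4, s5, s6] at s0
        refine Nat.eq_of_mul_eq_mul_left hpr.pos ?_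
        have s7 : p * (Nat.card D * (Nat.card {y : Y // MulAction.stabilizer Γ y = D} +
              Nat.card {y : Y // M ⊔ MulAction.stabilizer Γ y = ⊤ ∧
                MulAction.stabilizer Γ y ⊓ M = D})) =
            p * (Nat.card D * Nat.card {y : Y // MulAction.stabilizer Γ y = D}) +
              p * Nat.card D * Nat.card {y : Y // M ⊔ MulAction.stabilizer Γ y = ⊤ ∧
                MulAction.stabilizer Γ y ⊓ M = D} := by ring
        rw [s7] at s0
        exact Nat.add_right_cancel s0

end ind

end Pool.Agent.V7H17.NE
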