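import Pool.Agent.V7H17.NE.Act
import Pool.Agent.V7H17.NE.CovP
import Pool.Agent.Y63.NV.Bawc

/-!
# The weights of a normal subgroup and their transport along isomorphisms
-/

set_option autoImplicit false
set_option linter.unusedSectionVars false

open scoped Classical

noncomputable section

namespace Pool.Agent.V7H17.NE

open Pool.Agent.N85.WM
open Pool.Agent.Y63.NV
open Pool.Agent.Y63.AWC (IsIrreducibleCharacter pSubgroupSetoid normalizer_map irr_comp)
open Pool.Agent.Y286.NV (isWt_comp centralValue_comp irr_class)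
open Pool.Agent.Helper884.IC (IsIrrChar irr_finite)

/-! ### transport along isomorphisms -/

section iso

variable {F G H : Type} [Field F] [Group G] [Group H] (e : G ≃* H)

/-- the image of the pair `(Q, χ)` under an isomorphism -/
def mapW (w : Subgroup G × (G → ℂ)) : Subgroup H × (H → ℂ) :=
  (w.1.map e.toMonoidHom, fun x => w.2 (e.symm x))

theorem mem_map_e {Q : Subgroup G} {x : H} : x ∈ Q.map e.toMonoidHom ↔ e.symm x ∈ Q := by
  constructor
  · rintro ⟨y, hy, rfl⟩
    have h1 : e.symm (e.toMonoidHom y) = y := e.symm_apply_apply y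
    rw [h1]
    exact hy
  · intro h
    exact ⟨e.symm x, h, e.apply_symm_apply x⟩

/-- the isomorphism of the normalisers -/
def nM (Q : Subgroup G) : Subgroup.normalizer (Q : Set G) ≃*
    Subgroup.normalizer ((Q.map e.toMonoidHom : Subgroup H) : Set H) :=
  (e.subgroupMap (Subgroup.normalizer (Q : Set G))).trans
    (MulEquiv.subgroupCongr (normalizer_map e Q))

theorem nM_coe (Q : Subgroup G) (x : Subgroup.normalizer (Q : Set G)) :
    ((nM e Q x : Subgroup.normalizer ((Q.map e.toMonoidHom : Subgroup H) : Set H)) : H) = e x := rfl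

theorem nM_symm_coe (Q : Subgroup G)
    (x : Subgroup.normalizer ((Q.map e.toMonoidHom : Subgroup H) : Set H)) :
    (((nM e Q).symm x : Subgroup.normalizer (Q : Set G)) : G) = e.symm x := by
  obtain ⟨y, rfl⟩ := (nM e Q).surjective x
  rw [(nM e Q).symm_apply_apply, nM_coe, e.symm_apply_apply]

theorem isW_map {p : ℕ} {w : Subgroup G × (G → ℂ)} (hw : IsW p w.1 w.2) :
    IsW p (mapW e w).1 (mapW e w).2 := by
  refine ⟨hw.pg.map _, fun x hx => ?_, ?_⟩
  · refine hw.supp _ fun h => hx ?_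
    have h1 : x ∈ (Subgroup.normalizer (w.1 : Set G)).map e.toMonoidHom := (mem_map_e e).2 h
    rwa [normalizer_map] at h1
  · have h1 := isWt_comp (p := p) (nM e w.1).symm
      (Q := (w.1.map e.toMonoidHom).subgroupOf
        (Subgroup.normalizer ((w.1.map e.toMonoidHom : Subgroup H) : Set H)))
      (Q' := w.1.subgroupOf (Subgroup.normalizer (w.1 : Set G))) (by
        intro x
        rw [Subgroup.mem_subgroupOf, Subgroup.mem_subgroupOf, nM_symm_coe, mem_map_e]) hw.wt
    have h2 : (fun x => (fun y : Subgroup.normalizer (w.1 : Set G) => w.2 y)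
        ((nM e w.1).symm x)) = fun x : Subgroup.normalizer
          ((w.1.map e.toMonoidHom : Subgroup H) : Set H) => w.2 (e.symm x) := by
      funext x
      show w.2 ((nM e w.1).symm x : Subgroup.normalizer (w.1 : Set G)) = _
      rw [nM_symm_coe]
    rw [h2] at h1
    exact h1

theorem wcv_map [Finite G] {p : ℕ} (red : integralClosure ℤ ℂ →+* F)
    {w : Subgroup G × (G → ℂ)} (hw : IsW p w.1 w.2) (f : H → F) (hf : IsClassFun f) :
    wcv red (mapW e w).1 (mapW e w).2 f = wcv red w.1 w.2 (fun x => f (e x)) := by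
  have hfin : Finite H := Finite.of_surjective e e.surjective
  have h1 := (isW_map e hw).wt.irr
  have h2 := centralValue_comp red (nM e w.1) (fun x => (mapW e w).2 x) (irr_class h1)
    (fun x => f x) (fun g x => hf g x)
  refine h2.symm.trans (congrArg₂ (centralValue red) ?_ rfl)
  funext x
  show w.2 (e.symm (nM e w.1 x : Subgroup.normalizer _)) = w.2 x
  rw [nM_coe, e.symm_apply_apply]

theorem mapW_trans {K : Type} [Group K] (e' : H ≃* K) (w : Subgroup G × (G → ℂ)) :
    mapW (e.trans e') w = mapW e' (mapW e w) := by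
  refine Prod.ext ?_ rfl
  show w.1.map (e.trans e').toMonoidHom = (w.1.map e.toMonoidHom).map e'.toMonoidHom
  rw [Subgroup.map_map]
  rfl

theorem mapW_refl (w : Subgroup G × (G → ℂ)) : mapW (MulEquiv.refl G) w = w := by
  refine Prod.ext ?_ rfl
  show w.1.map (MulEquiv.refl G).toMonoidHom = w.1
  ext x
  simp

theorem mapW_symm (w : Subgroup G × (G → ℂ)) : mapW e.symm (mapW e w) = w := by
  rw [← mapW_trans, e.self_trans_symm, mapW_refl]

theorem mapW_symm' (w : Subgroup H × (H → ℂ)) : mapW e (mapW e.symm w) = w := by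
  rw [← mapW_trans, e.symm_trans_self, mapW_refl]

end iso

/-! ### the action on the weights of a block -/

section act

variable {F Γ : Type} [Field F] [Group Γ] (G : Subgroup Γ) [G.Normal]

/-- conjugation by `g` as an automorphism of the normal subgroup `G` -/
def cj (g : Γ) : G ≃* G := MulAut.conjNormal g

theorem cj_coe (g : Γ) (x : G) : ((cj G g x : G) : Γ) = g * x * g⁻¹ := rfl

theorem cj_mul (g h : Γ) : cj G (g * h) = (cj G h).trans (cj G g) := by
  ext x
  show g * h * (x : Γ) * (g * h)⁻¹ = g * (h * x * h⁻¹) * g⁻¹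
  group

theorem cj_one : cj G (1 : Γ) = MulEquiv.refl G := by
  ext x
  show 1 * (x : Γ) * 1⁻¹ = x
  group

theorem cj_symm (g : Γ) : (cj G g).symm = cj G g⁻¹ := by
  ext x
  have h1 : (((cj G g).symm x : G) : Γ) = g⁻¹ * x * g := MulAut.conjNormal_symm_apply g x
  rw [h1, cj_coe, inv_inv]

/-- the pairs -/
abbrev Pr (G : Subgroup Γ) : Type := Subgroup G × (G → ℂ)

instance instPr : MulAction Γ (Pr G) where
  smul g w := mapW (cj G g) w
  one_smul w := by
    show mapW (cj G 1) w = w
    rw [cj_one, mapW_refl]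
  mul_smul g h w := by
    show mapW (cj G (g * h)) w = mapW (cj G g) (mapW (cj G h) w)
    rw [cj_mul, mapW_trans]

theorem smul_def (g : Γ) (w : Pr G) : g • w = mapW (cj G g) w := rfl

theorem inv_fun {B : (G → F) → F} (hI : IsInvBlock G B) (g : Γ) (f : G → F)
    (hf : IsClassFun f) : B (fun x => f (cj G g x)) = B f := by
  have hf' : IsClassFun (fun x => f (cj G g x)) := by
    intro k x
    show f (cj G g (k * x * k⁻¹)) = f (cj G g x)
    rw [map_mul, map_mul, map_inv, hf]
  refine (hI g _ f hf' fun x y hxy => ?_).symm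
  have h1 : y = cj G g x := Subtype.ext hxy
  rw [h1]

/-- `(Q, χ)` is a weight of the block `B` of `G` -/
def IsBW (p : ℕ) (red : integralClosure ℤ ℂ →+* F) (B : (G → F) → F) (w : Pr G) : Prop :=
  IsW p w.1 w.2 ∧ ∀ f : G → F, IsClassFun f → wcv red w.1 w.2 f = B f

theorem isBW_smul [Finite Γ] {p : ℕ} {red : integralClosure ℤ ℂ →+* F} {B : (G → F) → F}
    (hI : IsInvBlock G B) (g : Γ) {w : Pr G} (hw : IsBW G p red B w) :
    IsBW G p red B (g • w) := by
  refine ⟨isW_map (cj G g) hw.1, fun f hf => ?_⟩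
  rw [smul_def, wcv_map (cj G g) red hw.1 f hf, hw.2, inv_fun G hI g f hf]
  intro k x
  show f (cj G g (k * x * k⁻¹)) = f (cj G g x)
  rw [map_mul, map_mul, map_inv, hf]

/-- the weights of the block `B` of `G` -/
def WT (p : ℕ) (red : integralClosure ℤ ℂ →+* F) (B : (G → F) → F) : Type :=
  {w : Pr G // IsBW G p red B w}

instance instWT [Finite Γ] (p : ℕ) (red : integralClosure ℤ ℂ →+* F) (B : (G → F) → F)
    [hI : Fact (IsInvBlock G B)] : MulAction Γ (WT G p red B) where
  smul g w := ⟨g • w.1, isBW_smul G hI.out g w.2⟩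
  one_smul w := Subtype.ext (one_smul Γ w.1)
  mul_smul g h w := Subtype.ext (mul_smul g h w.1)

theorem WT_smul [Finite Γ] (p : ℕ) (red : integralClosure ℤ ℂ →+* F) (B : (G → F) → F)
    [Fact (IsInvBlock G B)] (g : Γ) (w : WT G p red B) : (g • w).1 = g • w.1 := rfl

theorem finite_isW [Finite Γ] (p : ℕ) (Q : Subgroup G) :
    Finite {χ : G → ℂ // IsW p Q χ} := by
  have : Fintype (Subgroup.normalizer (Q : Set G)) := Fintype.ofFinite _
  have h1 : Finite {χ : Subgroup.normalizer (Q : Set G) → ℂ // IsIrreducibleCharacter χ} :=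
    (irr_finite (G := Subgroup.normalizer (Q : Set G))).to_subtype
  refine Finite.of_injective (β := {χ : Subgroup.normalizer (Q : Set G) → ℂ //
    IsIrreducibleCharacter χ}) (fun χ => ⟨fun x => χ.1 x, χ.2.wt.irr⟩) ?_
  intro χ χ' h
  apply Subtype.ext
  funext x
  by_cases hx : x ∈ Subgroup.normalizer (Q : Set G)
  · exact congrFun (congrArg Subtype.val h) ⟨x, hx⟩
  · rw [χ.2.supp x hx, χ'.2.supp x hx]

instance [Finite Γ] (p : ℕ) (red : integralClosure ℤ ℂ →+* F) (B : (G → F) → F) :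
    Finite (WT G p red B) := by
  have : ∀ Q : Subgroup G, Finite {χ : G → ℂ // IsW p Q χ} := finite_isW G p
  refine Finite.of_injective (β := Σ Q : Subgroup G, {χ : G → ℂ // IsW p Q χ})
    (fun w => ⟨w.1.1, w.1.2, w.2.1⟩) ?_
  intro w w' h
  rw [Sigma.mk.injEq] at h
  obtain ⟨h1, h2⟩ := h
  apply Subtype.ext
  refine Prod.ext h1 ?_
  obtain ⟨⟨Q, χ⟩, hw⟩ := w
  obtain ⟨⟨Q', χ'⟩, hw'⟩ := w'
  change Q = Q' at h1
  subst h1
  exact congrArg Subtype.val (eq_of_heq h2)

/-! ### the stabiliser of an invariant weight -/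

theorem mem_nrm (Q : Subgroup G) (g : Γ) :
    g ∈ nrm G Q ↔ Q.map (cj G g).toMonoidHom = Q := by
  unfold nrm
  have h3 : ∀ u : G, (u : Γ) ∈ Q.map G.subtype ↔ u ∈ Q := by
    intro u
    constructor
    · rintro ⟨v, hv, hvu⟩
      have h4 : v = u := Subtype.ext hvu
      rwa [← h4]
    · intro hu
      exact ⟨u, hu, rfl⟩
  rw [Subgroup.mem_normalizer_iff]
  constructor
  · intro h
    ext x
    rw [mem_map_e, ← h3, ← h3 x, cj_symm, h, cj_coe]
    have h1 : g * (g⁻¹ * (x : Γ) * g⁻¹⁻¹) * g⁻¹ = x := by group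
    rw [h1]
  · intro h x
    constructor
    · rintro ⟨x', hx', rfl⟩
      have h4 : cj G g x' ∈ Q := by
        rw [← h]
        exact ⟨x', hx', rfl⟩
      exact ⟨_, h4, rfl⟩
    · rintro ⟨y, hy, hxy⟩
      have h2 : (y : Γ) = g * x * g⁻¹ := hxy
      rw [SetLike.mem_coe, ← h, mem_map_e] at hy
      refine ⟨_, hy, ?_⟩
      show (((cj G g).symm y : G) : Γ) = x
      rw [cj_symm, cj_coe, h2]
      group

theorem mem_stab (w : Pr G) (g : Γ) :
    g ∈ MulAction.stabilizer Γ w ↔ g ∈ nrm G w.1 ∧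
      ∀ x y : G, (y : Γ) = g * x * g⁻¹ → w.2 x = w.2 y := by
  rw [MulAction.mem_stabilizer_iff, smul_def, mem_nrm, Prod.ext_iff]
  refine and_congr Iff.rfl ?_
  constructor
  · intro h x y hxy
    have h1 : y = cj G g x := Subtype.ext hxy
    have h2 := congrFun h y
    change w.2 ((cj G g).symm y) = w.2 y at h2
    rwa [h1, (cj G g).symm_apply_apply, ← h1] at h2
  · intro h
    funext y
    show w.2 ((cj G g).symm y) = w.2 y
    refine h _ y ?_
    have h1 : y = cj G g ((cj G g).symm y) := ((cj G g).apply_symm_apply y).symm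
    conv_lhs => rw [h1]
    rfl

theorem stab_le (w : Pr G) : MulAction.stabilizer Γ w ≤ nrm G w.1 :=
  fun g hg => ((mem_stab G w g).1 hg).1

/-- elements of `G` which normalise `Q` fix the weight -/
theorem stab_of_mem [Finite Γ] {p : ℕ} {w : Pr G} (hw : IsW p w.1 w.2) (a : Γ) (ha : a ∈ G)
    (hn : a ∈ nrm G w.1) : a ∈ MulAction.stabilizer Γ w := by
  rw [mem_stab]
  refine ⟨hn, fun x y hxy => ?_⟩
  -- `a` as an element of the normaliser in `G`
  have h3 : ∀ u : G, (u : Γ) ∈ w.1.map G.subtype ↔ u ∈ w.1 := by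
    intro u
    constructor
    · rintro ⟨v, hv, hvu⟩
      have h4 : v = u := Subtype.ext hvu
      rwa [← h4]
    · intro hu
      exact ⟨u, hu, rfl⟩
  have hnn : ∀ b : G, (b : Γ) ∈ nrm G w.1 ↔ b ∈ Subgroup.normalizer (w.1 : Set G) := by
    intro b
    unfold nrm
    rw [Subgroup.mem_normalizer_iff, Subgroup.mem_normalizer_iff]
    constructor
    · intro h u
      rw [← h3, ← h3 (b * u * b⁻¹)]
      exact h u
    · intro h u
      constructor
      · rintro ⟨v, hv, rfl⟩
        exact ⟨b * v * b⁻¹, (h v).1 hv, rfl⟩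
      · rintro ⟨v, hv, hvu⟩
        have h5 : (v : Γ) = b * u * (b : Γ)⁻¹ := hvu
        have h6 : u = ((b⁻¹ * v * b : G) : Γ) := by
          push_cast
          rw [h5]
          group
        rw [h6, h3]
        refine (h _).2 ?_
        have h7 : b * (b⁻¹ * v * b) * b⁻¹ = v := by group
        rw [h7]
        exact hv
  have haN : (⟨a, ha⟩ : G) ∈ Subgroup.normalizer (w.1 : Set G) := (hnn ⟨a, ha⟩).1 hn
  have hy : y = (⟨a, ha⟩ : G) * x * (⟨a, ha⟩ : G)⁻¹ := Subtype.ext hxy
  have : Fintype (Subgroup.normalizer (w.1 : Set G)) := Fintype.ofFinite _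
  by_cases hx : x ∈ Subgroup.normalizer (w.1 : Set G)
  · have h4 := Pool.Agent.Y930.NV.irr_Cf hw.wt.irr
      (⟨⟨a, ha⟩, haN⟩ : Subgroup.normalizer (w.1 : Set G)) ⟨x, hx⟩
    rw [hy]
    exact h4.symm
  · rw [hw.supp x hx, hw.supp y]
    intro h4
    apply hx
    rw [hy] at h4
    have h5 := Subgroup.mul_mem _ (Subgroup.mul_mem _ (Subgroup.inv_mem _ haN) h4) haN
    have h6 : (⟨a, ha⟩ : G)⁻¹ * ((⟨a, ha⟩ : G) * x * (⟨a, ha⟩ : G)⁻¹) * (⟨a, ha⟩ : G) = x := by
      group
    rwa [h6] at h5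

theorem invW_iff [Finite Γ] {p : ℕ} {w : Pr G} (hw : IsW p w.1 w.2) :
    InvW G w.1 w.2 ↔ G ⊔ MulAction.stabilizer Γ w = ⊤ := by
  constructor
  · rintro ⟨h1, h2⟩
    have h3 : nrm G w.1 ≤ MulAction.stabilizer Γ w := fun g hg => (mem_stab G w g).2 ⟨hg, h2 g hg⟩
    rw [eq_top_iff, ← h1]
    exact sup_le_sup le_rfl h3
  · intro h
    have h1 : G ⊔ nrm G w.1 = ⊤ := by
      rw [eq_top_iff, ← h]
      exact sup_le_sup le_rfl (stab_le G w)
    refine ⟨h1, fun g hg => ?_⟩
    have h2 : g ∈ ((G ⊔ MulAction.stabilizer Γ w : Subgroup Γ) : Set Γ) := by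
      rw [h]; exact Subgroup.mem_top _
    rw [Subgroup.normal_mul, Set.mem_mul] at h2
    obtain ⟨a, ha, s, hs, rfl⟩ := h2
    have h3 : a ∈ nrm G w.1 := by
      have h4 := (nrm G w.1).mul_mem hg ((nrm G w.1).inv_mem (stab_le G w hs))
      rwa [mul_inv_cancel_right] at h4
    have h5 := (MulAction.stabilizer Γ w).mul_mem (stab_of_mem G hw a ha h3) hs
    exact ((mem_stab G w _).1 h5).2

theorem stab_eq [Finite Γ] {w : Pr G} (h : InvW G w.1 w.2) :
    MulAction.stabilizer Γ w = nrm G w.1 :=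
  le_antisymm (stab_le G w) fun g hg => (mem_stab G w g).2 ⟨hg, h.2 g hg⟩

end act

end Pool.Agent.V7H17.NE
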